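import Pool.Agent.H81.BCI.Defs

/-!
MP_535960_lc, job D, part 1: Borel codes of sections of Borel sets.
-/

namespace Pool.Agent.H81.BCI

open Set MeasureTheory

namespace Asm

/-- `W` has a measurable family of codes of its sections. -/
def HasCodes (W : Set ((ℕ → Bool) × ((ℕ → Bool) × (ℕ → Bool)))) : Prop :=
  ∃ f : (ℕ → Bool) → (ℕ → ℕ), Measurable f ∧ ∀ x, IsCode (f x) {q | (x, q) ∈ W}

theorem HasCodes.compl {W : Set ((ℕ → Bool) × ((ℕ → Bool) × (ℕ → Bool)))} (h : HasCodes W) :
    HasCodes Wᶜ := by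
  obtain ⟨f, hf, hc⟩ := h
  refine ⟨fun x m => match m with | 0 => 1 | m + 1 => f x m, ?_, fun x => ?_⟩
  · rw [measurable_pi_iff]
    intro m
    cases m with
    | zero => exact measurable_const
    | succ m => exact (measurable_pi_apply m).comp hf
  · have : {q | (x, q) ∈ Wᶜ} = {q | (x, q) ∈ W}ᶜ := rfl
    rw [this]
    exact IsCode.compl _ rfl _ (hc x)

theorem HasCodes.iUnion {W : ℕ → Set ((ℕ → Bool) × ((ℕ → Bool) × (ℕ → Bool)))}
    (h : ∀ j, HasCodes (W j)) : HasCodes (⋃ j, W j) := by
  choose f hf hc using h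
  refine ⟨fun x m => match m with | 0 => 2 | m + 1 => f (Nat.unpair m).1 x (Nat.unpair m).2, ?_,
    fun x => ?_⟩
  · rw [measurable_pi_iff]
    intro m
    cases m with
    | zero => exact measurable_const
    | succ m => exact (measurable_pi_apply _).comp (hf _)
  · have : {q | (x, q) ∈ ⋃ j, W j} = ⋃ j, {q | (x, q) ∈ W j} := by
      ext q; simp
    rw [this]
    refine IsCode.iUnion _ le_rfl _ (fun j => ?_)
    have h1 := hc j x
    simpa [Nat.unpair_pair] using h1

theorem exists_code_univ : ∃ c, IsCode c (Set.univ) := by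
  let A : ℕ → Set ((ℕ → Bool) × (ℕ → Bool)) := fun j =>
    if j = 0 then {p | p.1 0 = true} else {p | p.1 0 = true}ᶜ
  have h0 : IsCode (fun _ => 0) {p : (ℕ → Bool) × (ℕ → Bool) | p.1 0 = true} :=
    IsCode.fst (fun _ => 0) rfl rfl
  have h1 : IsCode (fun m => if m = 0 then 1 else 0)
      {p : (ℕ → Bool) × (ℕ → Bool) | p.1 0 = true}ᶜ := by
    refine IsCode.compl _ rfl _ ?_
    simpa using h0
  have h2 : ∀ j, ∃ c, IsCode c (A j) := by
    intro j
    by_cases hj : j = 0
    · exact ⟨_, by simpa [A, hj] using h0⟩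
    · exact ⟨_, by simpa [A, hj] using h1⟩
  choose c hc using h2
  refine ⟨fun m => match m with | 0 => 2 | m + 1 => c (Nat.unpair m).1 (Nat.unpair m).2, ?_⟩
  have hU : (⋃ j, A j) = Set.univ := by
    rw [Set.eq_univ_iff_forall]
    intro p
    rw [Set.mem_iUnion]
    by_cases hp : p.1 0 = true
    · exact ⟨0, by simpa [A] using hp⟩
    · exact ⟨1, by simpa [A] using hp⟩
  rw [← hU]
  refine IsCode.iUnion _ le_rfl _ (fun j => ?_)
  have h3 := hc j
  simpa [Nat.unpair_pair] using h3

theorem exists_code_empty : ∃ c, IsCode c (∅ : Set ((ℕ → Bool) × (ℕ → Bool))) := by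
  obtain ⟨c, hc⟩ := exists_code_univ
  refine ⟨fun m => match m with | 0 => 1 | m + 1 => c m, ?_⟩
  rw [← Set.compl_univ]
  exact IsCode.compl _ rfl _ hc

theorem hasCodes_empty : HasCodes ∅ := by
  obtain ⟨c, hc⟩ := exists_code_empty
  refine ⟨fun _ => c, measurable_const, fun x => ?_⟩
  simpa using hc

theorem hasCodes_x (m : ℕ) : HasCodes {w | w.1 m = true} := by
  obtain ⟨c, hc⟩ := exists_code_empty
  obtain ⟨d, hd⟩ := exists_code_univ
  refine ⟨fun x => if x m = true then d else c, ?_, fun x => ?_⟩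
  · apply Measurable.ite _ measurable_const measurable_const
    exact measurableSet_eq_fun (measurable_pi_apply m) measurable_const
  · by_cases hx : x m = true
    · simpa [hx] using hd
    · simpa [hx] using hc

theorem hasCodes_fst (m : ℕ) : HasCodes {w | w.2.1 m = true} := by
  refine ⟨fun _ t => if t = 2 then m else 0, measurable_const, fun x => ?_⟩
  have := IsCode.fst (fun t => if t = 2 then m else 0) (by simp) (by simp)
  simpa using this

theorem hasCodes_snd (m : ℕ) : HasCodes {w | w.2.2 m = true} := by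
  refine ⟨fun _ t => if t = 2 then m else if t = 1 then 1 else 0, measurable_const, fun x => ?_⟩
  have := IsCode.snd (fun t => if t = 2 then m else if t = 1 then 1 else 0) (by simp) (by simp)
  simpa using this

/-- the sigma-algebra of the sets with codes -/
@[reducible] def codeSpace : MeasurableSpace ((ℕ → Bool) × ((ℕ → Bool) × (ℕ → Bool))) where
  MeasurableSet' := HasCodes
  measurableSet_empty := hasCodes_empty
  measurableSet_compl _ h := h.compl
  measurableSet_iUnion _ h := HasCodes.iUnion h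

theorem hasCodes_of_measurableSet {W : Set ((ℕ → Bool) × ((ℕ → Bool) × (ℕ → Bool)))}
    (hW : MeasurableSet W) : HasCodes W := by
  have h1 : @Measurable _ _ codeSpace _ (fun w : (ℕ → Bool) × ((ℕ → Bool) × (ℕ → Bool)) => w.1) := by
    rw [@measurable_pi_iff _ _ _ codeSpace _]
    intro m
    exact @measurable_to_bool _ codeSpace _ (hasCodes_x m)
  have h2 : @Measurable _ _ codeSpace _
      (fun w : (ℕ → Bool) × ((ℕ → Bool) × (ℕ → Bool)) => w.2.1) := by
    rw [@measurable_pi_iff _ _ _ codeSpace _]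
    intro m
    exact @measurable_to_bool _ codeSpace _ (hasCodes_fst m)
  have h3 : @Measurable _ _ codeSpace _
      (fun w : (ℕ → Bool) × ((ℕ → Bool) × (ℕ → Bool)) => w.2.2) := by
    rw [@measurable_pi_iff _ _ _ codeSpace _]
    intro m
    exact @measurable_to_bool _ codeSpace _ (hasCodes_snd m)
  have h4 : @Measurable _ _ codeSpace inferInstance
      (fun w : (ℕ → Bool) × ((ℕ → Bool) × (ℕ → Bool)) => (w.1, (w.2.1, w.2.2))) :=
    Measurable.prodMk (m := codeSpace) h1 (Measurable.prodMk (m := codeSpace) h2 h3)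
  exact h4 hW

end Asm

end Pool.Agent.H81.BCI
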