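import Pool.Agent.H81.BCI.AsmGraph

/-!
MP_535960_lc, job D, part 3: edge colourings of the graph of a free edge system
are proper colourings of the edge system; transport along measurable isomorphisms.
-/

namespace Pool.Agent.H81.BCI

open Set MeasureTheory

namespace ES

variable {n : ℕ} [NeZero n] {E : Type*} [MeasurableSpace E] (S : ES n E)

/-- the normal form of a vertex: the edge of position zero -/
def nf (i : Bool) (e : E) : E := S.act i (-S.pos i e) e

lemma pos_nf (i : Bool) (e : E) : S.pos i (S.nf i e) = 0 := by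
  rw [nf, S.pos_act, add_neg_cancel]

lemma act_nf (i : Bool) (e : E) : S.act i (S.pos i e) (S.nf i e) = e := by
  rw [nf, S.act_add, neg_add_cancel, S.act_zero]

lemma nf_act (i : Bool) (d : Fin n) (e : E) : S.nf i (S.act i d e) = S.nf i e := by
  rw [nf, S.pos_act, S.act_add, nf]
  congr 1
  abel

lemma adj_nf (e : E) : S.graph.Adj (false, S.nf false e) (true, S.nf true e) := by
  refine ⟨rfl, ?_, S.pos false e, S.pos true e, ?_⟩
  · simp only
    rw [S.pos_nf, S.pos_nf]
  · simp only
    rw [S.act_nf, S.act_nf]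

lemma nf_ne (hf : ∀ y, S.FreeAt y) (i : Bool) {d : Fin n} (hd : d ≠ 0) (e : E) :
    S.nf (!i) (S.act i d e) ≠ S.nf (!i) e := by
  intro h
  have h1 := congrArg (S.act (!i) (S.pos (!i) (S.act i d e))) h
  rw [S.act_nf, nf, S.act_add] at h1
  exact hd (S.free_two (hf e) h1).1

lemma measurable_nf (i : Bool) : Measurable (S.nf i) := by
  have h : Measurable fun p : Fin n × E => S.act i (-p.1) p.2 := by
    apply measurable_from_prod_countable_right
    intro c
    exact S.meas_act i (-c)
  exact h.comp ((S.meas_pos i).prodMk measurable_id)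

/-- an edge colouring of the graph gives a proper colouring of the edge system -/
theorem exists_proper_of_edgeCol (hf : ∀ y, S.FreeAt y) {j : ℕ} (h : EdgeCol S.graph j) :
    ∃ κ : E → Fin j, Measurable κ ∧ S.ProperOn Set.univ κ := by
  obtain ⟨c, hc, hsymm, hprop⟩ := h
  refine ⟨fun e => c ((false, S.nf false e), (true, S.nf true e)), ?_, ?_⟩
  · exact hc.comp ((measurable_const.prodMk (S.measurable_nf false)).prodMk
      (measurable_const.prodMk (S.measurable_nf true)))
  · intro e _ i d hd
    cases i with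
    | false =>
      have h1 := hprop _ _ (true, S.nf true (S.act false d e)) (S.adj_nf e)
        (by have := S.adj_nf (S.act false d e); rwa [S.nf_act] at this)
        (fun h => S.nf_ne hf false hd e (Prod.ext_iff.1 h).2.symm)
      simp only
      rwa [S.nf_act]
    | true =>
      have h1 := hprop _ _ (false, S.nf false (S.act true d e)) (S.adj_nf e).symm
        (by have := (S.adj_nf (S.act true d e)).symm; rwa [S.nf_act] at this)
        (fun h => S.nf_ne hf true hd e (Prod.ext_iff.1 h).2.symm)
      simp only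
      rw [hsymm _ _ (S.adj_nf e), hsymm _ _ (S.adj_nf (S.act true d e)), S.nf_act true]
      exact h1

/-- the colour `j` is realised by the edge between `u` and `v` -/
def Rel {k : ℕ} (κ : E → Fin k) (u v : Bool × E) (j : Fin k) : Prop :=
  v.1 = !u.1 ∧ ∃ c d, S.act u.1 c u.2 = S.act v.1 d v.2 ∧ κ (S.act u.1 c u.2) = j

lemma Rel.unique (hf : ∀ y, S.FreeAt y) {k : ℕ} {κ : E → Fin k} {u v : Bool × E} {j j' : Fin k}
    (h : S.Rel κ u v j) (h' : S.Rel κ u v j') : j = j' := by
  obtain ⟨h1, c, d, h2, h3⟩ := h
  obtain ⟨_, c', d', h2', h3'⟩ := h'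
  rw [h1] at h2 h2'
  have := S.edge_unique hf h2 h2'
  rw [← h3, ← h3', this.1]

lemma Rel.symm {k : ℕ} {κ : E → Fin k} {u v : Bool × E} {j : Fin k}
    (h : S.Rel κ u v j) : S.Rel κ v u j := by
  obtain ⟨h1, c, d, h2, h3⟩ := h
  exact ⟨by rw [h1, Bool.not_not], d, c, h2.symm, by rw [← h2]; exact h3⟩

lemma measurable_act_fst (c : Fin n) : Measurable fun u : Bool × E => S.act u.1 c u.2 := by
  apply measurable_from_prod_countable_right
  intro i
  exact S.meas_act i c

lemma measurable_pos_fst : Measurable fun u : Bool × E => S.pos u.1 u.2 := by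
  apply measurable_from_prod_countable_right
  intro i
  exact S.meas_pos i

lemma measurableSet_rel [MeasurableEq E] {k : ℕ} {κ : E → Fin k} (hκ : Measurable κ) (j : Fin k) :
    MeasurableSet {p : (Bool × E) × (Bool × E) | S.Rel κ p.1 p.2 j} := by
  have h1 : MeasurableSet {p : (Bool × E) × (Bool × E) | p.2.1 = !p.1.1} :=
    measurableSet_eq_fun (measurable_fst.comp measurable_snd)
      ((measurable_of_countable (fun b : Bool => !b)).comp (measurable_fst.comp measurable_fst))
  have h2 : ∀ c d, MeasurableSet {p : (Bool × E) × (Bool × E) |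
      S.act p.1.1 c p.1.2 = S.act p.2.1 d p.2.2} := fun c d =>
    measurableSet_eq_fun ((S.measurable_act_fst c).comp measurable_fst)
      ((S.measurable_act_fst d).comp measurable_snd)
  have h3 : ∀ c, MeasurableSet {p : (Bool × E) × (Bool × E) | κ (S.act p.1.1 c p.1.2) = j} :=
    fun c => measurableSet_eq_fun (hκ.comp ((S.measurable_act_fst c).comp measurable_fst))
      measurable_const
  have h4 : {p : (Bool × E) × (Bool × E) | S.Rel κ p.1 p.2 j} =
      {p : (Bool × E) × (Bool × E) | p.2.1 = !p.1.1} ∩
      ⋃ c, ⋃ d, ({p | S.act p.1.1 c p.1.2 = S.act p.2.1 d p.2.2} ∩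
        {p | κ (S.act p.1.1 c p.1.2) = j}) := by
    ext p
    simp [Rel]
  rw [h4]
  exact h1.inter (MeasurableSet.iUnion fun c => MeasurableSet.iUnion fun d =>
    (h2 c d).inter (h3 c))

open Classical in
/-- proper colourings of the edge system give edge colourings of the graph -/
theorem edgeCol_of_proper [MeasurableEq E] (hf : ∀ y, S.FreeAt y) {k : ℕ} (hk : 0 < k)
    (κ : E → Fin k) (hκ : Measurable κ) (hp : S.ProperOn Set.univ κ) : EdgeCol S.graph k := by
  let c : (Bool × E) × (Bool × E) → Fin k := fun p =>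
    if h : ∃ j, S.Rel κ p.1 p.2 j then h.choose else ⟨0, hk⟩
  have hc1 : ∀ u v j, S.Rel κ u v j → c (u, v) = j := by
    intro u v j h
    have hex : ∃ j, S.Rel κ u v j := ⟨j, h⟩
    have : c (u, v) = hex.choose := dif_pos hex
    rw [this]
    exact Rel.unique S hf hex.choose_spec h
  have hc2 : ∀ u v, (¬ ∃ j, S.Rel κ u v j) → c (u, v) = ⟨0, hk⟩ := fun u v h => dif_neg h
  have hadj : ∀ u v, S.graph.Adj u v → ∃ j, S.Rel κ u v j := by
    intro u v h
    obtain ⟨h1, h2, cc, d, h3⟩ := h
    exact ⟨_, h1, cc, d, h3, rfl⟩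
  refine ⟨c, ?_, ?_, ?_⟩
  · apply measurable_to_countable'
    intro j
    have h1 : c ⁻¹' {j} = {p | S.Rel κ p.1 p.2 j} ∪
        (({p | ∃ j, S.Rel κ p.1 p.2 j})ᶜ ∩ {_p | (⟨0, hk⟩ : Fin k) = j}) := by
      ext p
      obtain ⟨u, v⟩ := p
      simp only [mem_preimage, mem_singleton_iff, mem_union, mem_ofPred_eq, mem_inter_iff,
        mem_compl_iff]
      constructor
      · intro h
        by_cases hex : ∃ j, S.Rel κ u v j
        · left
          obtain ⟨j', hj'⟩ := hex
          rw [hc1 u v j' hj'] at h
          rwa [← h]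
        · right
          refine ⟨hex, ?_⟩
          rw [← h, hc2 u v hex]
      · rintro (h | ⟨h1, h2⟩)
        · exact hc1 u v j h
        · rw [hc2 u v h1, h2]
    have h2 : {p : (Bool × E) × (Bool × E) | ∃ j, S.Rel κ p.1 p.2 j} =
        ⋃ j, {p | S.Rel κ p.1 p.2 j} := by
      ext p; simp
    rw [h1, h2]
    refine (S.measurableSet_rel hκ j).union (MeasurableSet.inter ?_ (MeasurableSet.const _))
    exact (MeasurableSet.iUnion fun j => S.measurableSet_rel hκ j).compl
  · intro u v h
    obtain ⟨j, hj⟩ := hadj u v h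
    rw [hc1 u v j hj, hc1 v u j hj.symm]
  · intro u v w huv huw hne
    obtain ⟨j, hj⟩ := hadj u v huv
    obtain ⟨j', hj'⟩ := hadj u w huw
    rw [hc1 u v j hj, hc1 u w j' hj']
    obtain ⟨i, a⟩ := u
    obtain ⟨c1, d1, h1, h2⟩ := hj.2
    obtain ⟨c2, d2, h3, h4⟩ := hj'.2
    simp only at h1 h2 h3 h4
    have hcc : c1 ≠ c2 := by
      rintro rfl
      apply hne
      obtain ⟨c3, hc3⟩ := S.eq_nb_of_adj huv
      obtain ⟨c4, hc4⟩ := S.eq_nb_of_adj huw
      have e1 := S.adj_nb i a c3
      have e2 := S.adj_nb i a c4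
      have hv : v.1 = !i := huv.1
      have hw : w.1 = !i := huw.1
      rw [h1, hv, hw] at h3
      have hpos : S.pos (!i) v.2 = S.pos (!i) w.2 := by
        have := huv.2.1.symm.trans huw.2.1
        rwa [hv, hw] at this
      have hd : d1 = d2 := by
        have := congrArg (S.pos (!i)) h3
        rw [S.pos_act, S.pos_act, hpos] at this
        exact add_left_cancel this
      rw [hd] at h3
      have h5 := congrArg (S.act (!i) (-d2)) h3
      rw [S.act_neg, S.act_neg] at h5
      exact Prod.ext (hv.trans hw.symm) h5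
    rw [← h2, ← h4]
    have h6 := hp (S.act i c1 a) (Set.mem_univ _) i (c2 - c1) (sub_ne_zero.2 hcc.symm)
    rwa [S.act_add, add_sub_cancel] at h6

end ES

namespace Asm

/-- transport of edge colourings along a measurable isomorphism -/
theorem edgeCol_comap {X Y : Type*} [MeasurableSpace X] [MeasurableSpace Y] (φ : Y ≃ᵐ X)
    (G : SimpleGraph X) (k : ℕ) : EdgeCol (G.comap φ) k ↔ EdgeCol G k := by
  constructor
  · rintro ⟨c, hc, h1, h2⟩
    refine ⟨fun p => c (φ.symm p.1, φ.symm p.2), ?_, ?_, ?_⟩
    · exact hc.comp ((φ.symm.measurable.comp measurable_fst).prodMk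
        (φ.symm.measurable.comp measurable_snd))
    · intro a b hab
      exact h1 _ _ (by simpa using hab)
    · intro a b b' hab hab' hne
      exact h2 _ _ _ (by simpa using hab) (by simpa using hab') (fun h => hne (φ.symm.injective h))
  · rintro ⟨c, hc, h1, h2⟩
    refine ⟨fun p => c (φ p.1, φ p.2), ?_, ?_, ?_⟩
    · exact hc.comp ((φ.measurable.comp measurable_fst).prodMk
        (φ.measurable.comp measurable_snd))
    · intro a b hab
      exact h1 _ _ (by simpa using hab)
    · intro a b b' hab hab' hne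
      exact h2 _ _ _ (by simpa using hab) (by simpa using hab') (fun h => hne (φ.injective h))

theorem hasIndex_comap {X Y : Type*} [MeasurableSpace X] [MeasurableSpace Y] (φ : Y ≃ᵐ X)
    (G : SimpleGraph X) (k : ℕ) : HasIndex (G.comap φ) k ↔ HasIndex G k := by
  simp only [HasIndex, edgeCol_comap]

theorem edgeCol_mono {X : Type*} [MeasurableSpace X] {G : SimpleGraph X} {j k : ℕ} (hjk : j ≤ k)
    (h : EdgeCol G j) : EdgeCol G k := by
  obtain ⟨c, hc, h1, h2⟩ := h
  refine ⟨fun p => Fin.castLE hjk (c p),
    (measurable_of_countable (fun a : Fin j => Fin.castLE hjk a)).comp hc, ?_, ?_⟩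
  · intro a b hab
    exact congrArg (Fin.castLE hjk) (h1 a b hab)
  · intro a b b' hab hab' hne h
    exact h2 a b b' hab hab' hne (Fin.castLE_injective hjk h)

theorem ncard_neighborSet_comap {X Y : Type*} (φ : Y ≃ X)
    (G : SimpleGraph X) (v : Y) :
    ((G.comap φ).neighborSet v).ncard = (G.neighborSet (φ v)).ncard := by
  have : (G.comap φ).neighborSet v = φ ⁻¹' (G.neighborSet (φ v)) := by
    ext w; simp
  rw [this, ← Set.ncard_image_of_injective _ φ.injective, Set.image_preimage_eq _ φ.surjective]

/-- sums of standard Borel spaces -/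
instance standardBorel_sum {α β : Type*} [MeasurableSpace α] [MeasurableSpace β]
    [StandardBorelSpace α] [StandardBorelSpace β] : StandardBorelSpace (α ⊕ β) := by
  let := upgradeStandardBorel α
  let := upgradeStandardBorel β
  have : BorelSpace (α ⊕ β) := by
    constructor
    apply le_antisymm
    · intro s hs
      have h1 : MeasurableSet (Sum.inl ⁻¹' s : Set α) := measurable_inl hs
      have h2 : MeasurableSet (Sum.inr ⁻¹' s : Set β) := measurable_inr hs
      have h3 : s = Sum.inl '' (Sum.inl ⁻¹' s) ∪ Sum.inr '' (Sum.inr ⁻¹' s) :=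
        (Set.image_preimage_inl_union_image_preimage_inr s).symm
      let m : MeasurableSpace (α ⊕ β) := borel (α ⊕ β)
      have : BorelSpace (α ⊕ β) := ⟨rfl⟩
      rw [h3]
      exact (Topology.IsOpenEmbedding.inl.measurableEmbedding.measurableSet_image' h1).union
        (Topology.IsOpenEmbedding.inr.measurableEmbedding.measurableSet_image' h2)
    · apply MeasurableSpace.generateFrom_le
      intro s hs
      have h1 : MeasurableSet (Sum.inl ⁻¹' s : Set α) := (hs.preimage continuous_inl).measurableSet
      have h2 : MeasurableSet (Sum.inr ⁻¹' s : Set β) := (hs.preimage continuous_inr).measurableSet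
      exact measurableSet_sum_iff.2 ⟨h1, h2⟩
  infer_instance

end Asm

end Pool.Agent.H81.BCI
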