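import Pool.Agent.H81.BCI.Defs

/-!
MP_535960_lc, job D, part 4: a free edge system (free product of two cyclic groups, times
Cantor space), the sum of two edge systems, and gluing of an edge system with a free one.
-/

namespace Pool.Agent.H81.BCI

open Set MeasureTheory

namespace Asm

/-! ### the free system -/

/-- the free product of two copies of `Z/n` -/
def G0 (n : ℕ) [NeZero n] : Type := Monoid.CoprodI (fun _ : Bool => Multiplicative (Fin n))

section free

variable (n : ℕ) [NeZero n]

instance : Group (G0 n) :=
  inferInstanceAs (Group (Monoid.CoprodI (fun _ : Bool => Multiplicative (Fin n))))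

instance : MeasurableSpace (G0 n) := ⊤

instance : DiscreteMeasurableSpace (G0 n) := ⟨fun _ => trivial⟩

instance : Countable (G0 n) := by
  have h1 : Countable (FreeMonoid (Σ _ : Bool, Multiplicative (Fin n))) :=
    inferInstanceAs (Countable (List (Σ _ : Bool, Multiplicative (Fin n))))
  exact Quotient.countable (α := FreeMonoid (Σ _ : Bool, Multiplicative (Fin n)))

/-- the generators of the `i`-th factor -/
def of0 (i : Bool) : Multiplicative (Fin n) →* G0 n :=
  Monoid.CoprodI.of (M := fun _ : Bool => Multiplicative (Fin n)) (i := i)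

/-- the projections -/
def pos0 (i : Bool) : G0 n →* Multiplicative (Fin n) :=
  Monoid.CoprodI.lift (M := fun _ : Bool => Multiplicative (Fin n))
    (fun j => if j = i then MonoidHom.id _ else 1)

lemma pos0_of0_same (i : Bool) (c : Multiplicative (Fin n)) : pos0 n i (of0 n i c) = c := by
  have : pos0 n i (of0 n i c) = (if i = i then MonoidHom.id (Multiplicative (Fin n)) else 1) c :=
    Monoid.CoprodI.lift_of _ _
  rw [this, if_pos rfl]
  rfl

lemma pos0_of0_ne {i j : Bool} (hij : j ≠ i) (c : Multiplicative (Fin n)) :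
    pos0 n i (of0 n j c) = 1 := by
  have : pos0 n i (of0 n j c) = (if j = i then MonoidHom.id (Multiplicative (Fin n)) else 1) c :=
    Monoid.CoprodI.lift_of _ _
  rw [this, if_neg hij]
  rfl

/-- the free edge system -/
def P0 : ES n (G0 n × (ℕ → Bool)) where
  pos i p := Multiplicative.toAdd (pos0 n i p.1)
  act i c p := (p.1 * of0 n i (Multiplicative.ofAdd c), p.2)
  meas_pos i := (measurable_of_countable
    (fun g : G0 n => Multiplicative.toAdd (pos0 n i g))).comp measurable_fst
  meas_act i c := ((measurable_of_countable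
    (fun g : G0 n => g * of0 n i (Multiplicative.ofAdd c))).comp measurable_fst).prodMk
    measurable_snd
  act_zero i y := by
    rw [ofAdd_zero, map_one, mul_one]
  act_add i c d y := by
    rw [mul_assoc, ← map_mul, ← ofAdd_add]
  pos_act i c y := by
    rw [map_mul, toAdd_mul, pos0_of0_same, toAdd_ofAdd]

/-- the list of letters of a walk -/
def wl : Bool → List (Fin n) → List (Σ _ : Bool, Multiplicative (Fin n))
  | _, [] => []
  | i, c :: l => ⟨i, Multiplicative.ofAdd c⟩ :: wl (!i) l

lemma wl_ne : ∀ (l : List (Fin n)) (i : Bool), (∀ c ∈ l, c ≠ 0) →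
    ∀ s ∈ wl n i l, Sigma.snd s ≠ 1 := by
  intro l
  induction l with
  | nil => intro i _ s hs; simp [wl] at hs
  | cons c l ih =>
    intro i hl s hs
    rw [wl, List.mem_cons] at hs
    rcases hs with rfl | hs
    · have := hl c (by simp)
      intro h
      apply this
      exact ofAdd_eq_one.1 h
    · exact ih (!i) (fun c hc => hl c (by simp [hc])) s hs

omit [NeZero n] in
lemma wl_head (l : List (Fin n)) (i : Bool) : ∀ s ∈ (wl n i l).head?, Sigma.fst s = i := by
  intro s hs
  cases l with
  | nil => simp [wl] at hs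
  | cons c l =>
    rw [wl] at hs
    simp only [List.head?_cons, Option.mem_def, Option.some.injEq] at hs
    rw [← hs]

omit [NeZero n] in
lemma wl_chain : ∀ (l : List (Fin n)) (i : Bool),
    (wl n i l).IsChain fun s s' => Sigma.fst s ≠ Sigma.fst s' := by
  intro l
  induction l with
  | nil => intro i; simp [wl]
  | cons c l ih =>
    intro i
    rw [wl, List.isChain_cons]
    refine ⟨?_, ih (!i)⟩
    intro s hs
    rw [wl_head n l (!i) s hs]
    simp

lemma walk_P0 : ∀ (l : List (Fin n)) (i : Bool) (g : G0 n) (r : ℕ → Bool),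
    (P0 n).walk i l (g, r) =
      (g * ((wl n i l).map (fun s => of0 n s.1 s.2)).prod, r) := by
  intro l
  induction l with
  | nil => intro i g r; simp [wl, ES.walk]
  | cons c l ih =>
    intro i g r
    rw [ES.walk, wl, List.map_cons, List.prod_cons, ← mul_assoc]
    have : (P0 n).act i c (g, r) = (g * of0 n i (Multiplicative.ofAdd c), r) := rfl
    rw [this, ih]

lemma freeAt_P0 (y : G0 n × (ℕ → Bool)) : (P0 n).FreeAt y := by
  intro i l hl hc h
  obtain ⟨g, r⟩ := y
  rw [walk_P0] at h
  have h1 : ((wl n i l).map (fun s => of0 n s.1 s.2)).prod = 1 := by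
    have := (Prod.ext_iff.1 h).1
    simpa using this
  let w : Monoid.CoprodI.Word (fun _ : Bool => Multiplicative (Fin n)) :=
    ⟨wl n i l, wl_ne n l i hc, wl_chain n l i⟩
  have h2 : w.prod = 1 := h1
  have h3 : w = Monoid.CoprodI.Word.empty := by
    apply (Monoid.CoprodI.Word.equiv (M := fun _ : Bool => Multiplicative (Fin n))).symm.injective
    change w.prod = Monoid.CoprodI.Word.empty.prod
    rw [h2, Monoid.CoprodI.Word.prod_empty]
  have h4 : wl n i l = [] := congrArg Monoid.CoprodI.Word.toList h3
  cases l with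
  | nil => exact hl rfl
  | cons c l => simp [wl] at h4

/-- a proper colouring of the free system with `n` colours -/
def χ0 (p : G0 n × (ℕ → Bool)) : Fin n :=
  Multiplicative.toAdd (pos0 n false p.1) + Multiplicative.toAdd (pos0 n true p.1)

lemma measurable_χ0 : Measurable (χ0 n) :=
  (measurable_of_countable (fun g : G0 n => Multiplicative.toAdd (pos0 n false g) +
    Multiplicative.toAdd (pos0 n true g))).comp measurable_fst

lemma proper_χ0 : (P0 n).ProperOn Set.univ (χ0 n) := by
  rintro ⟨g, r⟩ _ i d hd h
  have h1 : (P0 n).act i d (g, r) = (g * of0 n i (Multiplicative.ofAdd d), r) := rfl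
  rw [h1] at h
  simp only [χ0, map_mul, toAdd_mul] at h
  cases i with
  | false =>
    rw [pos0_of0_same, pos0_of0_ne n (by simp), toAdd_ofAdd, toAdd_one, add_zero,
      add_right_comm] at h
    exact hd (by simpa using h)
  | true =>
    rw [pos0_of0_same, pos0_of0_ne n (by simp), toAdd_ofAdd, toAdd_one, add_zero,
      ← add_assoc] at h
    exact hd (by simpa using h)

end free

/-! ### sums of systems -/

section sum

variable {n : ℕ} [NeZero n] {E E' : Type*} [MeasurableSpace E] [MeasurableSpace E']

/-- the sum of two edge systems -/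
def sumES (S : ES n E) (S' : ES n E') : ES n (E ⊕ E') where
  pos i := Sum.elim (S.pos i) (S'.pos i)
  act i c := Sum.map (S.act i c) (S'.act i c)
  meas_pos i := (S.meas_pos i).sumElim (S'.meas_pos i)
  meas_act i c := (S.meas_act i c).sumMap (S'.meas_act i c)
  act_zero i y := by
    cases y <;> simp [S.act_zero, S'.act_zero]
  act_add i c d y := by
    cases y <;> simp [S.act_add, S'.act_add]
  pos_act i c y := by
    cases y <;> simp [S.pos_act, S'.pos_act]

lemma walk_sum_inl (S : ES n E) (S' : ES n E') : ∀ (l : List (Fin n)) (i : Bool) (y : E),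
    (sumES S S').walk i l (Sum.inl y) = Sum.inl (S.walk i l y) := by
  intro l
  induction l with
  | nil => intro i y; rfl
  | cons c l ih => intro i y; exact ih (!i) (S.act i c y)

lemma walk_sum_inr (S : ES n E) (S' : ES n E') : ∀ (l : List (Fin n)) (i : Bool) (y : E'),
    (sumES S S').walk i l (Sum.inr y) = Sum.inr (S'.walk i l y) := by
  intro l
  induction l with
  | nil => intro i y; rfl
  | cons c l ih => intro i y; exact ih (!i) (S'.act i c y)

lemma freeAt_sum_inl (S : ES n E) (S' : ES n E') {y : E} (h : S.FreeAt y) :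
    (sumES S S').FreeAt (Sum.inl y) := by
  intro i l hl hc h1
  rw [walk_sum_inl] at h1
  exact h i l hl hc (Sum.inl_injective h1)

lemma freeAt_sum_inr (S : ES n E) (S' : ES n E') {y : E'} (h : S'.FreeAt y) :
    (sumES S S').FreeAt (Sum.inr y) := by
  intro i l hl hc h1
  rw [walk_sum_inr] at h1
  exact h i l hl hc (Sum.inr_injective h1)

end sum

/-! ### gluing with a free system -/

section tot

variable {n : ℕ} [NeZero n] {E P : Type*} [MeasurableSpace E] [MeasurableSpace P]

open Classical in
/-- the total system: `S` acts on the points over `D`, `T` acts on the other points -/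
noncomputable def totES (S : ES n E) (D : Set E) (hD : MeasurableSet D)
    (hinv : ∀ y ∈ D, ∀ i c, S.act i c y ∈ D) (T : ES n P) : ES n (E × P) where
  pos i e := if e.1 ∈ D then S.pos i e.1 else T.pos i e.2
  act i c e := if e.1 ∈ D then (S.act i c e.1, e.2) else (e.1, T.act i c e.2)
  meas_pos i := Measurable.ite (measurable_fst hD) ((S.meas_pos i).comp measurable_fst)
    ((T.meas_pos i).comp measurable_snd)
  meas_act i c := Measurable.ite (measurable_fst hD)
    (((S.meas_act i c).comp measurable_fst).prodMk measurable_snd)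
    (measurable_fst.prodMk ((T.meas_act i c).comp measurable_snd))
  act_zero i e := by
    by_cases h : e.1 ∈ D
    · simp [h, S.act_zero]
    · simp [h, T.act_zero]
  act_add i c d e := by
    by_cases h : e.1 ∈ D
    · simp [h, S.act_add, hinv _ h]
    · simp [h, T.act_add]
  pos_act i c e := by
    by_cases h : e.1 ∈ D
    · simp [h, S.pos_act, hinv _ h]
    · simp [h, T.pos_act]

variable (S : ES n E) (D : Set E) (hD : MeasurableSet D)
    (hinv : ∀ y ∈ D, ∀ i c, S.act i c y ∈ D) (T : ES n P)

lemma tot_act_pos {y : E} (hy : y ∈ D) (i : Bool) (c : Fin n) (p : P) :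
    (totES S D hD hinv T).act i c (y, p) = (S.act i c y, p) := if_pos hy

lemma tot_act_neg {y : E} (hy : y ∉ D) (i : Bool) (c : Fin n) (p : P) :
    (totES S D hD hinv T).act i c (y, p) = (y, T.act i c p) := if_neg hy

lemma tot_walk_pos : ∀ (l : List (Fin n)) (i : Bool) (y : E) (p : P), y ∈ D →
    (totES S D hD hinv T).walk i l (y, p) = (S.walk i l y, p) := by
  intro l
  induction l with
  | nil => intro i y p _; rfl
  | cons c l ih =>
    intro i y p hy
    rw [ES.walk, ES.walk, tot_act_pos S D hD hinv T hy, ih _ _ _ (hinv y hy i c)]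

lemma tot_walk_neg : ∀ (l : List (Fin n)) (i : Bool) (y : E) (p : P), y ∉ D →
    (totES S D hD hinv T).walk i l (y, p) = (y, T.walk i l p) := by
  intro l
  induction l with
  | nil => intro i y p _; rfl
  | cons c l ih =>
    intro i y p hy
    rw [ES.walk, ES.walk, tot_act_neg S D hD hinv T hy, ih _ _ _ hy]

lemma tot_free (hS : ∀ y ∈ D, S.FreeAt y) (hT : ∀ p, T.FreeAt p) (e : E × P) :
    (totES S D hD hinv T).FreeAt e := by
  intro i l hl hc h
  obtain ⟨y, p⟩ := e
  by_cases hy : y ∈ D
  · rw [tot_walk_pos S D hD hinv T l i y p hy] at h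
    exact hS y hy i l hl hc (Prod.ext_iff.1 h).1
  · rw [tot_walk_neg S D hD hinv T l i y p hy] at h
    exact hT p i l hl hc (Prod.ext_iff.1 h).2

lemma tot_proper_fst {K : Type*} (κ : E × P → K)
    (h : (totES S D hD hinv T).ProperOn Set.univ κ) (p : P) :
    S.ProperOn D (fun y => κ (y, p)) := by
  intro y hy i d hd
  have := h (y, p) (Set.mem_univ _) i d hd
  rwa [tot_act_pos S D hD hinv T hy] at this

open Classical in
lemma tot_proper {K : Type*} (c : E → K) (χ : P → K) (hc : S.ProperOn D c)
    (hχ : T.ProperOn Set.univ χ) :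
    (totES S D hD hinv T).ProperOn Set.univ (fun e => if e.1 ∈ D then c e.1 else χ e.2) := by
  rintro ⟨y, p⟩ _ i d hd
  by_cases hy : y ∈ D
  · rw [tot_act_pos S D hD hinv T hy]
    simp only [hy, hinv y hy i d, if_true]
    exact hc y hy i d hd
  · rw [tot_act_neg S D hD hinv T hy]
    simp only [hy, if_false]
    exact hχ p (Set.mem_univ _) i d hd

end tot

end Asm

end Pool.Agent.H81.BCI
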