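import Pool.Agent.H81.BCI.Defs

/-!
MP_535960_lc, job D, part 2: the graph of a free edge system.
-/

namespace Pool.Agent.H81.BCI

open Set MeasureTheory

namespace ES

variable {n : ℕ} [NeZero n] {E : Type*} [MeasurableSpace E] (S : ES n E)

/-- The graph on `Bool × E`: disjoint union of `n` copies of the bipartite graph of `S`. -/
def graph : SimpleGraph (Bool × E) where
  Adj u v := v.1 = !u.1 ∧ S.pos u.1 u.2 = S.pos v.1 v.2 ∧
    ∃ c d, S.act u.1 c u.2 = S.act v.1 d v.2
  symm := ⟨fun u v h => by
    obtain ⟨h1, h2, c, d, h3⟩ := h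
    exact ⟨by rw [h1, Bool.not_not], h2.symm, d, c, h3.symm⟩⟩
  loopless := ⟨fun u h => by
    have := h.1
    cases hu : u.1 <;> simp [hu] at this⟩

lemma graph_adj {u v : Bool × E} : S.graph.Adj u v ↔ (v.1 = !u.1 ∧
    S.pos u.1 u.2 = S.pos v.1 v.2 ∧ ∃ c d, S.act u.1 c u.2 = S.act v.1 d v.2) := Iff.rfl

lemma act_neg (i : Bool) (c : Fin n) (y : E) : S.act i (-c) (S.act i c y) = y := by
  rw [S.act_add, add_neg_cancel, S.act_zero]

lemma act_inj {i : Bool} {c c' : Fin n} {y : E} (h : S.act i c y = S.act i c' y) : c = c' := by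
  have := congrArg (S.pos i) h
  rw [S.pos_act, S.pos_act] at this
  exact add_left_cancel this

lemma free_two {y : E} (hf : S.FreeAt y) {i : Bool} {c d : Fin n}
    (h : S.act i c y = S.act (!i) d y) : c = 0 ∧ d = 0 := by
  by_cases hc : c = 0
  · subst hc
    rw [S.act_zero] at h
    refine ⟨rfl, ?_⟩
    by_contra hd
    refine hf (!i) [d] (by simp) (by simpa using hd) ?_
    simpa [walk] using h.symm
  · exfalso
    by_cases hd : d = 0
    · subst hd
      rw [S.act_zero] at h
      refine hf i [c] (by simp) (by simpa using hc) ?_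
      simpa [walk] using h
    · refine hf i [c, -d] (by simp) (by simp [hc, hd]) ?_
      simp only [walk]
      rw [h, S.act_neg]

/-- the edge between two vertices is unique -/
lemma edge_unique (hf : ∀ y, S.FreeAt y) {i : Bool} {a b : E} {c d c' d' : Fin n}
    (h : S.act i c a = S.act (!i) d b) (h' : S.act i c' a = S.act (!i) d' b) :
    c = c' ∧ d = d' := by
  have h1 : S.act i (c' - c) (S.act i c a) = S.act (!i) (d' - d) (S.act i c a) := by
    rw [S.act_add, add_sub_cancel, h', h, S.act_add, add_sub_cancel]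
  have h2 := S.free_two (hf _) h1
  exact ⟨(sub_eq_zero.1 h2.1).symm, (sub_eq_zero.1 h2.2).symm⟩

/-- the neighbour of `(i, a)` along its `c`-th edge -/
def nb (i : Bool) (a : E) (c : Fin n) : E :=
  S.act (!i) (S.pos i a - S.pos (!i) (S.act i c a)) (S.act i c a)

lemma adj_nb (i : Bool) (a : E) (c : Fin n) : S.graph.Adj (i, a) (!i, S.nb i a c) := by
  refine ⟨rfl, ?_, c, -(S.pos i a - S.pos (!i) (S.act i c a)), ?_⟩
  · simp only [nb]
    rw [S.pos_act, add_sub_cancel]
  · simp only [nb]
    rw [S.act_neg]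

lemma eq_nb_of_adj {i : Bool} {a : E} {v : Bool × E} (h : S.graph.Adj (i, a) v) :
    ∃ c, v = (!i, S.nb i a c) := by
  obtain ⟨h1, h2, c, d, h3⟩ := h
  obtain ⟨j, b⟩ := v
  simp only at h1 h2 h3
  subst h1
  refine ⟨c, ?_⟩
  have h4 : b = S.act (!i) (-d) (S.act i c a) := by rw [h3, S.act_neg]
  have h5 : -d = S.pos i a - S.pos (!i) (S.act i c a) := by
    rw [h3, S.pos_act, h2]
    abel
  rw [nb, ← h5, ← h4]

lemma nb_inj (hf : ∀ y, S.FreeAt y) (i : Bool) (a : E) : Function.Injective (S.nb i a) := by
  intro c c' h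
  have h1 : S.act i c a = S.act (!i) (-(S.pos i a - S.pos (!i) (S.act i c a))) (S.nb i a c) := by
    rw [nb, S.act_neg]
  have h2 : S.act i c' a =
      S.act (!i) (-(S.pos i a - S.pos (!i) (S.act i c' a))) (S.nb i a c) := by
    rw [h, nb, S.act_neg]
  exact (S.edge_unique hf h1 h2).1

lemma ncard_neighborSet (hf : ∀ y, S.FreeAt y) (v : Bool × E) :
    (S.graph.neighborSet v).ncard = n := by
  obtain ⟨i, a⟩ := v
  have h1 : S.graph.neighborSet (i, a) = Set.range (fun c => (!i, S.nb i a c)) := by
    ext w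
    rw [SimpleGraph.mem_neighborSet, Set.mem_range]
    constructor
    · intro h
      obtain ⟨c, hc⟩ := S.eq_nb_of_adj h
      exact ⟨c, hc.symm⟩
    · rintro ⟨c, rfl⟩
      exact S.adj_nb i a c
  rw [h1, ← Set.image_univ, Set.ncard_image_of_injective _ (fun c c' h => S.nb_inj hf i a
    (Prod.ext_iff.1 h).2), Set.ncard_univ, Nat.card_eq_fintype_card, Fintype.card_fin]

/-- cycles give periodic non-backtracking sequences -/
lemma exists_periodic {V : Type*} {G : SimpleGraph V} {v : V} {p : G.Walk v v} (hp : p.IsCycle) :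
    ∃ L : ℕ, 0 < L ∧ ∃ w : ℕ → V, (∀ j, w (j + L) = w j) ∧ (∀ j, G.Adj (w j) (w (j + 1))) ∧
      ∀ j, w j ≠ w (j + 2) := by
  have h3 : 3 ≤ p.length := hp.isCircuit.three_le_length
  refine ⟨p.length, by omega, fun j => p.getVert (j % p.length), ?_, ?_, ?_⟩
  · intro j
    simp
  · intro j
    have hlt : j % p.length < p.length := Nat.mod_lt _ (by omega)
    have hadj := p.adj_getVert_succ hlt
    by_cases h : j % p.length + 1 < p.length
    · have : (j + 1) % p.length = j % p.length + 1 := by
        rw [Nat.add_mod, Nat.mod_eq_of_lt (show 1 < p.length by omega), Nat.mod_eq_of_lt h]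
      simp only [this]
      exact hadj
    · have h5 : j % p.length + 1 = p.length := by omega
      have : (j + 1) % p.length = 0 := by
        rw [Nat.add_mod, Nat.mod_eq_of_lt (show 1 < p.length by omega), h5, Nat.mod_self]
      simp only [this]
      rw [h5, SimpleGraph.Walk.getVert_length] at hadj
      rw [SimpleGraph.Walk.getVert_zero]
      exact hadj
  · intro j h
    have h1 : j % p.length < p.length := Nat.mod_lt _ (by omega)
    have h2 : (j + 2) % p.length < p.length := Nat.mod_lt _ (by omega)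
    have h4 := hp.getVert_injOn' (show j % p.length ∈ {i | i ≤ p.length - 1} by
      simp only [Set.mem_ofPred_eq]; omega) (show (j+2) % p.length ∈ {i | i ≤ p.length - 1} by
      simp only [Set.mem_ofPred_eq]; omega) h
    rw [Nat.add_mod, Nat.mod_eq_of_lt (show 2 < p.length by omega)] at h4
    by_cases h5 : j % p.length + 2 < p.length
    · rw [Nat.mod_eq_of_lt h5] at h4; omega
    · have h6 : (j % p.length + 2) % p.length = j % p.length + 2 - p.length := by
        rw [Nat.mod_eq_sub_mod (by omega), Nat.mod_eq_of_lt (by omega)]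
      omega

lemma isAcyclic (hf : ∀ y, S.FreeAt y) : S.graph.IsAcyclic := by
  intro v p hp
  obtain ⟨L, hL, w, hper, hadj, hnb⟩ := exists_periodic hp
  have hex : ∀ j, ∃ c d, S.act (w j).1 c (w j).2 = S.act (w (j+1)).1 d (w (j+1)).2 :=
    fun j => (hadj j).2.2
  choose c d hcd using hex
  have hty : ∀ j, (w (j+1)).1 = !(w j).1 := fun j => (hadj j).1
  let e : ℕ → E := fun j => S.act (w j).1 (c j) (w j).2
  -- successive edges
  have hstep : ∀ j, S.act (w (j+1)).1 (c (j+1) - d j) (e j) = e (j+1) := by
    intro j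
    simp only [e]
    rw [hcd j, S.act_add, add_sub_cancel]
  have hne : ∀ j, c (j+1) - d j ≠ 0 := by
    intro j h0
    have h1 : e (j+1) = e j := by
      rw [← hstep j, h0, S.act_zero]
    -- then w j = w (j+2)
    apply hnb j
    have h2 : (w (j+2)).1 = (w j).1 := by
      rw [show j + 2 = (j+1) + 1 from rfl, hty (j+1), hty j, Bool.not_not]
    have h3 : S.act (w j).1 (c j) (w j).2 = S.act (w j).1 (d (j+1)) (w (j+2)).2 := by
      have h4 := hcd (j+1)
      rw [show j + 1 + 1 = j + 2 from rfl, h2] at h4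
      rw [← h4]
      exact h1.symm
    have h5 : S.pos (w j).1 (w j).2 = S.pos (w j).1 (w (j+2)).2 := by
      have h6 := (hadj j).2.1
      have h7 := (hadj (j+1)).2.1
      rw [show j + 1 + 1 = j + 2 from rfl, h2] at h7
      exact h6.trans h7
    have h8 : c j = d (j+1) := by
      have h9 := congrArg (S.pos (w j).1) h3
      rw [S.pos_act, S.pos_act, h5] at h9
      exact add_left_cancel h9
    rw [h8] at h3
    have h10 : (w j).2 = (w (j+2)).2 := by
      have h11 := congrArg (S.act (w j).1 (-(d (j+1)))) h3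
      rwa [S.act_neg, S.act_neg] at h11
    exact Prod.ext h2.symm h10
  have hperE : e L = e 0 := by
    have h1 : w L = w 0 := by simpa using hper 0
    have h2 : w (L + 1) = w 1 := by
      have := hper 1
      rwa [add_comm] at this
    have h3 := hcd L
    have h4 := hcd 0
    rw [h1, h2] at h3
    rw [zero_add] at h4
    have h5 : (w 1).1 = !(w 0).1 := hty 0
    rw [h5] at h3 h4
    have h6 := S.edge_unique hf h3 h4
    simp only [e]
    rw [h1, h6.1]
  -- the list
  let lst : ℕ → ℕ → List (Fin n) := fun j m => Nat.rec (motive := fun _ => ℕ → List (Fin n))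
    (fun _ => []) (fun _ r j => (c (j+1) - d j) :: r (j+1)) m j
  have hlst0 : ∀ j, lst j 0 = [] := fun _ => rfl
  have hlst1 : ∀ j m, lst j (m+1) = (c (j+1) - d j) :: lst (j+1) m := fun _ _ => rfl
  have hmem : ∀ m j, ∀ x ∈ lst j m, x ≠ 0 := by
    intro m
    induction m with
    | zero => intro j x hx; simp [hlst0] at hx
    | succ m ih =>
      intro j x hx
      rw [hlst1, List.mem_cons] at hx
      rcases hx with rfl | hx
      · exact hne j
      · exact ih _ _ hx
  have hwalk : ∀ m j, S.walk (w (j+1)).1 (lst j m) (e j) = e (j + m) := by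
    intro m
    induction m with
    | zero => intro j; simp [hlst0, walk]
    | succ m ih =>
      intro j
      rw [hlst1]
      simp only [walk]
      rw [hstep j, ← hty (j+1), ih (j+1)]
      congr 1
      omega
  have hfin := hwalk L 0
  rw [zero_add, zero_add, hperE] at hfin
  refine hf (e 0) _ (lst 0 L) ?_ (hmem L 0) hfin
  obtain ⟨L', rfl⟩ : ∃ L', L = L' + 1 := ⟨L - 1, by omega⟩
  rw [hlst1]
  simp

end ES

end Pool.Agent.H81.BCI
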