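import Pool.Agent.H81.BCI.AsmCode
import Pool.Agent.H81.BCI.AsmCol
import Pool.Agent.H81.BCI.AsmFree

/-!
MP_535960_lc, job D: the assembly theorem.
-/

namespace Pool.Agent.H81.BCI

open Set MeasureTheory

namespace Asm

section joint

variable {n : ℕ} [NeZero n] {X E P : Type*} [MeasurableSpace X] [MeasurableSpace E]
  [MeasurableSpace P]

/-- sections of a measurable set -/
lemma measurableSet_section {DD : Set (X × E)} (h : MeasurableSet DD) (x : X) :
    MeasurableSet {y | (x, y) ∈ DD} := measurable_prodMk_left h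

variable (S : ES n E) (DD : Set (X × E)) (hDD : MeasurableSet DD)
  (hinv : ∀ x, ∀ y ∈ {y | (x, y) ∈ DD}, ∀ i c, S.act i c y ∈ {y | (x, y) ∈ DD}) (T : ES n P)

/-- the family of total systems -/
noncomputable def fam (x : X) : ES n (E × P) :=
  totES S {y | (x, y) ∈ DD} (measurableSet_section hDD x) (hinv x) T

lemma measurable_fam_pos :
    Measurable fun w : X × (Bool × (E × P)) => (fam S DD hDD hinv T w.1).pos w.2.1 w.2.2 := by
  classical
  have h1 : (fun w : X × (Bool × (E × P)) => (fam S DD hDD hinv T w.1).pos w.2.1 w.2.2) =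
      fun w => if (w.1, w.2.2.1) ∈ DD then S.pos w.2.1 w.2.2.1 else T.pos w.2.1 w.2.2.2 := by
    funext w
    simp only [fam, totES, mem_ofPred_eq]
  rw [h1]
  refine Measurable.ite ?_ ?_ ?_
  · exact (measurable_fst.prodMk (measurable_fst.comp (measurable_snd.comp measurable_snd))) hDD
  · exact S.measurable_pos_fst.comp ((measurable_fst.comp measurable_snd).prodMk
      (measurable_fst.comp (measurable_snd.comp measurable_snd)))
  · exact T.measurable_pos_fst.comp ((measurable_fst.comp measurable_snd).prodMk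
      (measurable_snd.comp (measurable_snd.comp measurable_snd)))

lemma measurable_fam_act (c : Fin n) :
    Measurable fun w : X × (Bool × (E × P)) => (fam S DD hDD hinv T w.1).act w.2.1 c w.2.2 := by
  classical
  have h1 : (fun w : X × (Bool × (E × P)) => (fam S DD hDD hinv T w.1).act w.2.1 c w.2.2) =
      fun w => if (w.1, w.2.2.1) ∈ DD then (S.act w.2.1 c w.2.2.1, w.2.2.2)
        else (w.2.2.1, T.act w.2.1 c w.2.2.2) := by
    funext w
    simp only [fam, totES, mem_ofPred_eq]
  rw [h1]
  refine Measurable.ite ?_ ?_ ?_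
  · exact (measurable_fst.prodMk (measurable_fst.comp (measurable_snd.comp measurable_snd))) hDD
  · exact ((S.measurable_act_fst c).comp ((measurable_fst.comp measurable_snd).prodMk
      (measurable_fst.comp (measurable_snd.comp measurable_snd)))).prodMk
      (measurable_snd.comp (measurable_snd.comp measurable_snd))
  · exact (measurable_fst.comp (measurable_snd.comp measurable_snd)).prodMk
      ((T.measurable_act_fst c).comp ((measurable_fst.comp measurable_snd).prodMk
      (measurable_snd.comp (measurable_snd.comp measurable_snd))))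

lemma measurableSet_fam_adj [MeasurableEq (E × P)] :
    MeasurableSet {w : X × ((Bool × (E × P)) × (Bool × (E × P))) |
      (fam S DD hDD hinv T w.1).graph.Adj w.2.1 w.2.2} := by
  have hu : Measurable fun w : X × ((Bool × (E × P)) × (Bool × (E × P))) => (w.1, w.2.1) :=
    measurable_fst.prodMk (measurable_fst.comp measurable_snd)
  have hv : Measurable fun w : X × ((Bool × (E × P)) × (Bool × (E × P))) => (w.1, w.2.2) :=
    measurable_fst.prodMk (measurable_snd.comp measurable_snd)
  have h1 : MeasurableSet {w : X × ((Bool × (E × P)) × (Bool × (E × P))) |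
      w.2.2.1 = !w.2.1.1} :=
    measurableSet_eq_fun (measurable_fst.comp (measurable_snd.comp measurable_snd))
      ((measurable_of_countable (fun b : Bool => !b)).comp
        (measurable_fst.comp (measurable_fst.comp measurable_snd)))
  have h2 : MeasurableSet {w : X × ((Bool × (E × P)) × (Bool × (E × P))) |
      (fam S DD hDD hinv T w.1).pos w.2.1.1 w.2.1.2 =
      (fam S DD hDD hinv T w.1).pos w.2.2.1 w.2.2.2} :=
    measurableSet_eq_fun ((measurable_fam_pos S DD hDD hinv T).comp hu)
      ((measurable_fam_pos S DD hDD hinv T).comp hv)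
  have h3 : ∀ c d, MeasurableSet {w : X × ((Bool × (E × P)) × (Bool × (E × P))) |
      (fam S DD hDD hinv T w.1).act w.2.1.1 c w.2.1.2 =
      (fam S DD hDD hinv T w.1).act w.2.2.1 d w.2.2.2} := fun c d =>
    measurableSet_eq_fun ((measurable_fam_act S DD hDD hinv T c).comp hu)
      ((measurable_fam_act S DD hDD hinv T d).comp hv)
  have h4 : {w : X × ((Bool × (E × P)) × (Bool × (E × P))) |
      (fam S DD hDD hinv T w.1).graph.Adj w.2.1 w.2.2} =
      {w | w.2.2.1 = !w.2.1.1} ∩ ({w | (fam S DD hDD hinv T w.1).pos w.2.1.1 w.2.1.2 =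
      (fam S DD hDD hinv T w.1).pos w.2.2.1 w.2.2.2} ∩ ⋃ c, ⋃ d,
      {w | (fam S DD hDD hinv T w.1).act w.2.1.1 c w.2.1.2 =
      (fam S DD hDD hinv T w.1).act w.2.2.1 d w.2.2.2}) := by
    ext w
    simp [ES.graph]
  rw [h4]
  exact h1.inter (h2.inter (MeasurableSet.iUnion fun c => MeasurableSet.iUnion fun d => h3 c d))

end joint

/-- the sum of a family of sets and a constant set -/
def sumSet {X E E' : Type*} (Dm : Set (X × E)) (D' : Set E') : Set (X × (E ⊕ E')) :=
  {w | Sum.elim (fun y => (w.1, y) ∈ Dm) (fun y => y ∈ D') w.2}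

lemma measurableSet_sumSet {X E E' : Type*} [MeasurableSpace X] [MeasurableSpace E]
    [MeasurableSpace E'] {Dm : Set (X × E)} {D' : Set E'} (hDm : MeasurableSet Dm)
    (hD' : MeasurableSet D') : MeasurableSet (sumSet Dm D') := by
  have h1 : sumSet Dm D' = (MeasurableEquiv.prodSumDistrib X E E') ⁻¹'
      (Sum.inl '' Dm ∪ Sum.inr '' (Prod.snd ⁻¹' D')) := by
    ext ⟨x, z⟩
    rw [mem_preimage]
    cases z with
    | inl y =>
      have e1 : MeasurableEquiv.prodSumDistrib X E E' (x, Sum.inl y) = Sum.inl (x, y) := rfl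
      rw [e1]
      simp [sumSet]
    | inr y =>
      have e1 : MeasurableEquiv.prodSumDistrib X E E' (x, Sum.inr y) = Sum.inr (x, y) := rfl
      rw [e1]
      simp [sumSet]
  rw [h1]
  exact (MeasurableEquiv.prodSumDistrib X E E').measurable
    (hDm.inl_image.union (measurable_snd hD').inr_image)

end Asm

open Asm in
theorem assembly {n k : ℕ} [NeZero n] (hn : 2 ≤ n) (hk : n ≤ k)
    {E : Type} [MeasurableSpace E] [StandardBorelSpace E] (S : ES n E)
    (Dm : Set ((ℕ → Bool) × E)) (hDm : MeasurableSet Dm)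
    (hfree : ∀ x y, (x, y) ∈ Dm → S.FreeAt y ∧ ∀ i c, (x, S.act i c y) ∈ Dm)
    (cu : E → Fin (k + 1)) (hcu : Measurable cu)
    (hcup : ∀ x, S.ProperOn {y | (x, y) ∈ Dm} cu)
    (B : Set (ℕ → Bool))
    (hB : ∀ x, x ∈ B ↔ ∃ c : E → Fin k, Measurable c ∧ S.ProperOn {y | (x, y) ∈ Dm} c)
    {E' : Type} [MeasurableSpace E'] [StandardBorelSpace E'] (S' : ES n E')
    (D' : Set E') (hD' : MeasurableSet D') (hne : D'.Nonempty)
    (hfree' : ∀ y ∈ D', S'.FreeAt y ∧ ∀ i c, S'.act i c y ∈ D')
    (c' : E' → Fin k) (hc' : Measurable c') (hcp' : S'.ProperOn D' c')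
    (hno' : ∀ j < k, ¬ ∃ c : E' → Fin j, Measurable c ∧ S'.ProperOn D' c) :
    ∃ f : (ℕ → Bool) → (ℕ → ℕ), Measurable f ∧ ∀ x, ∃ G : SimpleGraph (ℕ → Bool),
      IsCode (f x) {p | G.Adj p.1 p.2} ∧ G.IsAcyclic ∧ (∀ v, (G.neighborSet v).ncard = n) ∧
      (x ∈ B → HasIndex G k) ∧ (x ∉ B → HasIndex G (k + 1)) := by
  classical
  have hk0 : 0 < k := by omega
  let SS : ES n (E ⊕ E') := sumES S S'
  let DD : Set ((ℕ → Bool) × (E ⊕ E')) := sumSet Dm D'
  have hDD : MeasurableSet DD := measurableSet_sumSet hDm hD'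
  have hinv : ∀ x, ∀ y ∈ {y | (x, y) ∈ DD}, ∀ i c, SS.act i c y ∈ {y | (x, y) ∈ DD} := by
    intro x y hy i c
    cases y with
    | inl y => exact (hfree x y hy).2 i c
    | inr y => exact (hfree' y hy).2 i c
  let T : (ℕ → Bool) → ES n ((E ⊕ E') × (G0 n × (ℕ → Bool))) := fam SS DD hDD hinv (P0 n)
  have hTfree : ∀ x y, (T x).FreeAt y := by
    intro x y
    refine tot_free SS _ _ _ (P0 n) ?_ (freeAt_P0 n) y
    intro z hz
    cases z with
    | inl y => exact freeAt_sum_inl S S' (hfree x y hz).1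
    | inr y => exact freeAt_sum_inr S S' (hfree' y hz).1
  -- colourings of the total systems
  have hcol1 : ∀ x j, EdgeCol (T x).graph j →
      (∃ c : E → Fin j, Measurable c ∧ S.ProperOn {y | (x, y) ∈ Dm} c) ∧
      (∃ c : E' → Fin j, Measurable c ∧ S'.ProperOn D' c) := by
    intro x j h
    obtain ⟨κ, hκ, hκp⟩ := (T x).exists_proper_of_edgeCol (hTfree x) h
    have hp := tot_proper_fst SS {y | (x, y) ∈ DD} (measurableSet_section hDD x) (hinv x) (P0 n)
      κ hκp (1, fun _ => false)
    constructor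
    · refine ⟨fun y => κ (Sum.inl y, (1, fun _ => false)), ?_, ?_⟩
      · exact hκ.comp (measurable_inl.prodMk measurable_const)
      · intro y hy i d hd
        exact hp (Sum.inl y) hy i d hd
    · refine ⟨fun y => κ (Sum.inr y, (1, fun _ => false)), ?_, ?_⟩
      · exact hκ.comp (measurable_inr.prodMk measurable_const)
      · intro y hy i d hd
        exact hp (Sum.inr y) hy i d hd
  have hcol2 : ∀ x j, n ≤ j → (∃ c : E → Fin j, Measurable c ∧ S.ProperOn {y | (x, y) ∈ Dm} c) →
      (∃ c : E' → Fin j, Measurable c ∧ S'.ProperOn D' c) → EdgeCol (T x).graph j := by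
    rintro x j hj ⟨c₁, hc₁, hp₁⟩ ⟨c₂, hc₂, hp₂⟩
    have hp3 : SS.ProperOn {y | (x, y) ∈ DD} (Sum.elim c₁ c₂) := by
      intro y hy i d hd
      cases y with
      | inl y => exact hp₁ y hy i d hd
      | inr y => exact hp₂ y hy i d hd
    have hp4 : (P0 n).ProperOn Set.univ (fun p => Fin.castLE hj (χ0 n p)) := by
      intro y hy i d hd h
      exact proper_χ0 n y hy i d hd (Fin.castLE_injective hj h)
    refine (T x).edgeCol_of_proper (hTfree x) (by omega) _ ?_
      (tot_proper SS {y | (x, y) ∈ DD} (measurableSet_section hDD x) (hinv x) (P0 n)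
      (Sum.elim c₁ c₂) (fun p => Fin.castLE hj (χ0 n p)) hp3 hp4)
    refine Measurable.ite (measurable_fst (measurableSet_section hDD x)) ?_ ?_
    · exact (hc₁.sumElim hc₂).comp measurable_fst
    · exact (measurable_of_countable (fun a : Fin n => Fin.castLE hj a)).comp
        ((measurable_χ0 n).comp measurable_snd)
  -- the vertex space is uncountable
  have hunc : ¬ Countable (Bool × ((E ⊕ E') × (G0 n × (ℕ → Bool)))) := by
    intro hcount
    obtain ⟨y, _⟩ := hne
    have hinj : Function.Injective (fun r : ℕ → Bool =>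
        ((false, (Sum.inr y, (1, r))) : Bool × ((E ⊕ E') × (G0 n × (ℕ → Bool))))) := by
      intro r r' h
      simpa using h
    have : Countable (ℕ → Bool) := hinj.countable
    obtain ⟨g, hg⟩ := exists_surjective_nat (ℕ → Bool)
    obtain ⟨m, hm⟩ := hg (fun m => !(g m m))
    have := congrFun hm m
    simp at this
  let φ : (ℕ → Bool) ≃ᵐ (Bool × ((E ⊕ E') × (G0 n × (ℕ → Bool)))) :=
    (PolishSpace.measurableEquivNatBoolOfNotCountable hunc).symm
  let G : (ℕ → Bool) → SimpleGraph (ℕ → Bool) := fun x => (T x).graph.comap φ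
  have hW : MeasurableSet {w : (ℕ → Bool) × ((ℕ → Bool) × (ℕ → Bool)) |
      (G w.1).Adj w.2.1 w.2.2} := by
    have h1 := measurableSet_fam_adj SS DD hDD hinv (P0 n)
    have h2 : Measurable fun w : (ℕ → Bool) × ((ℕ → Bool) × (ℕ → Bool)) =>
        (w.1, (φ w.2.1, φ w.2.2)) :=
      measurable_fst.prodMk ((φ.measurable.comp (measurable_fst.comp measurable_snd)).prodMk
        (φ.measurable.comp (measurable_snd.comp measurable_snd)))
    exact h2 h1
  obtain ⟨f, hf, hcode⟩ := hasCodes_of_measurableSet hW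
  refine ⟨f, hf, fun x => ⟨G x, hcode x, ?_, ?_, ?_, ?_⟩⟩
  · exact ((T x).isAcyclic (hTfree x)).of_comap φ.toEquiv.toEmbedding
  · intro v
    have := ncard_neighborSet_comap φ.toEquiv (T x).graph v
    rw [(T x).ncard_neighborSet (hTfree x)] at this
    exact this
  · intro hx
    rw [hasIndex_comap]
    refine ⟨hcol2 x k hk ((hB x).1 hx) ⟨c', hc', hcp'⟩, ?_⟩
    intro j hj h
    exact hno' j hj (hcol1 x j h).2
  · intro hx
    rw [hasIndex_comap]
    refine ⟨hcol2 x (k + 1) (by omega) ⟨cu, hcu, hcup x⟩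
      ⟨fun y => Fin.castLE (Nat.le_succ k) (c' y),
        (measurable_of_countable (fun a : Fin k => Fin.castLE (Nat.le_succ k) a)).comp hc', ?_⟩, ?_⟩
    · intro y hy i d hd h
      exact hcp' y hy i d hd (Fin.castLE_injective (Nat.le_succ k) h)
    · intro j hj h
      apply hx
      rw [hB]
      obtain ⟨c, hc, hp⟩ := (hcol1 x j h).1
      have hjk : j ≤ k := by omega
      refine ⟨fun y => Fin.castLE hjk (c y),
        (measurable_of_countable (fun a : Fin j => Fin.castLE hjk a)).comp hc, ?_⟩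
      intro y hy i d hd h
      exact hp y hy i d hd (Fin.castLE_injective hjk h)

end Pool.Agent.H81.BCI
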