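import Pool.Agent.H81.BCI.Defs

/-!
Canonical orientation of the edges of the components with cycles of an edge system: every vertex of
such a component has an outgoing edge, and the orientation of an edge never points into a side free
of cycles.
-/

namespace Pool.Agent.H81.BCI
namespace ES
open MeasureTheory

variable {n : ℕ} [NeZero n] {E : Type*} [MeasurableSpace E] (S : ES n E)

/-- type of the letter with index `m` in a walk that starts with type `i` -/
def typ (i : Bool) (m : ℕ) : Bool := if Even m then i else !i

@[simp] theorem typ_zero (i : Bool) : typ i 0 = i := by simp [typ]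

theorem typ_succ (i : Bool) (m : ℕ) : typ i (m + 1) = typ (!i) m := by
  by_cases h : Even m
  · have : ¬ Even (m + 1) := by rw [Nat.even_add_one]; exact not_not.mpr h
    simp [typ, h, this]
  · have : Even (m + 1) := by rw [Nat.even_add_one]; exact h
    simp [typ, h, this]

theorem typ_even {i : Bool} {m : ℕ} (h : Even m) : typ i m = i := by simp [typ, h]

theorem typ_odd {i : Bool} {m : ℕ} (h : ¬ Even m) : typ i m = !i := by simp [typ, h]

theorem typ_not (i : Bool) (m : ℕ) : typ (!i) m = !(typ i m) := by
  by_cases h : Even m <;> simp [typ, h]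

theorem walk_append (i : Bool) (l l' : List (Fin n)) (y : E) :
    S.walk i (l ++ l') y = S.walk (typ i l.length) l' (S.walk i l y) := by
  induction l generalizing i y with
  | nil => simp [walk]
  | cons c l ih =>
    simp only [List.cons_append, walk, List.length_cons]
    rw [ih, typ_succ]

theorem act_neg_act (i : Bool) (c : Fin n) (y : E) : S.act i (-c) (S.act i c y) = y := by
  rw [S.act_add, add_neg_cancel, S.act_zero]

theorem act_act_neg (i : Bool) (c : Fin n) (y : E) : S.act i c (S.act i (-c) y) = y := by
  rw [S.act_add, neg_add_cancel, S.act_zero]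

theorem act_ne {i : Bool} {c : Fin n} (hc : c ≠ 0) (y : E) : S.act i c y ≠ y := by
  intro h
  have := S.pos_act i c y
  rw [h] at this
  apply hc
  have h2 : S.pos i y + 0 = S.pos i y + c := by rw [add_zero]; exact this
  exact (add_left_cancel h2).symm

theorem walk_rev (i : Bool) (l : List (Fin n)) (y : E) :
    S.walk (!(typ i l.length)) (l.reverse.map (fun c => -c)) (S.walk i l y) = y := by
  induction l generalizing i y with
  | nil => simp [walk]
  | cons c l ih =>
    simp only [List.reverse_cons, List.map_append, List.map_cons, List.map_nil, walk,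
      List.length_cons]
    rw [walk_append, typ_succ, ih]
    simp only [List.length_map, List.length_reverse]
    have : typ (!(typ (!i) l.length)) l.length = i := by
      by_cases h : Even l.length <;> simp [typ, h]
    rw [this]
    exact S.act_neg_act i c y

/-! ### Orbits -/

/-- arbitrary walks -/
def run (l : List (Bool × Fin n)) (y : E) : E := l.foldl (fun y p => S.act p.1 p.2 y) y

theorem run_append (l l' : List (Bool × Fin n)) (y : E) :
    S.run (l ++ l') y = S.run l' (S.run l y) := by
  simp [run, List.foldl_append]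

theorem run_rev (l : List (Bool × Fin n)) (y : E) :
    S.run (l.reverse.map (fun p => (p.1, -p.2))) (S.run l y) = y := by
  induction l generalizing y with
  | nil => rfl
  | cons p l ih =>
    simp only [List.reverse_cons, List.map_append, List.map_cons, List.map_nil]
    rw [run_append]
    have : S.run (p :: l) y = S.run l (S.act p.1 p.2 y) := rfl
    rw [this, ih]
    exact S.act_neg_act _ _ _

def Orb (y y' : E) : Prop := ∃ l, S.run l y = y'

theorem Orb.refl (y : E) : S.Orb y y := ⟨[], rfl⟩

theorem Orb.trans {y y' y'' : E} (h : S.Orb y y') (h' : S.Orb y' y'') : S.Orb y y'' := by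
  obtain ⟨l, rfl⟩ := h
  obtain ⟨l', rfl⟩ := h'
  exact ⟨l ++ l', S.run_append l l' y⟩

theorem Orb.symm {y y' : E} (h : S.Orb y y') : S.Orb y' y := by
  obtain ⟨l, rfl⟩ := h
  exact ⟨_, S.run_rev l y⟩

theorem orb_act (i : Bool) (c : Fin n) (y : E) : S.Orb y (S.act i c y) := ⟨[(i, c)], rfl⟩

theorem orb_walk (i : Bool) (l : List (Fin n)) (y : E) : S.Orb y (S.walk i l y) := by
  induction l generalizing i y with
  | nil => exact Orb.refl S y
  | cons c l ih => exact Orb.trans S (S.orb_act i c y) (ih _ _)

/-- every point of the orbit is reached by a reduced walk -/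
theorem exists_walk {y y' : E} (h : S.Orb y y') :
    ∃ i l, (∀ c ∈ l, c ≠ (0 : Fin n)) ∧ S.walk i l y = y' := by
  obtain ⟨r, rfl⟩ := h
  induction r generalizing y with
  | nil => exact ⟨false, [], by simp, rfl⟩
  | cons p r ih =>
    obtain ⟨i, l, hl, h⟩ := ih (y := S.act p.1 p.2 y)
    have e : S.run (p :: r) y = S.run r (S.act p.1 p.2 y) := rfl
    rw [e, ← h]
    obtain ⟨j, c⟩ := p
    simp only
    by_cases hc : c = 0
    · subst hc
      exact ⟨i, l, hl, by rw [S.act_zero]⟩
    · cases l with
      | nil => exact ⟨j, [c], by simpa using hc, rfl⟩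
      | cons d l =>
        by_cases hij : i = j
        · subst hij
          simp only [walk]
          rw [S.act_add]
          by_cases hcd : c + d = 0
          · refine ⟨!i, l, fun c hc => hl c (List.mem_cons_of_mem _ hc), ?_⟩
            rw [hcd, S.act_zero]
          · refine ⟨i, (c + d) :: l, ?_, rfl⟩
            intro x hx
            rcases List.mem_cons.mp hx with rfl | hx
            · exact hcd
            · exact hl x (List.mem_cons_of_mem _ hx)
        · have : i = !j := by cases i <;> cases j <;> simp_all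
          subst this
          refine ⟨j, c :: d :: l, ?_, rfl⟩
          intro x hx
          rcases List.mem_cons.mp hx with rfl | hx
          · exact hc
          · exact hl x hx

/-! ### Cycles and tags -/

/-- tags: distinct for distinct edges at the same vertex -/
def tg (y : E) : Fin n × Fin n := (S.pos false y, S.pos true y)

theorem tg_act_ne {i : Bool} {c : Fin n} (hc : c ≠ 0) (y : E) : S.tg (S.act i c y) ≠ S.tg y := by
  intro h
  have h1 : S.pos i (S.act i c y) = S.pos i y := by
    cases i
    · exact congrArg Prod.fst h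
    · exact congrArg Prod.snd h
  rw [S.pos_act] at h1
  apply hc
  have h2 : S.pos i y + c = S.pos i y + 0 := by rw [add_zero]; exact h1
  exact add_left_cancel h2

/-- the points visited by a walk (without the last one) -/
def trace : Bool → List (Fin n) → E → List E
  | _, [], _ => []
  | i, c :: l, y => y :: trace (!i) l (S.act i c y)

@[simp] theorem length_trace (i : Bool) (l : List (Fin n)) (y : E) :
    (S.trace i l y).length = l.length := by
  induction l generalizing i y with
  | nil => rfl
  | cons c l ih => simp [trace, ih]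

theorem trace_getElem? (i : Bool) (l : List (Fin n)) (y : E) (j : ℕ) (hj : j < l.length) :
    (S.trace i l y)[j]? = some (S.walk i (l.take j) y) := by
  induction l generalizing i y j with
  | nil => simp at hj
  | cons c l ih =>
    cases j with
    | zero => simp [trace, walk]
    | succ j =>
      simp only [trace, List.getElem?_cons_succ, List.take_succ_cons, walk]
      exact ih _ _ _ (by simpa using hj)

/-- a marked cycle: closed reduced walk of even positive length starting with type `false` -/
def IsCyc (l : List (Fin n)) (y : E) : Prop :=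
  l ≠ [] ∧ (∀ c ∈ l, c ≠ 0) ∧ Even l.length ∧ S.walk false l y = y

def HasW (w : List (Fin n × Fin n)) (y : E) : Prop :=
  ∃ l, S.IsCyc l y ∧ (S.trace false l y).map S.tg = w

def OrbW (w : List (Fin n × Fin n)) (y : E) : Prop := ∃ y', S.Orb y y' ∧ S.HasW w y'

theorem OrbW.of_orb {w : List (Fin n × Fin n)} {y y' : E} (h : S.Orb y y') (hw : S.OrbW w y') :
    S.OrbW w y := by
  obtain ⟨y'', h', hw'⟩ := hw
  exact ⟨y'', Orb.trans S h h', hw'⟩

/-- the component of `y` contains a cycle -/
def NF (y : E) : Prop := ∃ w, S.OrbW w y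

theorem NF.of_orb {y y' : E} (h : S.Orb y y') (hn : S.NF y') : S.NF y := by
  obtain ⟨w, hw⟩ := hn
  exact ⟨w, OrbW.of_orb S h hw⟩

def IsMin (w : List (Fin n × Fin n)) (y : E) : Prop :=
  S.OrbW w y ∧ ∀ w', S.OrbW w' y → Encodable.encode w ≤ Encodable.encode w'

theorem IsMin.of_orb {w : List (Fin n × Fin n)} {y y' : E} (h : S.Orb y y')
    (hw : S.IsMin w y') : S.IsMin w y :=
  ⟨OrbW.of_orb S h hw.1, fun w' h' => hw.2 w' (OrbW.of_orb S (Orb.symm S h) h')⟩

theorem NF.exists_isMin {y : E} (h : S.NF y) : ∃ w, S.IsMin w y := by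
  classical
  have hex : ∃ m, ∃ w, S.OrbW w y ∧ Encodable.encode w = m := by
    obtain ⟨w, hw⟩ := h
    exact ⟨_, w, hw, rfl⟩
  obtain ⟨w, hw, hm⟩ := Nat.find_spec hex
  refine ⟨w, hw, fun w' hw' => ?_⟩
  rw [hm]
  exact Nat.find_min' hex ⟨w', hw', rfl⟩

theorem IsMin.unique {w w' : List (Fin n × Fin n)} {y : E} (h : S.IsMin w y)
    (h' : S.IsMin w' y) : w = w' :=
  Encodable.encode_injective (le_antisymm (h.2 _ h'.1) (h'.2 _ h.1))

/-- `y` is at phase `j` of a marked cycle -/
def Ph (y : E) (j : ℕ) : Prop :=
  ∃ w, S.IsMin w y ∧ ∃ y0 l, S.IsCyc l y0 ∧ (S.trace false l y0).map S.tg = w ∧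
    j < l.length ∧ S.walk false (l.take j) y0 = y

def TS (y : E) : Prop := ∃ j, S.Ph y j

theorem NF.exists_TS {y : E} (h : S.NF y) : ∃ y', S.Orb y y' ∧ S.Ph y' 0 := by
  obtain ⟨w, hw⟩ := NF.exists_isMin S h
  obtain ⟨y', ho, l, hl, ht⟩ := hw.1
  refine ⟨y', ho, w, IsMin.of_orb S (Orb.symm S ho) hw, y', l, hl, ht, ?_, by simp [walk]⟩
  exact List.length_pos_of_ne_nil hl.1

/-- the next point on a marked cycle -/
theorem Ph.next {y : E} {j : ℕ} (h : S.Ph y j) :
    ∃ d, d ≠ 0 ∧ (S.Ph (S.act (typ false j) d y) (j + 1) ∨
      (¬ Even j ∧ S.Ph (S.act (typ false j) d y) 0)) := by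
  obtain ⟨w, hw, y0, l, hl, ht, hj, hy⟩ := h
  have hd : l.take (j + 1) = l.take j ++ [l[j]] := by
    rw [List.take_succ_eq_append_getElem hj]
  refine ⟨l[j], hl.2.1 _ (List.getElem_mem _), ?_⟩
  have hwalk : S.walk false (l.take (j + 1)) y0 = S.act (typ false j) l[j] y := by
    rw [hd, walk_append, hy]
    simp [walk, Nat.min_eq_left (le_of_lt hj)]
  have horb : S.Orb (S.act (typ false j) l[j] y) y := Orb.symm S (S.orb_act _ _ _)
  rcases Nat.lt_or_ge (j + 1) l.length with hlt | hge
  · left
    exact ⟨w, IsMin.of_orb S horb hw, y0, l, hl, ht, hlt, hwalk⟩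
  · right
    have he : j + 1 = l.length := by omega
    refine ⟨?_, w, IsMin.of_orb S horb hw, y0, l, hl, ht, List.length_pos_of_ne_nil hl.1, ?_⟩
    · have := hl.2.2.1
      rw [← he, Nat.even_add_one] at this
      exact this
    · rw [← hwalk, he, List.take_length, hl.2.2.2]
      simp [walk]

theorem Ph.lt_length {w : List (Fin n × Fin n)} {y : E} {j : ℕ} (h : S.Ph y j)
    (hw : S.IsMin w y) : j < w.length := by
  obtain ⟨w', hw', y0, l, hl, ht, hj, hy⟩ := h
  rw [IsMin.unique S hw hw', ← ht]
  simpa using hj

theorem Ph.tg_eq {w : List (Fin n × Fin n)} {y : E} {j : ℕ} (h : S.Ph y j)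
    (hw : S.IsMin w y) : w[j]? = some (S.tg y) := by
  obtain ⟨w', hw', y0, l, hl, ht, hj, hy⟩ := h
  rw [IsMin.unique S hw hw', ← ht, List.getElem?_map, S.trace_getElem? _ _ _ _ hj, hy]
  rfl

/-- next point, when it is known that the cycle is not finished -/
theorem Ph.next' {w : List (Fin n × Fin n)} {y : E} {j : ℕ} (h : S.Ph y j)
    (hw : S.IsMin w y) (hj : j + 1 < w.length) :
    ∃ d, d ≠ 0 ∧ S.Ph (S.act (typ false j) d y) (j + 1) := by
  obtain ⟨w', hw', y0, l, hl, ht, hj', hy⟩ := h
  have hlen : w.length = l.length := by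
    rw [IsMin.unique S hw hw', ← ht]; simp
  have hd : l.take (j + 1) = l.take j ++ [l[j]] := by
    rw [List.take_succ_eq_append_getElem hj']
  refine ⟨l[j], hl.2.1 _ (List.getElem_mem _), ?_⟩
  have hwalk : S.walk false (l.take (j + 1)) y0 = S.act (typ false j) l[j] y := by
    rw [hd, walk_append, hy]
    simp [walk, Nat.min_eq_left (le_of_lt hj')]
  have horb : S.Orb (S.act (typ false j) l[j] y) y := Orb.symm S (S.orb_act _ _ _)
  exact ⟨w', IsMin.of_orb S horb hw', y0, l, hl, ht, by omega, hwalk⟩

/-- distance to the marked cycles by reduced walks starting with type `i` -/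
def Ad : Bool → ℕ → E → Prop
  | _, 0, y => S.TS y
  | i, m + 1, y => ∃ c, c ≠ 0 ∧ Ad (!i) m (S.act i c y)

theorem ad_of_walk (i : Bool) (l : List (Fin n)) (hl : ∀ c ∈ l, c ≠ 0) (y : E)
    (h : S.TS (S.walk i l y)) : S.Ad i l.length y := by
  induction l generalizing i y with
  | nil => exact h
  | cons c l ih =>
    exact ⟨c, hl c (List.mem_cons_self ..), ih _ (fun d hd => hl d (List.mem_cons_of_mem _ hd)) _ h⟩

theorem walk_of_ad (i : Bool) (m : ℕ) (y : E) (h : S.Ad i m y) :
    ∃ l : List (Fin n), (∀ c ∈ l, c ≠ 0) ∧ S.TS (S.walk i l y) := by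
  induction m generalizing i y with
  | zero => exact ⟨[], by simp, h⟩
  | succ m ih =>
    obtain ⟨c, hc, h⟩ := h
    obtain ⟨l, hl, h⟩ := ih _ _ h
    refine ⟨c :: l, ?_, h⟩
    intro x hx
    rcases List.mem_cons.mp hx with rfl | hx
    · exact hc
    · exact hl x hx

open Classical in
/-- the orientation: the type of the vertex towards which the edge `y` points -/
noncomputable def dir (y : E) : Bool :=
  if h : ∃ j, S.Ph y j then decide (Odd (Nat.find h))
  else if ∃ m, S.Ad false m y ∧ ∀ m' ≤ m, ¬ S.Ad true m' y then false else true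

theorem NF.exists_ad {y : E} (h : S.NF y) : ∃ i m, S.Ad i m y := by
  obtain ⟨y', ho, hp⟩ := NF.exists_TS S h
  obtain ⟨i, l, hl, hw⟩ := S.exists_walk ho
  exact ⟨i, l.length, S.ad_of_walk i l hl y ⟨0, by rw [hw]; exact hp⟩⟩

theorem exists_dir_aux1 {y : E} (i : Bool) (hex : ∃ c, S.TS (S.act i c y)) :
    ∃ c, S.dir (S.act i c y) = !i := by
  classical
  -- leaving phases
  let LV : ℕ → Prop := fun j => (Odd j ↔ i = false)
  have hLV : ∃ j, LV j ∧ ∃ c, S.Ph (S.act i c y) j := by
    obtain ⟨c, j, hj⟩ := hex
    by_cases h : LV j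
    · exact ⟨j, h, c, hj⟩
    · obtain ⟨d, hd, hnext⟩ := Ph.next S hj
      have ht : typ false j = i := by
        simp only [LV] at h
        cases i
        · have : ¬ Odd j := by simpa using h
          exact typ_even (Nat.not_odd_iff_even.mp this)
        · have : Odd j := by simpa using h
          rw [typ_odd (Nat.not_even_iff_odd.mpr this)]; rfl
      rw [ht, S.act_add] at hnext
      rcases hnext with h1 | ⟨h1, h2⟩
      · refine ⟨j + 1, ?_, c + d, h1⟩
        simp only [LV] at h ⊢
        rw [Nat.odd_add_one]
        cases i <;> simp_all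
      · refine ⟨0, ?_, c + d, h2⟩
        simp only [LV] at h ⊢
        have : Odd j := Nat.not_even_iff_odd.mp h1
        cases i <;> simp_all
  obtain ⟨hLV0, c, hc⟩ := Nat.find_spec hLV
  set j0 := Nat.find hLV with hj0
  have hmin : ∀ j, LV j → (∃ c, S.Ph (S.act i c y) j) → j0 ≤ j := fun j h1 h2 =>
    Nat.find_min' hLV ⟨h1, h2⟩
  obtain ⟨w, hw⟩ : ∃ w, S.IsMin w (S.act i c y) := by
    obtain ⟨w, hw, _⟩ := hc
    exact ⟨w, hw⟩
  have hlen : j0 < w.length := Ph.lt_length S hc hw
  -- analysis of a point with phase j0
  have key : ∀ c, S.Ph (S.act i c y) j0 → S.dir (S.act i c y) = (!i) ∨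
      ∃ j', j' + 1 = j0 ∧ ∃ d, d ≠ 0 ∧ S.Ph (S.act i c y) j' ∧
        S.Ph (S.act i (c + d) y) j0 := by
    intro c hc
    have hex : ∃ j, S.Ph (S.act i c y) j := ⟨j0, hc⟩
    have hdir : S.dir (S.act i c y) = decide (Odd (Nat.find hex)) := by
      simp only [dir, dif_pos hex]
    set j' := Nat.find hex with hj'
    have hj'p : S.Ph (S.act i c y) j' := Nat.find_spec hex
    have hj'le : j' ≤ j0 := Nat.find_min' hex hc
    by_cases hl : LV j'
    · left
      rw [hdir]
      simp only [LV] at hl
      cases i <;> simp_all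
    · right
      have hw' : S.IsMin w (S.act i c y) := by
        refine IsMin.of_orb S ?_ hw
        exact Orb.trans S (Orb.symm S (S.orb_act i c y)) (S.orb_act i _ y)
      have hne : j' ≠ j0 := fun h => hl (h ▸ hLV0)
      have hlt : j' + 1 < w.length := by omega
      obtain ⟨d, hd, hnext⟩ := Ph.next' S hj'p hw' hlt
      have ht : typ false j' = i := by
        simp only [LV] at hl
        cases i
        · have : ¬ Odd j' := by simpa using hl
          exact typ_even (Nat.not_odd_iff_even.mp this)
        · have : Odd j' := by simpa using hl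
          rw [typ_odd (Nat.not_even_iff_odd.mpr this)]; rfl
      rw [ht, S.act_add] at hnext
      have hLV' : LV (j' + 1) := by
        simp only [LV] at hl ⊢
        rw [Nat.odd_add_one]
        cases i <;> simp_all
      have := hmin _ hLV' ⟨_, hnext⟩
      have hj : j' + 1 = j0 := by omega
      exact ⟨j', hj, d, hd, hj'p, by rw [← hj]; exact hnext⟩
  rcases key c hc with h | ⟨j', hj', d, hd, hp, hp0⟩
  · exact ⟨c, h⟩
  · rcases key (c + d) hp0 with h | ⟨j'', hj'', d', hd', hp', _⟩
    · exact ⟨c + d, h⟩
    · exfalso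
      have : j'' = j' := by omega
      subst this
      have e1 := Ph.tg_eq S hp hw
      have hw' : S.IsMin w (S.act i (c + d) y) := by
        refine IsMin.of_orb S ?_ hw
        exact Orb.trans S (Orb.symm S (S.orb_act i (c + d) y)) (S.orb_act i _ y)
      have e2 := Ph.tg_eq S hp' hw'
      rw [e1] at e2
      have e3 : S.tg (S.act i c y) = S.tg (S.act i (c + d) y) := Option.some.inj e2
      rw [← S.act_add i d c y] at e3
      exact S.tg_act_ne hd _ e3.symm

theorem exists_dir_aux2 {y : E} (h : S.NF y) (i : Bool) (hno : ¬ ∃ c, S.TS (S.act i c y)) :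
    ∃ c, S.dir (S.act i c y) = !i := by
  classical
  have hex : ∃ m, ∃ c, S.Ad (!i) m (S.act i c y) := by
    obtain ⟨j, m, hm⟩ := NF.exists_ad S h
    by_cases hj : j = i
    · subst hj
      cases m with
      | zero =>
        exact absurd ⟨0, by rw [S.act_zero]; exact hm⟩ hno
      | succ m =>
        obtain ⟨c, _, hc⟩ := hm
        exact ⟨m, c, hc⟩
    · have : j = !i := by cases i <;> cases j <;> simp_all
      subst this
      exact ⟨m, 0, by rw [S.act_zero]; exact hm⟩
  obtain ⟨c, hc⟩ := Nat.find_spec hex
  set m := Nat.find hex with hm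
  have hmin : ∀ m' c, S.Ad (!i) m' (S.act i c y) → m ≤ m' := fun m' c h =>
    Nat.find_min' hex ⟨c, h⟩
  refine ⟨c, ?_⟩
  have hnp : ¬ ∃ j, S.Ph (S.act i c y) j := fun hp => hno ⟨c, hp⟩
  -- distances on the other side are larger
  have hfar : ∀ m', S.Ad i m' (S.act i c y) → m < m' := by
    intro m' hm'
    cases m' with
    | zero => exact absurd ⟨c, hm'⟩ hno
    | succ m' =>
      obtain ⟨d, _, hd⟩ := hm'
      rw [S.act_add] at hd
      have := hmin _ _ hd
      omega
  cases i
  · simp only [dir, dif_neg hnp, Bool.not_false]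
    rw [if_neg]
    rintro ⟨m1, h1, h2⟩
    have h3 := hfar _ h1
    exact h2 m (le_of_lt h3) hc
  · simp only [dir, dif_neg hnp, Bool.not_true]
    rw [if_pos]
    refine ⟨m, hc, fun m' hm' h' => ?_⟩
    have := hfar _ h'
    omega

/-- every vertex of a component with a cycle has an outgoing edge -/
theorem exists_dir {y : E} (h : S.NF y) (i : Bool) : ∃ c, S.dir (S.act i c y) = !i := by
  by_cases hex : ∃ c, S.TS (S.act i c y)
  · exact S.exists_dir_aux1 i hex
  · exact S.exists_dir_aux2 h i hex

/-- closed reduced walks in both directions at a point of a marked cycle -/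
theorem TS.closed {y : E} (h : S.TS y) (t : Bool) :
    ∃ l : List (Fin n), l ≠ [] ∧ (∀ c ∈ l, c ≠ 0) ∧ S.walk t l y = y := by
  obtain ⟨j, w, hw, y0, l, hl, ht, hj, hy⟩ := h
  have hlen : (l.take j).length = j := by simp [Nat.min_eq_left (le_of_lt hj)]
  have hfwd : S.walk (typ false j) (l.drop j ++ l.take j) y = y := by
    have h1 : S.walk (typ false j) (l.drop j) y = y0 := by
      have := S.walk_append false (l.take j) (l.drop j) y0
      rw [List.take_append_drop, hl.2.2.2, hlen, hy] at this
      exact this.symm
    rw [walk_append, h1]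
    have h2 : typ (typ false j) (l.drop j).length = false := by
      have he := hl.2.2.1
      rw [List.length_drop]
      by_cases hj2 : Even j
      · have : Even (l.length - j) := (Nat.even_sub (le_of_lt hj)).mpr (by simp [he, hj2])
        simp [typ, hj2, this]
      · have : ¬ Even (l.length - j) := by
          rw [Nat.even_sub (le_of_lt hj)]; simp [he, hj2]
        simp [typ, hj2, this]
    rw [h2, hy]
  have hlen2 : (l.drop j ++ l.take j).length = l.length := by
    simp only [List.length_append, List.length_drop, hlen]; omega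
  have hne : l.drop j ++ l.take j ≠ [] := by
    intro h0
    rw [h0] at hlen2
    exact hl.1 (List.length_eq_zero_iff.mp hlen2.symm)
  have hnz : ∀ c ∈ l.drop j ++ l.take j, c ≠ 0 := by
    intro c hc
    rcases List.mem_append.mp hc with hc | hc
    · exact hl.2.1 c (List.mem_of_mem_drop hc)
    · exact hl.2.1 c (List.mem_of_mem_take hc)
  by_cases ht' : t = typ false j
  · subst ht'
    exact ⟨_, hne, hnz, hfwd⟩
  · have ht2 : t = !(typ false j) := by
      revert ht'; cases t <;> cases typ false j <;> simp
    have hr := S.walk_rev (typ false j) (l.drop j ++ l.take j) y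
    rw [hlen2, hfwd, typ_even hl.2.2.1, ← ht2] at hr
    refine ⟨_, ?_, ?_, hr⟩
    · intro h0
      rw [List.map_eq_nil_iff, List.reverse_eq_nil_iff] at h0
      exact hne h0
    · intro c hc
      rw [List.mem_map] at hc
      obtain ⟨c', hc', rfl⟩ := hc
      exact neg_ne_zero.mpr (hnz c' (List.mem_reverse.mp hc'))

/-- an edge one side of which contains no marked cycle points away from that side -/
theorem dir_of_side {y : E} (h : S.NF y) (s : Bool)
    (hs : ∀ l : List (Fin n), (∀ c ∈ l, c ≠ 0) → ¬ S.TS (S.walk s l y)) : S.dir y = !s := by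
  classical
  have hnp : ¬ ∃ j, S.Ph y j := fun hp => hs [] (by simp) hp
  have hsn : ∀ m, ¬ S.Ad s m y := by
    intro m hm
    obtain ⟨l, hl, ht⟩ := S.walk_of_ad s m y hm
    exact hs l hl ht
  obtain ⟨i, m, hm⟩ := NF.exists_ad S h
  have hi : i = !s := by
    rcases Bool.eq_or_eq_not i s with h1 | h1
    · subst h1; exact absurd hm (hsn m)
    · exact h1
  subst hi
  cases s
  · simp only [dir, dif_neg hnp, Bool.not_false]
    rw [if_neg]
    rintro ⟨m1, h1, _⟩
    exact hsn m1 h1
  · simp only [dir, dif_neg hnp, Bool.not_true]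
    rw [if_pos]
    exact ⟨m, hm, fun m' _ h' => hsn m' h'⟩

/-- a potential increasing along the reduced walks into a side excludes marked cycles there -/
theorem dir_of_potential {y : E} (h : S.NF y) (s : Bool) (τ : E → ℕ)
    (hτ : ∀ l : List (Fin n), (∀ c ∈ l, c ≠ 0) → τ (S.walk s l y) = l.length) :
    S.dir y = !s := by
  apply S.dir_of_side h s
  intro l hl hts
  obtain ⟨l', hne, hnz, hcl⟩ := TS.closed S hts (typ s l.length)
  have h1 := hτ (l ++ l') (by
    intro c hc
    rcases List.mem_append.mp hc with hc | hc
    · exact hl c hc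
    · exact hnz c hc)
  rw [walk_append, hcl, hτ l hl, List.length_append] at h1
  apply hne
  exact List.length_eq_zero_iff.mp (by omega)

/-! ### Free points -/

theorem NF.of_closed (m : ℕ) : ∀ (y : E) (i : Bool) (l : List (Fin n)), l.length = m → l ≠ [] →
    (∀ c ∈ l, c ≠ 0) → S.walk i l y = y → S.NF y := by
  induction m using Nat.strong_induction_on with
  | _ m ih =>
    intro y i l hlm hne hnz hcl
    by_cases he : Even l.length
    · cases i
      · exact ⟨_, y, Orb.refl S y, l, ⟨hne, hnz, he, hcl⟩, rfl⟩
      · cases l with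
        | nil => exact absurd rfl hne
        | cons c l =>
          have hl2 : ¬ Even l.length := by
            rw [List.length_cons, Nat.even_add_one] at he; exact he
          have h1 : S.walk false l (S.act true c y) = y := hcl
          have h2 : S.walk false (l ++ [c]) (S.act true c y) = S.act true c y := by
            rw [walk_append, h1, typ_odd hl2]; rfl
          apply NF.of_orb S (S.orb_act true c y)
          refine ⟨_, _, Orb.refl S _, l ++ [c], ⟨by simp, ?_, ?_, h2⟩, rfl⟩
          · intro x hx
            rcases List.mem_append.mp hx with hx | hx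
            · exact hnz x (List.mem_cons_of_mem _ hx)
            · rw [List.mem_singleton.mp hx]; exact hnz c (List.mem_cons_self ..)
          · rw [List.length_append, List.length_singleton, Nat.even_add_one]; exact hl2
    · -- odd length
      cases l with
      | nil => exact absurd rfl hne
      | cons c l =>
        have hc0 : c ≠ 0 := hnz c (List.mem_cons_self ..)
        have hl2 : Even l.length := by
          by_contra h
          apply he
          rw [List.length_cons, Nat.even_add_one]; exact h
        rcases List.eq_nil_or_concat l with rfl | ⟨mid, d, hld⟩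
        · exact absurd hcl (S.act_ne hc0 y)
        · rw [List.concat_eq_append] at hld
          subst hld
          have hd0 : d ≠ 0 := hnz d (by simp)
          have hmid : ¬ Even mid.length := by
            rw [List.length_append, List.length_singleton, Nat.even_add_one] at hl2; exact hl2
          have hty : typ (!i) mid.length = i := by rw [typ_odd hmid]; simp
          have h1 : S.act i d (S.walk (!i) mid (S.act i c y)) = y := by
            have := hcl
            simp only [walk] at this
            rw [walk_append, hty] at this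
            exact this
          have h2 : S.act i (d + c) (S.walk (!i) mid (S.act i c y)) = S.act i c y := by
            rw [← S.act_add, h1]
          have hmne : mid ≠ [] := by
            rintro rfl; simp at hmid
          apply NF.of_orb S (S.orb_act i c y)
          by_cases hdc : d + c = 0
          · rw [hdc, S.act_zero] at h2
            refine ih mid.length ?_ _ (!i) mid rfl hmne ?_ h2
            · rw [← hlm]; simp
            · intro x hx; exact hnz x (by simp [hx])
          · refine ih (mid.length + 1) ?_ _ (!i) (mid ++ [d + c]) (by simp) (by simp) ?_ ?_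
            · rw [← hlm]; simp
            · intro x hx
              rcases List.mem_append.mp hx with hx | hx
              · exact hnz x (by simp [hx])
              · rw [List.mem_singleton.mp hx]; exact hdc
            · rw [walk_append, hty]
              exact h2

theorem freeAt_of_not_NF {y : E} (h : ¬ S.NF y) : S.FreeAt y :=
  fun i l hne hnz hcl => h (NF.of_closed S _ y i l rfl hne hnz hcl)

/-! ### Measurability -/

section Meas
set_option linter.unusedSectionVars false
variable [MeasurableEq E]

theorem measurable_walk (i : Bool) (l : List (Fin n)) : Measurable (S.walk i l) := by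
  induction l generalizing i with
  | nil => exact measurable_id
  | cons c l ih => exact (ih _).comp (S.meas_act i c)

theorem measurable_run (l : List (Bool × Fin n)) : Measurable (S.run l) := by
  induction l with
  | nil => exact measurable_id
  | cons p l ih =>
    have : S.run (p :: l) = S.run l ∘ S.act p.1 p.2 := rfl
    rw [this]
    exact ih.comp (S.meas_act _ _)

theorem measurable_tg : Measurable S.tg := (S.meas_pos false).prodMk (S.meas_pos true)

theorem measurableSet_trace (i : Bool) (l : List (Fin n)) (w : List (Fin n × Fin n)) :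
    MeasurableSet {y | (S.trace i l y).map S.tg = w} := by
  induction l generalizing i w with
  | nil => simp only [trace, List.map_nil]; exact MeasurableSet.const _
  | cons c l ih =>
    cases w with
    | nil => simp only [trace, List.map_cons, reduceCtorEq]; exact MeasurableSet.const _
    | cons a w =>
      have : {y | (S.trace i (c :: l) y).map S.tg = a :: w} =
          (S.tg ⁻¹' {a}) ∩ (S.act i c ⁻¹' {y | (S.trace (!i) l y).map S.tg = w}) := by
        ext y; simp [trace]
      rw [this]
      exact (S.measurable_tg (measurableSet_singleton a)).inter (S.meas_act i c (ih _ _))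

theorem measurableSet_isCyc (l : List (Fin n)) : MeasurableSet {y | S.IsCyc l y} := by
  have : {y | S.IsCyc l y} = {y | (l ≠ [] ∧ (∀ c ∈ l, c ≠ 0) ∧ Even l.length)} ∩
      {y | S.walk false l y = y} := by
    ext y; simp only [IsCyc, Set.mem_ofPred_eq, Set.mem_inter_iff]; tauto
  rw [this]
  exact (MeasurableSet.const _).inter
    (measurableSet_eq_fun (S.measurable_walk _ _) measurable_id)

theorem measurableSet_hasW (w : List (Fin n × Fin n)) : MeasurableSet {y | S.HasW w y} := by
  have : {y | S.HasW w y} = ⋃ l : List (Fin n), {y | S.IsCyc l y} ∩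
      {y | (S.trace false l y).map S.tg = w} := by
    ext y; simp [HasW]
  rw [this]
  exact MeasurableSet.iUnion fun l => (S.measurableSet_isCyc l).inter (S.measurableSet_trace _ _ _)

theorem measurableSet_orbW (w : List (Fin n × Fin n)) : MeasurableSet {y | S.OrbW w y} := by
  have : {y | S.OrbW w y} = ⋃ r : List (Bool × Fin n), S.run r ⁻¹' {y | S.HasW w y} := by
    ext y
    simp only [OrbW, Orb, Set.mem_ofPred_eq, Set.mem_iUnion, Set.mem_preimage]
    constructor
    · rintro ⟨y', ⟨r, rfl⟩, h⟩; exact ⟨r, h⟩
    · rintro ⟨r, h⟩; exact ⟨_, ⟨r, rfl⟩, h⟩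
  rw [this]
  exact MeasurableSet.iUnion fun r => S.measurable_run r (S.measurableSet_hasW w)

theorem measurableSet_NF : MeasurableSet {y | S.NF y} := by
  have : {y | S.NF y} = ⋃ w : List (Fin n × Fin n), {y | S.OrbW w y} := by
    ext y; simp [NF]
  rw [this]
  exact MeasurableSet.iUnion fun w => S.measurableSet_orbW w

theorem measurableSet_isMin (w : List (Fin n × Fin n)) : MeasurableSet {y | S.IsMin w y} := by
  have : {y | S.IsMin w y} = {y | S.OrbW w y} ∩ ⋂ w' : List (Fin n × Fin n),
      ({y | S.OrbW w' y}ᶜ ∪ {y | Encodable.encode w ≤ Encodable.encode w'}) := by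
    ext y
    simp only [IsMin, Set.mem_ofPred_eq, Set.mem_inter_iff, Set.mem_iInter, Set.mem_union,
      Set.mem_compl_iff]
    constructor
    · rintro ⟨h1, h2⟩
      exact ⟨h1, fun w' => (Classical.em (S.OrbW w' y)).elim (fun h => Or.inr (h2 w' h)) Or.inl⟩
    · rintro ⟨h1, h2⟩
      exact ⟨h1, fun w' h => (h2 w').resolve_left (not_not.mpr h)⟩
  rw [this]
  exact (S.measurableSet_orbW w).inter (MeasurableSet.iInter fun w' =>
    (S.measurableSet_orbW w').compl.union (MeasurableSet.const _))

theorem measurableSet_ph (j : ℕ) : MeasurableSet {y | S.Ph y j} := by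
  -- `y0` is recovered from `y` by walking backwards
  have : {y | S.Ph y j} = ⋃ w : List (Fin n × Fin n), ⋃ l : List (Fin n),
      {y | S.IsMin w y} ∩ ((S.walk (!(typ false (l.take j).length))
        ((l.take j).reverse.map (fun c => -c))) ⁻¹'
        ({y0 | S.IsCyc l y0} ∩ {y0 | (S.trace false l y0).map S.tg = w})) ∩
      ({y | j < l.length} ∩ {y | S.walk false (l.take j)
        (S.walk (!(typ false (l.take j).length)) ((l.take j).reverse.map (fun c => -c)) y)
          = y}) := by
    ext y
    simp only [Ph, Set.mem_ofPred_eq, Set.mem_iUnion, Set.mem_inter_iff, Set.mem_preimage]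
    constructor
    · rintro ⟨w, hw, y0, l, hl, ht, hj, rfl⟩
      refine ⟨w, l, ⟨hw, ?_, ?_⟩, hj, ?_⟩
      · rw [S.walk_rev]; exact hl
      · rw [S.walk_rev]; exact ht
      · rw [S.walk_rev]
    · rintro ⟨w, l, ⟨hw, hl, ht⟩, hj, he⟩
      exact ⟨w, hw, _, l, hl, ht, hj, he⟩
  rw [this]
  refine MeasurableSet.iUnion fun w => MeasurableSet.iUnion fun l => ?_
  refine ((S.measurableSet_isMin w).inter ?_).inter ((MeasurableSet.const _).inter ?_)
  · exact S.measurable_walk _ _ ((S.measurableSet_isCyc l).inter (S.measurableSet_trace _ _ _))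
  · exact measurableSet_eq_fun ((S.measurable_walk _ _).comp (S.measurable_walk _ _))
      measurable_id

theorem measurableSet_ad (i : Bool) (m : ℕ) : MeasurableSet {y | S.Ad i m y} := by
  induction m generalizing i with
  | zero =>
    have : {y | S.Ad i 0 y} = ⋃ j, {y | S.Ph y j} := by ext y; simp [Ad, TS]
    rw [this]
    exact MeasurableSet.iUnion fun j => S.measurableSet_ph j
  | succ m ih =>
    have : {y | S.Ad i (m + 1) y} = ⋃ c : Fin n, {y : E | c ≠ 0} ∩
        (S.act i c ⁻¹' {y | S.Ad (!i) m y}) := by
      ext y; simp [Ad]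
    rw [this]
    exact MeasurableSet.iUnion fun c => (MeasurableSet.const _).inter (S.meas_act i c (ih _))

theorem measurable_dir : Measurable S.dir := by
  classical
  apply measurable_to_countable'
  have hp : ∀ b : Bool, MeasurableSet {y | ∃ j, (S.Ph y j ∧ ∀ j' < j, ¬ S.Ph y j') ∧
      decide (Odd j) = b} := by
    intro b
    have : {y | ∃ j, (S.Ph y j ∧ ∀ j' < j, ¬ S.Ph y j') ∧ decide (Odd j) = b} =
        ⋃ j, ({y | S.Ph y j} ∩ ⋂ j', ({y : E | ¬ j' < j} ∪ {y | S.Ph y j'}ᶜ)) ∩
          {y : E | decide (Odd j) = b} := by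
      ext y
      simp only [Set.mem_ofPred_eq, Set.mem_iUnion, Set.mem_inter_iff, Set.mem_iInter,
        Set.mem_union, Set.mem_compl_iff]
      constructor
      · rintro ⟨j, ⟨h1, h2⟩, h3⟩
        exact ⟨j, ⟨h1, fun j' => (Classical.em (j' < j)).elim
          (fun h => Or.inr (h2 j' h)) Or.inl⟩, h3⟩
      · rintro ⟨j, ⟨h1, h2⟩, h3⟩
        exact ⟨j, ⟨h1, fun j' h => (h2 j').resolve_left (not_not.mpr h)⟩, h3⟩
    rw [this]
    refine MeasurableSet.iUnion fun j => ((S.measurableSet_ph j).inter
      (MeasurableSet.iInter fun j' => (MeasurableSet.const _).union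
        (S.measurableSet_ph j').compl)).inter (MeasurableSet.const _)
  have hts : MeasurableSet {y | ∃ j, S.Ph y j} := by
    have : {y | ∃ j, S.Ph y j} = ⋃ j, {y | S.Ph y j} := by ext y; simp
    rw [this]; exact MeasurableSet.iUnion fun j => S.measurableSet_ph j
  have hq : MeasurableSet {y | ∃ m, S.Ad false m y ∧ ∀ m' ≤ m, ¬ S.Ad true m' y} := by
    have : {y | ∃ m, S.Ad false m y ∧ ∀ m' ≤ m, ¬ S.Ad true m' y} =
        ⋃ m, ({y | S.Ad false m y} ∩ ⋂ m', ({y : E | ¬ m' ≤ m} ∪ {y | S.Ad true m' y}ᶜ)) := by
      ext y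
      simp only [Set.mem_ofPred_eq, Set.mem_iUnion, Set.mem_inter_iff, Set.mem_iInter,
        Set.mem_union, Set.mem_compl_iff]
      constructor
      · rintro ⟨j, h1, h2⟩
        exact ⟨j, h1, fun j' => (Classical.em (j' ≤ j)).elim
          (fun h => Or.inr (h2 j' h)) Or.inl⟩
      · rintro ⟨j, h1, h2⟩
        exact ⟨j, h1, fun j' h => (h2 j').resolve_left (not_not.mpr h)⟩
    rw [this]
    refine MeasurableSet.iUnion fun j => (S.measurableSet_ad _ j).inter
      (MeasurableSet.iInter fun j' => (MeasurableSet.const _).union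
        (S.measurableSet_ad _ j').compl)
  have hdir : ∀ b : Bool, S.dir ⁻¹' {b} =
      ({y | ∃ j, S.Ph y j} ∩ {y | ∃ j, (S.Ph y j ∧ ∀ j' < j, ¬ S.Ph y j') ∧
        decide (Odd j) = b}) ∪
      ({y | ∃ j, S.Ph y j}ᶜ ∩ (if b = false then
        {y | ∃ m, S.Ad false m y ∧ ∀ m' ≤ m, ¬ S.Ad true m' y} else
        {y | ∃ m, S.Ad false m y ∧ ∀ m' ≤ m, ¬ S.Ad true m' y}ᶜ)) := by
    intro b
    ext y
    simp only [Set.mem_preimage, Set.mem_singleton_iff, Set.mem_union, Set.mem_inter_iff,
      Set.mem_ofPred_eq, Set.mem_compl_iff]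
    by_cases h : ∃ j, S.Ph y j
    · have hd : S.dir y = decide (Odd (Nat.find h)) := by simp only [dir, dif_pos h]
      rw [hd]
      constructor
      · intro hb
        exact Or.inl ⟨h, Nat.find h, ⟨Nat.find_spec h, fun j' hj' => Nat.find_min h hj'⟩, hb⟩
      · rintro (⟨_, j, ⟨h1, h2⟩, h3⟩ | ⟨h1, _⟩)
        · have : Nat.find h = j := by
            refine le_antisymm (Nat.find_min' h h1) ?_
            by_contra hlt
            exact h2 _ (not_le.mp hlt) (Nat.find_spec h)
          rw [this]; exact h3
        · exact absurd h h1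
    · have hd : S.dir y = if ∃ m, S.Ad false m y ∧ ∀ m' ≤ m, ¬ S.Ad true m' y then false
          else true := by simp only [dir, dif_neg h]
      rw [hd]
      constructor
      · intro hb
        refine Or.inr ⟨h, ?_⟩
        by_cases hq : ∃ m, S.Ad false m y ∧ ∀ m' ≤ m, ¬ S.Ad true m' y
        · rw [if_pos hq] at hb; subst hb; simpa using hq
        · rw [if_neg hq] at hb; subst hb; simpa using hq
      · rintro (⟨h1, _⟩ | ⟨_, h2⟩)
        · exact absurd h1 h
        · cases b
          · rw [if_pos rfl] at h2
            exact if_pos h2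
          · rw [if_neg (by simp)] at h2
            exact if_neg h2
  intro b
  have : S.dir ⁻¹' {b} = S.dir ⁻¹' {b} := rfl
  rw [hdir b]
  refine (hts.inter (hp b)).union (hts.compl.inter ?_)
  cases b
  · rw [if_pos rfl]; exact hq
  · rw [if_neg (by simp)]; exact hq.compl

end Meas

end ES
end Pool.Agent.H81.BCI
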