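import Pool.Agent.H81.BCI.Blame

/-!
The space of labelled regular trees rooted at an edge, as an edge system.
-/

namespace Pool.Agent.H81.BCI
open MeasureTheory

section
variable {n : ℕ} [NeZero n] (D : ℕ)

/-- kind of the edge at position `b` (`0` = main edge, `b` = extra edge) -/
def kind (b : Fin n) : Fin n := if b.val < D then 0 else b

/-- shift of the edge at position `b` -/
def sh (b : Fin n) : ℕ := if b.val < D then b.val else 0

/-- local data at a vertex: position of the entry edge, new digits, tags of the other edges -/
abbrev LD (n : ℕ) := Fin n × (ℕ → ℕ) × (Fin n → ℕ)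

/-- data of a half tree -/
abbrev HT (n : ℕ) := List (Fin n) → LD n

/-- label of the root edge: sequence, kind, tag -/
abbrev Core (n : ℕ) := (ℕ → ℕ) × Fin n × ℕ

abbrev Code (n : ℕ) := Core n × (Bool → HT n)

def entry (κ : Fin n) (ld : LD n) : Fin n :=
  if κ = 0 then (if ld.1.val < D then ld.1 else 0) else κ

def zs (u : ℕ → ℕ) (κ : Fin n) (ld : LD n) : ℕ → ℕ := fun m =>
  if m < sh D (entry D κ ld) then ld.2.1 m else u (m - sh D (entry D κ ld))

/-- normalised local data -/
def nld (κ : Fin n) (ld : LD n) : LD n :=
  (if κ = 0 then entry D κ ld else 0,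
    fun m => if m < sh D (entry D κ ld) then ld.2.1 m else 0,
    fun d => if d = 0 then 0 else ld.2.2 d)

def nrm : Fin n → HT n → List (Fin n) → LD n
  | κ, f, [] => nld D κ (f [])
  | κ, f, c :: l => if c = 0 then 0 else
      nrm (kind D (entry D κ (f []) + c)) (fun l' => f (c :: l')) l

theorem kind_zero : kind D (0 : Fin n) = 0 := by unfold kind; split_ifs <;> rfl

theorem kind_kind (b : Fin n) : kind D (kind D b) = kind D b := by
  unfold kind; split_ifs <;> simp_all

theorem kind_eq_zero (hD : 1 ≤ D) {b : Fin n} : kind D b = 0 ↔ b.val < D := by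
  unfold kind
  split_ifs with h
  · simp [h]
  · constructor
    · intro h0; subst h0; simp at h; omega
    · intro h0; exact absurd h0 h

theorem entry_eq {κ : Fin n} {ld : LD n} (h : κ ≠ 0) : entry D κ ld = κ := by simp [entry, h]

/-- the kind of an element is determined by the entry position -/
theorem kind_entry (_hD : 1 ≤ D) {κ : Fin n} (hκ : kind D κ = κ) (ld : LD n) :
    kind D (entry D κ ld) = κ := by
  unfold entry
  split_ifs with h1 h2
  · rw [h1]; simp [kind, h2]
  · rw [h1]; exact kind_zero D
  · exact hκ

theorem entry_mk (hD : 1 ≤ D) (b : Fin n) (x : (ℕ → ℕ) × (Fin n → ℕ)) :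
    entry D (kind D b) (if kind D b = 0 then b else 0, x) = b := by
  unfold entry
  by_cases h : kind D b = 0
  · have hb : b.val < D := (kind_eq_zero D hD).mp h
    simp [h, hb]
  · rw [if_neg h]
    unfold kind at h ⊢
    split_ifs at h ⊢ with h1
    · exact absurd rfl h
    · rfl

theorem entry_nld (κ : Fin n) (ld : LD n) : entry D κ (nld D κ ld) = entry D κ ld := by
  by_cases h : κ = 0
  · subst h
    simp only [nld, if_true, entry]
    by_cases h : ld.1.val < D
    · simp [h]
    · simp only [h, if_false]
      split_ifs <;> rfl
  · rw [entry_eq D h, entry_eq D h]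

theorem nld_nld (κ : Fin n) (ld : LD n) : nld D κ (nld D κ ld) = nld D κ ld := by
  unfold nld
  refine Prod.ext ?_ (Prod.ext ?_ ?_)
  · simp only
    split_ifs with h
    · have := entry_nld D κ ld
      unfold nld at this
      simpa [h] using this
    · rfl
  · funext m
    have := entry_nld D κ ld
    unfold nld at this
    simp only [this]
    split_ifs <;> rfl
  · funext d
    simp only
    split_ifs <;> rfl

theorem nrm_nil (κ : Fin n) (f : HT n) : nrm D κ f [] = nld D κ (f []) := rfl

theorem nrm_cons (κ : Fin n) (f : HT n) {c : Fin n} (hc : c ≠ 0) (l : List (Fin n)) :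
    nrm D κ f (c :: l) = nrm D (kind D (entry D κ (f []) + c)) (fun l' => f (c :: l')) l := by
  simp [nrm, hc]

theorem nrm_zero_cons (κ : Fin n) (f : HT n) (l : List (Fin n)) : nrm D κ f (0 :: l) = 0 := by
  simp [nrm]

theorem nrm_nrm (κ : Fin n) (f : HT n) : nrm D κ (nrm D κ f) = nrm D κ f := by
  funext l
  induction l generalizing κ f with
  | nil => simp only [nrm_nil]; exact nld_nld D κ _
  | cons c l ih =>
    by_cases hc : c = 0
    · subst hc; rw [nrm_zero_cons, nrm_zero_cons]
    · rw [nrm_cons D κ _ hc, nrm_cons D κ _ hc, nrm_nil, entry_nld]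
      have : (fun l' => nrm D κ f (c :: l')) =
          nrm D (kind D (entry D κ (f []) + c)) (fun l' => f (c :: l')) := by
        funext l'; exact nrm_cons D κ f hc l'
      rw [this]
      exact ih _ _

/-- normal codes -/
def Normal (y : Code n) : Prop :=
  kind D y.1.2.1 = y.1.2.1 ∧ ∀ i, nrm D y.1.2.1 (y.2 i) = y.2 i

/-- position of the root at its vertex of type `i` -/
def posC (i : Bool) (y : Code n) : Fin n := entry D y.1.2.1 (y.2 i [])

/-- sequence at the vertex of type `i` of the root -/
def zC (i : Bool) (y : Code n) : ℕ → ℕ := zs D y.1.1 y.1.2.1 (y.2 i [])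

/-- the edge following the root (cyclically, by `c`) at the vertex of type `i` -/
def actC (i : Bool) (c : Fin n) (y : Code n) : Code n :=
  ((fun m => zC D i y (m + sh D (posC D i y + c)), kind D (posC D i y + c),
      if c = 0 then y.1.2.2 else (y.2 i []).2.2 c),
   fun j l => if j = i then
      (match l with
        | [] => (if kind D (posC D i y + c) = 0 then posC D i y + c else 0,
            fun m => if m < sh D (posC D i y + c) then zC D i y m else 0,
            fun d => if d = 0 then 0 else if c + d = 0 then y.1.2.2 else (y.2 i []).2.2 (c + d))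
        | d :: l' => if d = 0 then 0 else if c + d = 0 then y.2 (!i) l' else y.2 i ((c + d) :: l'))
     else if c = 0 then y.2 (!i) l else y.2 i (c :: l))

theorem actC_core (i : Bool) (c : Fin n) (y : Code n) : (actC D i c y).1 =
    (fun m => zC D i y (m + sh D (posC D i y + c)), kind D (posC D i y + c),
      if c = 0 then y.1.2.2 else (y.2 i []).2.2 c) := rfl

theorem actC_nil (i : Bool) (c : Fin n) (y : Code n) : (actC D i c y).2 i [] =
    (if kind D (posC D i y + c) = 0 then posC D i y + c else 0,
      fun m => if m < sh D (posC D i y + c) then zC D i y m else 0,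
      fun d => if d = 0 then 0 else if c + d = 0 then y.1.2.2 else (y.2 i []).2.2 (c + d)) := by
  simp [actC]

theorem actC_cons (i : Bool) (c : Fin n) (y : Code n) (d : Fin n) (l : List (Fin n)) :
    (actC D i c y).2 i (d :: l) =
      if d = 0 then 0 else if c + d = 0 then y.2 (!i) l else y.2 i ((c + d) :: l) := by
  simp [actC]

theorem actC_other (i : Bool) (c : Fin n) (y : Code n) (l : List (Fin n)) :
    (actC D i c y).2 (!i) l = if c = 0 then y.2 (!i) l else y.2 i (c :: l) := by
  have : ((!i) = i) = False := by simp
  simp [actC]

theorem posC_actC (hD : 1 ≤ D) (i : Bool) (c : Fin n) (y : Code n) :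
    posC D i (actC D i c y) = posC D i y + c := by
  have h1 : (actC D i c y).1.2.1 = kind D (posC D i y + c) := rfl
  show entry D _ _ = _
  rw [h1, actC_nil]
  exact entry_mk D hD _ _

theorem zC_actC (hD : 1 ≤ D) (i : Bool) (c : Fin n) (y : Code n) :
    zC D i (actC D i c y) = zC D i y := by
  funext m
  have hp := posC_actC D hD i c y
  have h0 : zC D i (actC D i c y) m = if m < sh D (posC D i (actC D i c y)) then
      ((actC D i c y).2 i []).2.1 m else
      (actC D i c y).1.1 (m - sh D (posC D i (actC D i c y))) := rfl
  rw [h0, hp, actC_nil, actC_core]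
  simp only
  split_ifs with h
  · rfl
  · congr 1; omega

theorem actC_actC (hD : 1 ≤ D) (i : Bool) (c d : Fin n) (y : Code n) :
    actC D i c (actC D i d y) = actC D i (d + c) y := by
  have hp := posC_actC D hD i d y
  have hz := zC_actC D hD i d y
  refine Prod.ext ?_ ?_
  · rw [actC_core, hp, hz, actC_core, add_assoc]
    refine Prod.ext rfl (Prod.ext rfl ?_)
    simp only
    by_cases hc : c = 0
    · subst hc; simp [actC_core]
    · rw [if_neg hc, actC_nil]
      simp only
      rw [if_neg hc]
      rfl
  · funext j l
    by_cases hj : j = i
    · subst hj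
      cases l with
      | nil =>
        rw [actC_nil D j c (actC D j d y), hp, hz, actC_nil D j (d + c) y, add_assoc]
        refine Prod.ext rfl (Prod.ext rfl ?_)
        funext e
        simp only
        by_cases he : e = 0
        · simp [he]
        · rw [if_neg he, if_neg he]
          by_cases hce : c + e = 0
          · rw [if_pos hce, actC_core, add_assoc, hce, add_zero]
          · rw [if_neg hce, actC_nil]
            simp only
            rw [if_neg hce, add_assoc]
      | cons e l =>
        rw [actC_cons, actC_cons, actC_cons, actC_other]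
        by_cases he : e = 0
        · simp [he]
        · rw [if_neg he, if_neg he]
          by_cases hce : c + e = 0
          · rw [if_pos hce, add_assoc, hce, add_zero]
          · rw [if_neg hce, if_neg hce, add_assoc]
    · have hj' : j = !i := by cases i <;> cases j <;> simp_all
      subst hj'
      rw [actC_other, actC_other, actC_other]
      by_cases hc : c = 0
      · subst hc; simp
      · rw [if_neg hc, actC_cons, if_neg hc]

theorem posC_kind (hD : 1 ≤ D) {y : Code n} (hy : kind D y.1.2.1 = y.1.2.1) (i : Bool) :
    kind D (posC D i y) = y.1.2.1 := kind_entry D hD hy _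

theorem u_eq (y : Code n) (i : Bool) : y.1.1 = fun m => zC D i y (m + sh D (posC D i y)) := by
  funext m
  have h0 : zC D i y (m + sh D (posC D i y)) = if m + sh D (posC D i y) < sh D (posC D i y) then
      (y.2 i []).2.1 (m + sh D (posC D i y)) else
      y.1.1 (m + sh D (posC D i y) - sh D (posC D i y)) := rfl
  rw [h0, if_neg (by omega), Nat.add_sub_cancel]

theorem actC_zero (hD : 1 ≤ D) (i : Bool) {y : Code n} (hy : Normal D y) : actC D i 0 y = y := by
  refine Prod.ext ?_ ?_
  · rw [actC_core]
    refine Prod.ext ?_ (Prod.ext ?_ ?_)
    · simp only [add_zero]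
      exact (u_eq D y i).symm
    · simp only [add_zero]
      exact posC_kind D hD hy.1 i
    · simp
  · funext j l
    by_cases hj : j = i
    · subst hj
      cases l with
      | nil =>
        rw [actC_nil]
        have h1 : y.2 j [] = nld D y.1.2.1 (y.2 j []) := by
          conv_lhs => rw [← hy.2 j]
          rfl
        rw [h1]
        unfold nld
        refine Prod.ext ?_ (Prod.ext ?_ ?_)
        · simp only [add_zero]
          rw [posC_kind D hD hy.1 j]
          rfl
        · funext m
          simp only [add_zero]
          have : posC D j y = entry D y.1.2.1 (y.2 j []) := rfl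
          rw [this]
          by_cases hm : m < sh D (entry D y.1.2.1 (y.2 j []))
          · rw [if_pos hm, if_pos hm]
            show (if m < sh D (entry D y.1.2.1 (y.2 j [])) then (y.2 j []).2.1 m else _) = _
            rw [if_pos hm]
          · rw [if_neg hm, if_neg hm]
        · funext d
          simp only [zero_add]
          by_cases hd : d = 0
          · simp [hd]
          · simp only [if_neg hd]
      | cons d l =>
        rw [actC_cons]
        by_cases hd : d = 0
        · subst hd
          rw [if_pos rfl]
          conv_rhs => rw [← hy.2 j]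
          exact (nrm_zero_cons D _ _ l).symm
        · rw [if_neg hd, zero_add, if_neg hd]
    · have hj' : j = !i := by cases i <;> cases j <;> simp_all
      subst hj'
      rw [actC_other, if_pos rfl]

theorem normal_actC (hD : 1 ≤ D) (i : Bool) (c : Fin n) {y : Code n} (hy : Normal D y) :
    Normal D (actC D i c y) := by
  have hk : (actC D i c y).1.2.1 = kind D (posC D i y + c) := rfl
  refine ⟨by rw [hk]; exact kind_kind D _, ?_⟩
  intro j
  rw [hk]
  by_cases hj : j = i
  · subst hj
    funext l
    have he : entry D (kind D (posC D j y + c)) ((actC D j c y).2 j []) = posC D j y + c := by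
      rw [actC_nil]; exact entry_mk D hD _ _
    cases l with
    | nil =>
      rw [nrm_nil]
      unfold nld
      rw [he, actC_nil]
      refine Prod.ext rfl (Prod.ext ?_ ?_)
      · funext m
        simp only
        split_ifs <;> rfl
      · funext d
        simp only
        split_ifs <;> rfl
    | cons d l =>
      by_cases hd : d = 0
      · subst hd
        rw [nrm_zero_cons, actC_cons, if_pos rfl]
      · rw [nrm_cons D _ _ hd, he]
        have h1 : (fun l' => (actC D j c y).2 j (d :: l')) =
            fun l' => if c + d = 0 then y.2 (!j) l' else y.2 j ((c + d) :: l') := by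
          funext l'
          rw [actC_cons, if_neg hd]
        rw [h1, actC_cons, if_neg hd]
        by_cases hcd : c + d = 0
        · rw [if_pos hcd, add_assoc, hcd, add_zero]
          simp only [if_true]
          rw [posC_kind D hD hy.1 j]
          have := congrFun (hy.2 (!j)) l
          exact this
        · rw [if_neg hcd]
          simp only [if_neg hcd]
          rw [add_assoc]
          have := congrFun (hy.2 j) ((c + d) :: l)
          rw [nrm_cons D _ _ hcd] at this
          exact this
  · have hj' : j = !i := by cases i <;> cases j <;> simp_all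
    subst hj'
    by_cases hc : c = 0
    · subst hc
      have h1 : (actC D i 0 y).2 (!i) = y.2 (!i) := by
        funext l; rw [actC_other, if_pos rfl]
      rw [h1, add_zero, posC_kind D hD hy.1 i]
      exact hy.2 _
    · have h1 : (actC D i c y).2 (!i) = fun l => y.2 i (c :: l) := by
        funext l; rw [actC_other, if_neg hc]
      rw [h1]
      funext l
      have := congrFun (hy.2 i) (c :: l)
      rw [nrm_cons D _ _ hc] at this
      exact this

/-! ### Measurability -/

theorem measurable_index {X Y : Type*} [MeasurableSpace X] [MeasurableSpace Y] {I : Type*}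
    [MeasurableSpace I] [Countable I] [MeasurableSingletonClass I] (F : I → X → Y)
    (hF : ∀ i, Measurable (F i)) (k : X → I) (hk : Measurable k) :
    Measurable fun x => F (k x) x := by
  intro s hs
  have : (fun x => F (k x) x) ⁻¹' s = ⋃ i, (k ⁻¹' {i}) ∩ (F i ⁻¹' s) := by
    ext x; simp
  rw [this]
  exact MeasurableSet.iUnion fun i => (hk (measurableSet_singleton i)).inter (hF i hs)

omit [NeZero n] in
theorem measurable_from_fin {X : Type*} [MeasurableSpace X] (g : Fin n → X) : Measurable g :=
  measurable_of_countable g

theorem measurable_entry : Measurable fun p : Fin n × LD n => entry D p.1 p.2 := by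
  unfold entry
  refine Measurable.ite ?_ ?_ measurable_fst
  · exact measurable_fst (measurableSet_singleton _)
  · have : Measurable fun p : Fin n × LD n => p.2.1 := measurable_fst.comp measurable_snd
    exact (measurable_from_fin (fun a : Fin n => if a.val < D then a else 0)).comp this

theorem measurable_posC (i : Bool) : Measurable (posC D i : Code n → Fin n) := by
  have h : Measurable fun y : Code n => (y.1.2.1, y.2 i []) := by fun_prop
  exact (measurable_entry D).comp h

theorem measurable_zC (i : Bool) : Measurable (zC D i : Code n → ℕ → ℕ) := by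
  refine measurable_pi_lambda _ fun m => ?_
  refine measurable_index (I := Fin n) (fun (a : Fin n) (y : Code n) =>
    if m < sh D a then (y.2 i []).2.1 m else y.1.1 (m - sh D a)) (fun a => ?_)
    (posC D i) (measurable_posC D i)
  split_ifs
  · fun_prop
  · fun_prop

theorem measurable_actC (i : Bool) (c : Fin n) : Measurable (actC D i c : Code n → Code n) := by
  have hp := measurable_posC (n := n) D i
  have hz := measurable_zC (n := n) D i
  refine Measurable.prodMk (Measurable.prodMk ?_ (Measurable.prodMk ?_ ?_)) ?_
  · refine measurable_pi_lambda _ fun m => ?_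
    exact measurable_index (fun (a : Fin n) (y : Code n) => zC D i y (m + sh D (a + c)))
      (fun a => (measurable_pi_apply _).comp hz) _ hp
  · exact (measurable_from_fin (fun a : Fin n => kind D (a + c))).comp hp
  · split_ifs
    · fun_prop
    · fun_prop
  · refine measurable_pi_lambda _ fun j => measurable_pi_lambda _ fun l => ?_
    by_cases hj : j = i
    · simp only [hj, if_true]
      cases l with
      | nil =>
        refine Measurable.prodMk ?_ (Measurable.prodMk ?_ ?_)
        · exact (measurable_from_fin
            (fun a : Fin n => if kind D (a + c) = 0 then a + c else 0)).comp hp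
        · refine measurable_pi_lambda _ fun m => ?_
          refine measurable_index (fun (a : Fin n) (y : Code n) =>
            if m < sh D (a + c) then zC D i y m else 0) (fun a => ?_) _ hp
          split_ifs
          · exact (measurable_pi_apply _).comp hz
          · exact measurable_const
        · refine measurable_pi_lambda _ fun d => ?_
          split_ifs
          · exact measurable_const
          · fun_prop
          · fun_prop
      | cons d l =>
        simp only
        split_ifs
        · exact measurable_const
        · fun_prop
        · fun_prop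
    · simp only [hj, if_false]
      split_ifs
      · fun_prop
      · fun_prop

theorem measurable_nld : Measurable fun p : Fin n × LD n => nld D p.1 p.2 := by
  have he := measurable_entry (n := n) D
  refine Measurable.prodMk ?_ (Measurable.prodMk ?_ ?_)
  · exact Measurable.ite (measurable_fst (measurableSet_singleton _)) he measurable_const
  · refine measurable_pi_lambda _ fun m => ?_
    refine measurable_index (fun (a : Fin n) (p : Fin n × LD n) =>
      if m < sh D a then p.2.2.1 m else 0) (fun a => ?_) _ he
    split_ifs
    · fun_prop
    · exact measurable_const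
  · refine measurable_pi_lambda _ fun d => ?_
    split_ifs
    · exact measurable_const
    · fun_prop

theorem measurable_nrm (l : List (Fin n)) :
    Measurable fun p : Fin n × HT n => nrm D p.1 p.2 l := by
  induction l with
  | nil =>
    have h : Measurable fun p : Fin n × HT n => (p.1, p.2 []) := by fun_prop
    exact (measurable_nld D).comp h
  | cons c l ih =>
    by_cases hc : c = 0
    · subst hc
      have : (fun p : Fin n × HT n => nrm D p.1 p.2 (0 :: l)) = fun _ => 0 := by
        funext p; exact nrm_zero_cons D _ _ _
      rw [this]; exact measurable_const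
    · have : (fun p : Fin n × HT n => nrm D p.1 p.2 (c :: l)) =
          (fun p : Fin n × HT n => nrm D p.1 p.2 l) ∘ fun p : Fin n × HT n =>
            (kind D (entry D p.1 (p.2 []) + c), fun l' => p.2 (c :: l')) := by
        funext p; exact nrm_cons D _ _ hc _
      rw [this]
      refine ih.comp (Measurable.prodMk ?_ ?_)
      · have h : Measurable fun p : Fin n × HT n => (p.1, p.2 []) := by fun_prop
        exact (measurable_from_fin (fun a : Fin n => kind D (a + c))).comp
          ((measurable_entry D).comp h)
      · fun_prop

theorem measurableSet_normal : MeasurableSet {y : Code n | Normal D y} := by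
  have : {y : Code n | Normal D y} = {y : Code n | kind D y.1.2.1 = y.1.2.1} ∩
      ⋂ i, {y : Code n | nrm D y.1.2.1 (y.2 i) = y.2 i} := by
    ext y; simp [Normal]
  rw [this]
  refine MeasurableSet.inter ?_ (MeasurableSet.iInter fun i => ?_)
  · have h : Measurable fun y : Code n => y.1.2.1 := by fun_prop
    exact measurableSet_eq_fun ((measurable_from_fin (kind D)).comp h) h
  · refine measurableSet_eq_fun ?_ (by fun_prop)
    refine measurable_pi_lambda _ fun l => ?_
    have h : Measurable fun y : Code n => (y.1.2.1, y.2 i) := by fun_prop
    exact (measurable_nrm D l).comp h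

end

/-! ### The edge system -/

section
variable {n : ℕ} [NeZero n] (D : ℕ)

/-- normal codes -/
abbrev NC (n : ℕ) [NeZero n] (D : ℕ) := {y : Code n // Normal D y}

instance : StandardBorelSpace (NC n D) := (measurableSet_normal D).standardBorel

/-- the edge system of labelled trees -/
def TES (hD : 1 ≤ D) : ES n (NC n D) where
  pos i y := posC D i y.1
  act i c y := ⟨actC D i c y.1, normal_actC D hD i c y.2⟩
  meas_pos i := (measurable_posC D i).comp measurable_subtype_coe
  meas_act i c := ((measurable_actC D i c).comp measurable_subtype_coe).subtype_mk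
  act_zero i y := Subtype.ext (actC_zero D hD i y.2)
  act_add i c d y := Subtype.ext (actC_actC D hD i c d y.1)
  pos_act i c y := posC_actC D hD i c y.1

variable {D}

/-- root sequence -/
def uN (y : NC n D) : ℕ → ℕ := y.1.1.1
/-- root kind -/
def kN (y : NC n D) : Fin n := y.1.1.2.1
/-- root tag -/
def tN (y : NC n D) : ℕ := y.1.1.2.2
/-- sequence at the vertex of type `i` -/
def zN (i : Bool) (y : NC n D) : ℕ → ℕ := zC D i y.1

theorem uN_eq (hD : 1 ≤ D) (i : Bool) (y : NC n D) :
    uN y = fun m => zN i y (m + sh D ((TES D hD).pos i y)) := u_eq D y.1 i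

theorem kN_eq (hD : 1 ≤ D) (i : Bool) (y : NC n D) : kN y = kind D ((TES D hD).pos i y) :=
  (posC_kind D hD y.2.1 i).symm

theorem zN_act (hD : 1 ≤ D) (i : Bool) (c : Fin n) (y : NC n D) :
    zN i ((TES D hD).act i c y) = zN i y := zC_actC D hD i c y.1

theorem measurable_uN : Measurable (uN : NC n D → ℕ → ℕ) :=
  (measurable_fst.comp measurable_fst).comp measurable_subtype_coe

theorem measurable_kN : Measurable (kN : NC n D → Fin n) :=
  (measurable_fst.comp (measurable_snd.comp measurable_fst)).comp measurable_subtype_coe

theorem measurable_zN (i : Bool) : Measurable (zN i : NC n D → ℕ → ℕ) :=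
  (measurable_zC D i).comp measurable_subtype_coe

/-- eventually strictly increasing sequences -/
def EI (u : ℕ → ℕ) : Prop := ∃ i₀, StrictMono fun m => u (i₀ + m)

theorem EI.shift {u : ℕ → ℕ} (h : EI u) (s : ℕ) : EI fun m => u (m + s) := by
  obtain ⟨i, hi⟩ := h
  refine ⟨i, fun a b hab => ?_⟩
  have := @hi (a + s) (b + s) (by omega)
  simpa [add_assoc] using this

theorem EI.unshift {u : ℕ → ℕ} {s : ℕ} (h : EI fun m => u (m + s)) : EI u := by
  obtain ⟨i, hi⟩ := h
  refine ⟨i + s, fun a b hab => ?_⟩
  have := hi hab
  simp only at this ⊢
  rw [show i + s + a = i + a + s by ring, show i + s + b = i + b + s by ring]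
  exact this

theorem measurableSet_EI : MeasurableSet {u : ℕ → ℕ | EI u} := by
  have : {u : ℕ → ℕ | EI u} = ⋃ i, ⋂ a, ⋂ b, ({u : ℕ → ℕ | ¬ a < b} ∪
      {u : ℕ → ℕ | u (i + a) < u (i + b)}) := by
    ext u
    simp only [EI, StrictMono, Set.mem_ofPred_eq, Set.mem_iUnion, Set.mem_iInter, Set.mem_union]
    constructor
    · rintro ⟨i, h⟩
      exact ⟨i, fun a b => (Classical.em (a < b)).elim (fun hab => Or.inr (h hab)) Or.inl⟩
    · rintro ⟨i, h⟩
      exact ⟨i, fun a b hab => (h a b).resolve_left (not_not.mpr hab)⟩
  rw [this]
  refine MeasurableSet.iUnion fun i => MeasurableSet.iInter fun a => MeasurableSet.iInter fun b =>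
    (MeasurableSet.const _).union (measurableSet_lt (measurable_pi_apply _) (measurable_pi_apply _))

/-- the good set: free component, eventually increasing sequence -/
def Yf (hD : 1 ≤ D) : Set (NC n D) := {y | ¬ (TES D hD).NF y ∧ EI (uN y)}

theorem measurableSet_Yf (hD : 1 ≤ D) : MeasurableSet (Yf (n := n) hD) :=
  ((TES D hD).measurableSet_NF.compl).inter (measurable_uN measurableSet_EI)

theorem EI_act (hD : 1 ≤ D) (i : Bool) (c : Fin n) (y : NC n D) (h : EI (uN y)) :
    EI (uN ((TES D hD).act i c y)) := by
  rw [uN_eq hD i y] at h
  rw [uN_eq hD i, zN_act]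
  exact h.unshift.shift _

theorem Yf_act (hD : 1 ≤ D) (i : Bool) (c : Fin n) {y : NC n D} (h : y ∈ Yf hD) :
    (TES D hD).act i c y ∈ Yf hD := by
  refine ⟨fun hn => h.1 (ES.NF.of_orb _ ((TES D hD).orb_act i c y) hn), EI_act hD i c y h.2⟩

end

end Pool.Agent.H81.BCI
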