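import Mathlib

/-!
Common definitions for the Borel chromatic index project (MP_535960_lc).
-/

namespace Pool.Agent.H81.BCI

open Set MeasureTheory

/-- first `n` entries of a play -/
def pre {A : Type*} (x : ℕ → A) (n : ℕ) : List A := List.ofFn (fun i : Fin n => x i)

/-- Borel sigma-algebra of the product of discrete topologies on `A` -/
@[reducible] def dBorel (A : Type*) : MeasurableSpace (ℕ → A) :=
  @borel (ℕ → A) (@Pi.topologicalSpace ℕ (fun _ => A) (fun _ => ⊥))

/-- Sigma^1_2 subsets of Cantor space: projections of complements of analytic sets -/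
def Sigma12 (B : Set (ℕ → Bool)) : Prop :=
  ∃ P : Set ((ℕ → Bool) × (ℕ → ℕ)), AnalyticSet P ∧ B = {x | ∃ y, (x, y) ∉ P}

/-- A Borel edge system of degree `n`: points of `E` are the edges of a bipartite `n`-regular
multigraph; the edges at the type-`i` vertex of `y` are `act i c y`, `c : Fin n` (cyclic action of
Z/n), numbered by their positions `pos i`. -/
structure ES (n : ℕ) [NeZero n] (E : Type*) [MeasurableSpace E] where
  pos : Bool → E → Fin n
  act : Bool → Fin n → E → E
  meas_pos : ∀ i, Measurable (pos i)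
  meas_act : ∀ i c, Measurable (act i c)
  act_zero : ∀ i y, act i 0 y = y
  act_add : ∀ i c d y, act i c (act i d y) = act i (d + c) y
  pos_act : ∀ i c y, pos i (act i c y) = pos i y + c

namespace ES
variable {n : ℕ} [NeZero n] {E : Type*} [MeasurableSpace E] (S : ES n E)

/-- walk with alternating types, starting with type `i` -/
def walk : Bool → List (Fin n) → E → E
  | _, [], y => y
  | i, c :: l, y => walk (!i) l (S.act i c y)

/-- no closed nonempty reduced alternating walk at `y` -/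
def FreeAt (y : E) : Prop :=
  ∀ i l, l ≠ [] → (∀ c ∈ l, c ≠ 0) → S.walk i l y ≠ y

/-- `c` is a proper edge colouring on the set `D` -/
def ProperOn {K : Type*} (D : Set E) (c : E → K) : Prop :=
  ∀ y ∈ D, ∀ i d, d ≠ 0 → c y ≠ c (S.act i d y)

end ES

/-- Borel edge colouring of a simple graph with `k` colours -/
def EdgeCol {X : Type*} [MeasurableSpace X] (G : SimpleGraph X) (k : ℕ) : Prop :=
  ∃ c : X × X → Fin k, Measurable c ∧ (∀ a b, G.Adj a b → c (a, b) = c (b, a)) ∧
    ∀ a b b', G.Adj a b → G.Adj a b' → b ≠ b' → c (a, b) ≠ c (a, b')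

/-- the Borel chromatic index of `G` is `k` -/
def HasIndex {X : Type*} [MeasurableSpace X] (G : SimpleGraph X) (k : ℕ) : Prop :=
  EdgeCol G k ∧ ∀ j < k, ¬ EdgeCol G j

/-- The standard coding of Borel subsets of `2^ℕ × 2^ℕ` by points of Baire space. -/
inductive IsCode : (ℕ → ℕ) → Set ((ℕ → Bool) × (ℕ → Bool)) → Prop
  | fst (c : ℕ → ℕ) (h0 : c 0 = 0) (h1 : c 1 = 0) : IsCode c {p | p.1 (c 2) = true}
  | snd (c : ℕ → ℕ) (h0 : c 0 = 0) (h1 : c 1 ≠ 0) : IsCode c {p | p.2 (c 2) = true}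
  | compl (c : ℕ → ℕ) (h0 : c 0 = 1) (A : Set ((ℕ → Bool) × (ℕ → Bool)))
      (h : IsCode (fun m => c (m + 1)) A) : IsCode c Aᶜ
  | iUnion (c : ℕ → ℕ) (h0 : 2 ≤ c 0) (A : ℕ → Set ((ℕ → Bool) × (ℕ → Bool)))
      (h : ∀ j, IsCode (fun m => c (Nat.pair j m + 1)) (A j)) : IsCode c (⋃ j, A j)

/-- It is Sigma^1_2-complete to distinguish Borel chromatic index `k` from `k+1` on
`Δ`-regular acyclic Borel graphs. -/
def CompleteIndex (Δ k : ℕ) : Prop :=
  ∀ B : Set (ℕ → Bool), Sigma12 B →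
    ∃ f : (ℕ → Bool) → (ℕ → ℕ), Measurable f ∧ ∀ x, ∃ G : SimpleGraph (ℕ → Bool),
      IsCode (f x) {p | G.Adj p.1 p.2} ∧ G.IsAcyclic ∧ (∀ v, (G.neighborSet v).ncard = Δ) ∧
      (x ∈ B → HasIndex G k) ∧ (x ∉ B → HasIndex G (k + 1))

end Pool.Agent.H81.BCI
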