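import Pool.Agent.H81.BCI.Defs

/-!
Digit dichotomy: from Borel determinacy, for games in which, besides the usual moves, digits of a
sequence are chosen generically for an ultrafilter.
-/

namespace Pool.Agent.H81.BCI
open MeasureTheory

/-- the statement of Borel determinacy (for all types in `Type`) -/
def BorelDet : Prop :=
  ∀ (A : Type) [Nonempty A] (W : Set (ℕ → A)), MeasurableSet[dBorel A] W →
    (∃ σ : List A → A, ∀ x : ℕ → A, (∀ n, x (2 * n) = σ (pre x (2 * n))) → x ∈ W) ∨
    (∃ τ : List A → A, ∀ x : ℕ → A, (∀ n, x (2 * n + 1) = τ (pre x (2 * n + 1))) → x ∉ W)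

theorem pre_succ {A : Type*} (x : ℕ → A) (n : ℕ) : pre x (n + 1) = pre x n ++ [x n] := by
  unfold pre
  rw [List.ofFn_succ']
  simp [List.concat_eq_append]

@[simp] theorem pre_zero {A : Type*} (x : ℕ → A) : pre x 0 = [] := by simp [pre]

@[simp] theorem length_pre {A : Type*} (x : ℕ → A) (n : ℕ) : (pre x n).length = n := by
  simp [pre]

theorem pre_getD {A : Type*} (x : ℕ → A) (n i : ℕ) (d : A) (h : i < n) :
    (pre x n).getD i d = x i := by
  simp [pre, h]

theorem pre_congr {A : Type*} {x y : ℕ → A} {n : ℕ} (h : ∀ i < n, x i = y i) :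
    pre x n = pre y n := by
  unfold pre
  congr 1
  funext i
  exact h i i.2

/-- in the product of discrete spaces, a function of one coordinate is measurable -/
theorem measurable_coord {A : Type*} {X : Type*} [MeasurableSpace X] (i : ℕ) (F : A → X) :
    Measurable[dBorel A] (fun x : ℕ → A => F (x i)) := by
  let _ : TopologicalSpace A := ⊥
  have _ : DiscreteTopology A := ⟨rfl⟩
  let _ : MeasurableSpace (ℕ → A) := borel (ℕ → A)
  have _ : BorelSpace (ℕ → A) := ⟨rfl⟩
  intro s _
  have : IsOpen ((fun x : ℕ → A => F (x i)) ⁻¹' s) := by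
    have h1 : Continuous fun x : ℕ → A => x i := continuous_apply i
    exact (isOpen_discrete (F ⁻¹' s)).preimage h1
  exact this.measurableSet

/-- in the product of discrete spaces, a set depending on finitely many coordinates is Borel -/
theorem measurableSet_dBorel {A : Type*} (s : Set (ℕ → A)) (m : ℕ)
    (h : ∀ x y, (∀ i < m, x i = y i) → x ∈ s → y ∈ s) : MeasurableSet[dBorel A] s := by
  let _ : TopologicalSpace A := ⊥
  have _ : DiscreteTopology A := ⟨rfl⟩
  let _ : MeasurableSpace (ℕ → A) := borel (ℕ → A)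
  have _ : BorelSpace (ℕ → A) := ⟨rfl⟩
  have : IsOpen s := by
    rw [isOpen_pi_iff]
    intro x hx
    refine ⟨Finset.range m, fun i => {x i}, fun i _ => ⟨isOpen_discrete _, rfl⟩, ?_⟩
    intro y hy
    refine h x y (fun i hi => ?_) hx
    have := hy i (by simpa using hi)
    simpa using this.symm
  exact this.measurableSet

/-- a map between products of discrete spaces all of whose coordinates depend on finitely many
coordinates is measurable -/
theorem measurable_dBorel {A B : Type*} (f : (ℕ → A) → (ℕ → B)) (m : ℕ → ℕ)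
    (h : ∀ t x y, (∀ i < m t, x i = y i) → f x t = f y t) :
    @Measurable _ _ (dBorel A) (dBorel B) f := by
  let _ : TopologicalSpace A := ⊥
  have _ : DiscreteTopology A := ⟨rfl⟩
  let _ : TopologicalSpace B := ⊥
  have _ : DiscreteTopology B := ⟨rfl⟩
  let _ : MeasurableSpace (ℕ → A) := borel (ℕ → A)
  have _ : BorelSpace (ℕ → A) := ⟨rfl⟩
  let _ : MeasurableSpace (ℕ → B) := borel (ℕ → B)
  have _ : BorelSpace (ℕ → B) := ⟨rfl⟩
  have hc : Continuous f := by
    refine continuous_pi fun t => ?_
    refine continuous_discrete_rng.mpr fun b => ?_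
    rw [isOpen_pi_iff]
    intro x hx
    refine ⟨Finset.range (m t), fun i => {x i}, fun i _ => ⟨isOpen_discrete _, rfl⟩, ?_⟩
    intro y hy
    have : f y t = f x t := h t y x fun i hi => by
      have := hy i (by simpa using hi)
      simpa using this
    simp only [Set.mem_preimage, Set.mem_singleton_iff] at hx ⊢
    rw [this, hx]
  exact hc.measurable

section
variable {M : Type} [Nonempty M] (U : Ultrafilter ℕ)

/-- player I (moves `g`, second component) has a digit-driven strategy for `W` -/
def StratI (W : Set (ℕ → ℕ × M × M)) : Prop :=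
  ∃ (R : List ℕ → List M → Set ℕ) (σ : List ℕ → List M → M), (∀ l m, R l m ∈ U) ∧
    ∀ (u : ℕ → ℕ) (g g' : ℕ → M), (∀ t, u t ∈ R (pre u t) (pre g' t)) →
      (∀ t, g t = σ (pre u (t + 1)) (pre g' t)) → (fun t => (u t, g t, g' t)) ∈ W

/-- player II (moves `g'`, third component) has a digit-driven strategy against `W` -/
def StratII (W : Set (ℕ → ℕ × M × M)) : Prop :=
  ∃ (R : List ℕ → List M → Set ℕ) (τ : List ℕ → List M → M), (∀ l m, R l m ∈ U) ∧
    ∀ (u : ℕ → ℕ) (g g' : ℕ → M), (∀ t, u t ∈ R (pre u t) (pre g t)) →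
      (∀ t, g' t = τ (pre u (t + 1)) (pre g (t + 1))) → (fun t => (u t, g t, g' t)) ∉ W

variable {U}

/-- moves of the auxiliary game: a set demanded by II, a digit played by I, an ordinary move -/
abbrev Mv (M : Type) := Set ℕ × ℕ × M

open Classical in
noncomputable def Xs (U : Ultrafilter ℕ) (X : Set ℕ) : Set ℕ := if X ∈ U then X else Set.univ

theorem Xs_mem (X : Set ℕ) : Xs U X ∈ U := by
  unfold Xs
  split_ifs with h
  · exact h
  · exact Filter.univ_mem

theorem Xs_eq {X : Set ℕ} (h : X ∈ U) : Xs U X = X := by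
  simp [Xs, h]

noncomputable def trip (x : ℕ → Mv M) : ℕ → ℕ × M × M :=
  fun t => ((x (2 * t + 1)).2.1, (x (2 * t + 1)).2.2, (x (2 * t + 2)).2.2)

/-- winning set of the first mover (II) -/
def WinSet (U : Ultrafilter ℕ) (W : Set (ℕ → ℕ × M × M)) : Set (ℕ → Mv M) :=
  {x | (∃ t, (x (2 * t + 1)).2.1 ∉ Xs U (x (2 * t)).1) ∨ trip x ∉ W}

omit [Nonempty M] in
theorem measurable_winSet {W : Set (ℕ → ℕ × M × M)} (hW : MeasurableSet[dBorel (ℕ × M × M)] W) :
    MeasurableSet[dBorel (Mv M)] (WinSet U W) := by
  have h1 : @Measurable _ _ (dBorel (Mv M)) (dBorel (ℕ × M × M)) trip := by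
    refine measurable_dBorel trip (fun t => 2 * t + 3) ?_
    intro t x y h
    simp only [trip]
    rw [h (2 * t + 1) (by omega), h (2 * t + 2) (by omega)]
  have h2 : ∀ t, MeasurableSet[dBorel (Mv M)]
      {x : ℕ → Mv M | (x (2 * t + 1)).2.1 ∉ Xs U (x (2 * t)).1} := by
    intro t
    refine measurableSet_dBorel _ (2 * t + 2) ?_
    intro x y h hx
    have hx' : (x (2 * t + 1)).2.1 ∉ Xs U (x (2 * t)).1 := hx
    rw [h (2 * t + 1) (by omega), h (2 * t) (by omega)] at hx'
    exact hx'
  have : WinSet U W = (⋃ t, {x : ℕ → Mv M | (x (2 * t + 1)).2.1 ∉ Xs U (x (2 * t)).1}) ∪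
      (trip ⁻¹' W)ᶜ := by
    ext x; simp [WinSet]
  rw [this]
  exact @MeasurableSet.union _ (dBorel (Mv M)) _ _
    (@MeasurableSet.iUnion _ _ (dBorel (Mv M)) _ _ h2)
    (@MeasurableSet.compl _ _ (dBorel (Mv M)) (h1 hW))

/-! ### case 1: the first mover (II) wins -/

section CaseII
variable (σ : List (Mv M) → Mv M)

/-- history after `t` rounds, II follows `σ`, I plays the digits `u` and the moves `g` -/
noncomputable def bl : ℕ → (ℕ → ℕ) → (ℕ → M) → List (Mv M)
  | 0, _, _ => []
  | t + 1, u, g => bl t u g ++ [σ (bl t u g), (∅, u t, g t)]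

omit [Nonempty M] in
@[simp] theorem length_bl (t : ℕ) (u : ℕ → ℕ) (g : ℕ → M) : (bl σ t u g).length = 2 * t := by
  induction t with
  | zero => rfl
  | succ t ih => simp [bl, ih]; omega

omit [Nonempty M] in
theorem bl_congr (t : ℕ) {u u' : ℕ → ℕ} {g g' : ℕ → M} (hu : ∀ i < t, u i = u' i)
    (hg : ∀ i < t, g i = g' i) : bl σ t u g = bl σ t u' g' := by
  induction t with
  | zero => rfl
  | succ t ih =>
    simp only [bl]
    rw [ih (fun i hi => hu i (by omega)) (fun i hi => hg i (by omega)), hu t (by omega),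
      hg t (by omega)]

/-- the play -/
noncomputable def plII (u : ℕ → ℕ) (g : ℕ → M) (n : ℕ) : Mv M :=
  if Even n then σ (bl σ (n / 2) u g) else (∅, u (n / 2), g (n / 2))

omit [Nonempty M] in
theorem pre_plII (u : ℕ → ℕ) (g : ℕ → M) (t : ℕ) : pre (plII σ u g) (2 * t) = bl σ t u g := by
  induction t with
  | zero => simp [bl]
  | succ t ih =>
    have h1 : 2 * (t + 1) = 2 * t + 1 + 1 := by ring
    rw [h1, pre_succ, pre_succ, ih]
    have h2 : plII σ u g (2 * t) = σ (bl σ t u g) := by
      simp [plII]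
    have h3 : plII σ u g (2 * t + 1) = (∅, u t, g t) := by
      have : (2 * t + 1) / 2 = t := by omega
      have h4 : ¬ Even (2 * t + 1) := by simp
      simp only [plII, if_neg h4, this]
    rw [h2, h3]
    simp [bl]

theorem stratII_of (W : Set (ℕ → ℕ × M × M))
    (hσ : ∀ x : ℕ → Mv M, (∀ n, x (2 * n) = σ (pre x (2 * n))) → x ∈ WinSet U W) :
    StratII U W := by
  classical
  let d : M := Classical.arbitrary M
  refine ⟨fun l m => Xs U (σ (bl σ l.length (fun i => l.getD i 0) (fun i => m.getD i d))).1,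
    fun l m => (σ (bl σ l.length (fun i => l.getD i 0) (fun i => m.getD i d))).2.2,
    fun l m => Xs_mem _, ?_⟩
  intro u g g' hu hg
  have hbl : ∀ t, bl σ (pre u t).length (fun i => (pre u t).getD i 0)
      (fun i => (pre g t).getD i d) = bl σ t u g := by
    intro t
    rw [length_pre]
    exact bl_congr σ t (fun i hi => pre_getD u t i 0 hi) (fun i hi => pre_getD g t i d hi)
  have hx := hσ (plII σ u g) (fun t => by rw [pre_plII]; simp [plII])
  rcases hx with ⟨t, ht⟩ | hx
  · exfalso
    apply ht
    have h1 : (plII σ u g (2 * t + 1)).2.1 = u t := by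
      have : (2 * t + 1) / 2 = t := by omega
      have h4 : ¬ Even (2 * t + 1) := by simp
      simp only [plII, if_neg h4, this]
    have h2 : plII σ u g (2 * t) = σ (bl σ t u g) := by simp [plII]
    rw [h1, h2]
    have := hu t
    beta_reduce at this
    rw [hbl] at this
    exact this
  · have : trip (plII σ u g) = fun t => (u t, g t, g' t) := by
      funext t
      have h1 : plII σ u g (2 * t + 1) = (∅, u t, g t) := by
        have : (2 * t + 1) / 2 = t := by omega
        have h4 : ¬ Even (2 * t + 1) := by simp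
        simp only [plII, if_neg h4, this]
      have h2 : plII σ u g (2 * t + 2) = σ (bl σ (t + 1) u g) := by
        have : (2 * t + 2) / 2 = t + 1 := by omega
        have h4 : Even (2 * t + 2) := by
          rw [show 2 * t + 2 = 2 * (t + 1) by ring]; simp
        simp only [plII, if_pos h4, this]
      simp only [trip, h1, h2]
      rw [hg t]
      beta_reduce
      rw [hbl]
    rw [this] at hx
    exact hx

end CaseII

/-! ### case 2: the second mover (I) wins -/

section CaseI
variable (τ : List (Mv M) → Mv M)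

/-- history after `t` rounds, II plays `b`, I follows `τ` -/
noncomputable def hl : ℕ → (ℕ → Mv M) → List (Mv M)
  | 0, _ => []
  | t + 1, b => hl t b ++ [b t, τ (hl t b ++ [b t])]

omit [Nonempty M] in
theorem hl_congr (t : ℕ) {b b' : ℕ → Mv M} (h : ∀ i < t, b i = b' i) : hl τ t b = hl τ t b' := by
  induction t with
  | zero => rfl
  | succ t ih =>
    simp only [hl]
    rw [ih (fun i hi => h i (by omega)), h t (by omega)]

noncomputable def plI (b : ℕ → Mv M) (n : ℕ) : Mv M :=
  if Even n then b (n / 2) else τ (hl τ (n / 2) b ++ [b (n / 2)])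

omit [Nonempty M] in
theorem pre_plI (b : ℕ → Mv M) (t : ℕ) : pre (plI τ b) (2 * t) = hl τ t b := by
  induction t with
  | zero => simp [hl]
  | succ t ih =>
    have h1 : 2 * (t + 1) = 2 * t + 1 + 1 := by ring
    rw [h1, pre_succ, pre_succ, ih]
    have h2 : plI τ b (2 * t) = b t := by simp [plI]
    have h3 : plI τ b (2 * t + 1) = τ (hl τ t b ++ [b t]) := by
      have : (2 * t + 1) / 2 = t := by omega
      have h4 : ¬ Even (2 * t + 1) := by simp
      simp only [plI, if_neg h4, this]
    rw [h2, h3]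
    simp [hl]

variable {τ}

omit [Nonempty M] in
theorem plI_not_mem {W : Set (ℕ → ℕ × M × M)}
    (hτ : ∀ x : ℕ → Mv M, (∀ n, x (2 * n + 1) = τ (pre x (2 * n + 1))) → x ∉ WinSet U W)
    (b : ℕ → Mv M) : plI τ b ∉ WinSet U W := by
  apply hτ
  intro t
  rw [pre_succ, pre_plI]
  have h2 : plI τ b (2 * t) = b t := by simp [plI]
  have h3 : plI τ b (2 * t + 1) = τ (hl τ t b ++ [b t]) := by
    have : (2 * t + 1) / 2 = t := by omega
    have h4 : ¬ Even (2 * t + 1) := by simp
    simp only [plI, if_neg h4, this]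
  rw [h2, h3]

omit [Nonempty M] in
theorem resp_mem {W : Set (ℕ → ℕ × M × M)}
    (hτ : ∀ x : ℕ → Mv M, (∀ n, x (2 * n + 1) = τ (pre x (2 * n + 1))) → x ∉ WinSet U W)
    (t : ℕ) (b : ℕ → Mv M) (a : Mv M) : (τ (hl τ t b ++ [a])).2.1 ∈ Xs U a.1 := by
  classical
  let b' : ℕ → Mv M := fun s => if s < t then b s else a
  have h := plI_not_mem hτ b'
  have h1 : hl τ t b' = hl τ t b := hl_congr τ t fun i hi => by simp [b', hi]
  have h2 : b' t = a := by simp [b']
  by_contra hcon
  apply h
  left
  refine ⟨t, ?_⟩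
  have h3 : plI τ b' (2 * t + 1) = τ (hl τ t b' ++ [b' t]) := by
    have : (2 * t + 1) / 2 = t := by omega
    have h4 : ¬ Even (2 * t + 1) := by simp
    simp only [plI, if_neg h4, this]
  have h4 : plI τ b' (2 * t) = b' t := by simp [plI]
  rw [h3, h4, h1, h2]
  exact hcon

variable (U τ)

open Classical in
/-- II's demanded set realising the digit `d` -/
noncomputable def chs (h : List (Mv M)) (m : M) (d : ℕ) : Set ℕ :=
  if hd : ∃ X ∈ U, (τ (h ++ [(X, 0, m)])).2.1 = d then Classical.choose hd else Set.univ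

/-- the digits which can be realised -/
def Rs (h : List (Mv M)) (m : M) : Set ℕ := {d | ∃ X ∈ U, (τ (h ++ [(X, 0, m)])).2.1 = d}

omit [Nonempty M] in
theorem chs_spec {h : List (Mv M)} {m : M} {d : ℕ} (hd : d ∈ Rs U τ h m) :
    (τ (h ++ [(chs U τ h m d, 0, m)])).2.1 = d := by
  have hd' : ∃ X ∈ U, (τ (h ++ [(X, 0, m)])).2.1 = d := hd
  unfold chs
  rw [dif_pos hd']
  exact (Classical.choose_spec hd').2

/-- previous move of II -/
noncomputable def pm (g' : ℕ → M) (t : ℕ) : M := if t = 0 then Classical.arbitrary M else g' (t - 1)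

/-- II's moves realising the digits `u`, together with the ordinary moves `g'` -/
noncomputable def bm : ℕ → (ℕ → ℕ) → (ℕ → M) → List (Mv M)
  | 0, _, _ => []
  | t + 1, u, g' => bm t u g' ++
      [(chs U τ (hl τ t (fun i => (bm t u g').getD i (∅, 0, Classical.arbitrary M))) (pm g' t) (u t),
        0, pm g' t)]

@[simp] theorem length_bm (t : ℕ) (u : ℕ → ℕ) (g' : ℕ → M) : (bm U τ t u g').length = t := by
  induction t with
  | zero => rfl
  | succ t ih => simp [bm, ih]

theorem bm_congr (t : ℕ) {u u' : ℕ → ℕ} {g g' : ℕ → M} (hu : ∀ i < t, u i = u' i)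
    (hg : ∀ i, i + 1 < t → g i = g' i) : bm U τ t u g = bm U τ t u' g' := by
  induction t with
  | zero => rfl
  | succ t ih =>
    simp only [bm]
    have hpm : pm g t = pm g' t := by
      unfold pm
      split_ifs with h
      · rfl
      · exact hg _ (by omega)
    rw [ih (fun i hi => hu i (by omega)) (fun i hi => hg i (by omega)), hu t (by omega), hpm]

/-- II's moves as a function -/
noncomputable def bf (u : ℕ → ℕ) (g' : ℕ → M) (i : ℕ) : Mv M :=
  (bm U τ (i + 1) u g').getD i (∅, 0, Classical.arbitrary M)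

theorem bm_getD (u : ℕ → ℕ) (g' : ℕ → M) (t i : ℕ) (h : i < t) :
    (bm U τ t u g').getD i (∅, 0, Classical.arbitrary M) = bf U τ u g' i := by
  induction t with
  | zero => omega
  | succ t ih =>
    rcases Nat.lt_or_ge i t with h1 | h1
    · rw [← ih h1]
      simp only [bm]
      rw [List.getD_append _ _ _ _ (by simpa using h1)]
    · have : i = t := by omega
      subst this
      rfl

theorem hl_bm (u : ℕ → ℕ) (g' : ℕ → M) (t : ℕ) :
    hl τ t (fun i => (bm U τ t u g').getD i (∅, 0, Classical.arbitrary M)) =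
      hl τ t (bf U τ u g') :=
  hl_congr τ t fun i hi => bm_getD U τ u g' t i hi

theorem bf_eq (u : ℕ → ℕ) (g' : ℕ → M) (t : ℕ) :
    bf U τ u g' t = (chs U τ (hl τ t (bf U τ u g')) (pm g' t) (u t), 0, pm g' t) := by
  have h : (bm U τ (t + 1) u g').getD t (∅, 0, Classical.arbitrary M) =
      (chs U τ (hl τ t (fun i => (bm U τ t u g').getD i (∅, 0, Classical.arbitrary M)))
        (pm g' t) (u t), 0, pm g' t) := by
    simp only [bm]
    rw [List.getD_append_right _ _ _ _ (by simp)]
    simp
  unfold bf at h ⊢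
  rw [h]
  have := hl_bm U τ u g' t
  unfold bf at this
  rw [this]

variable {U τ}

theorem stratI_of (W : Set (ℕ → ℕ × M × M))
    (hτ : ∀ x : ℕ → Mv M, (∀ n, x (2 * n + 1) = τ (pre x (2 * n + 1))) → x ∉ WinSet U W) :
    StratI U W := by
  classical
  let d : M := Classical.arbitrary M
  let F : List ℕ → List M → ℕ → List (Mv M) := fun l m t =>
    hl τ t (bf U τ (fun i => l.getD i 0) (fun i => m.getD i d))
  refine ⟨fun l m => Rs U τ (F l m l.length) (pm (fun i => m.getD i d) l.length),
    fun l m => (τ (F l m (l.length - 1) ++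
      [bf U τ (fun i => l.getD i 0) (fun i => m.getD i d) (l.length - 1)])).2.2, ?_, ?_⟩
  · intro l m
    by_contra hR
    have hc : (Rs U τ (F l m l.length) (pm (fun i => m.getD i d) l.length))ᶜ ∈ U :=
      Ultrafilter.compl_mem_iff_notMem.mpr hR
    have h1 := resp_mem (U := U) hτ l.length
      (bf U τ (fun i => l.getD i 0) (fun i => m.getD i d))
      ((Rs U τ (F l m l.length) (pm (fun i => m.getD i d) l.length))ᶜ, 0,
        pm (fun i => m.getD i d) l.length)
    rw [Xs_eq hc] at h1
    exact h1 ⟨_, hc, rfl⟩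
  · intro u g g' hu hg
    -- agreement of the finite data with the infinite ones
    have hbfc : ∀ (t s : ℕ), s ≤ t → ∀ (r : ℕ), s ≤ r + 1 →
        ∀ i < s, bf U τ (fun i => (pre u t).getD i 0) (fun i => (pre g' r).getD i d) i =
          bf U τ u g' i := by
      intro t s hst r hsr i hi
      unfold bf
      congr 1
      refine bm_congr U τ (i + 1) (fun j hj => pre_getD u t j 0 (by omega)) ?_
      intro j hj
      exact pre_getD g' r j d (by omega)
    have hF : ∀ t, F (pre u t) (pre g' t) t = hl τ t (bf U τ u g') := by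
      intro t
      exact hl_congr τ t (hbfc t t le_rfl t (by omega))
    have hF2 : ∀ t, F (pre u (t + 1)) (pre g' t) t = hl τ t (bf U τ u g') := by
      intro t
      exact hl_congr τ t (hbfc (t + 1) t (by omega) t (by omega))
    have hpm : ∀ t, pm (fun i => (pre g' t).getD i d) t = pm g' t := by
      intro t
      unfold pm
      split_ifs with h
      · rfl
      · exact pre_getD g' t (t - 1) d (by omega)
    have hdig : ∀ t, (τ (hl τ t (bf U τ u g') ++ [bf U τ u g' t])).2.1 = u t := by
      intro t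
      have h1 := hu t
      simp only [length_pre] at h1
      rw [hF, hpm] at h1
      rw [bf_eq]
      exact chs_spec U τ h1
    have hg2 : ∀ t, g t = (τ (hl τ t (bf U τ u g') ++ [bf U τ u g' t])).2.2 := by
      intro t
      rw [hg t]
      simp only [length_pre, Nat.add_sub_cancel]
      rw [hF2, hbfc (t + 1) (t + 1) le_rfl t (by omega) t (by omega)]
    have hx := plI_not_mem hτ (bf U τ u g')
    have htrip : trip (plI τ (bf U τ u g')) = fun t => (u t, g t, g' t) := by
      funext t
      have h1 : plI τ (bf U τ u g') (2 * t + 1) =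
          τ (hl τ t (bf U τ u g') ++ [bf U τ u g' t]) := by
        have : (2 * t + 1) / 2 = t := by omega
        have h4 : ¬ Even (2 * t + 1) := by simp
        simp only [plI, if_neg h4, this]
      have h2 : plI τ (bf U τ u g') (2 * t + 2) = bf U τ u g' (t + 1) := by
        have : (2 * t + 2) / 2 = t + 1 := by omega
        have h4 : Even (2 * t + 2) := by
          rw [show 2 * t + 2 = 2 * (t + 1) by ring]; simp
        simp only [plI, if_pos h4, this]
      simp only [trip, h1, h2]
      rw [hdig, ← hg2, bf_eq]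
      simp [pm]
    by_contra hcon
    apply hx
    right
    rw [htrip]
    exact hcon

end CaseI

/-- digit dichotomy -/
theorem digit_dichotomy (hdet : BorelDet) (U : Ultrafilter ℕ) (W : Set (ℕ → ℕ × M × M))
    (hW : MeasurableSet[dBorel (ℕ × M × M)] W) : StratI U W ∨ StratII U W := by
  rcases hdet (Mv M) (WinSet U W) (measurable_winSet hW) with ⟨σ, hσ⟩ | ⟨τ, hτ⟩
  · exact Or.inr (stratII_of σ W hσ)
  · exact Or.inl (stratI_of W hτ)

end

end Pool.Agent.H81.BCI
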