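import Pool.Agent.H81.BCI.Defs
import Pool.Agent.H8.BCI.An

/-!
A Borel map into Borel codes gives a uniformly Borel family of sets.
-/

namespace Pool.Agent.H81.BCI

open Set MeasureTheory
open Pool.Agent.H8.BCI (An)

/-- subcodes -/
def nodeC (c : ℕ → ℕ) : List ℕ → ℕ → ℕ
  | [] => c
  | j :: l => fun m => if nodeC c l 0 = 1 then nodeC c l (m + 1) else nodeC c l (Nat.pair j m + 1)

/-- paths through inner nodes -/
def VPath (c : ℕ → ℕ) : List ℕ → Prop
  | [] => True
  | _ :: l => VPath c l ∧ nodeC c l 0 ≠ 0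

/-- evaluations of a code at a point -/
def Cons (c : ℕ → ℕ) (p : (ℕ → Bool) × (ℕ → Bool)) (v : List ℕ → Bool) : Prop :=
  ∀ l, VPath c l →
    (nodeC c l 0 = 0 → nodeC c l 1 = 0 → v l = p.1 (nodeC c l 2)) ∧
    (nodeC c l 0 = 0 → nodeC c l 1 ≠ 0 → v l = p.2 (nodeC c l 2)) ∧
    (nodeC c l 0 = 1 → v l = !v (0 :: l)) ∧
    (2 ≤ nodeC c l 0 → (v l = true ↔ ∃ j, v (j :: l) = true))

theorem cons_val {c : ℕ → ℕ} {p : (ℕ → Bool) × (ℕ → Bool)} {v : List ℕ → Bool}
    (hv : Cons c p v) {d : ℕ → ℕ} {A : Set ((ℕ → Bool) × (ℕ → Bool))} (hd : IsCode d A) :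
    ∀ l, VPath c l → nodeC c l = d → (v l = true ↔ p ∈ A) := by
  induction hd with
  | fst c' h0 h1 =>
    rintro l hl rfl
    rw [(hv l hl).1 h0 h1]
    rfl
  | snd c' h0 h1 =>
    rintro l hl rfl
    rw [(hv l hl).2.1 h0 h1]
    rfl
  | compl c' h0 A h ih =>
    rintro l hl rfl
    rw [(hv l hl).2.2.1 h0]
    have h1 := ih (0 :: l) ⟨hl, by omega⟩ (by
      funext m
      simp only [nodeC]
      rw [if_pos h0])
    rw [Bool.not_eq_true', mem_compl_iff, ← h1]
    simp
  | iUnion c' h0 A h ih =>
    rintro l hl rfl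
    rw [(hv l hl).2.2.2 h0, mem_iUnion]
    refine exists_congr fun j => ?_
    exact ih j (j :: l) ⟨hl, by omega⟩ (by
      funext m
      simp only [nodeC]
      rw [if_neg (by omega)])

theorem isCode_unique {d : ℕ → ℕ} {A A' : Set ((ℕ → Bool) × (ℕ → Bool))} (h : IsCode d A)
    (h' : IsCode d A') : A = A' := by
  induction h generalizing A' with
  | fst c h0 h1 =>
    cases h' with
    | fst _ _ _ => rfl
    | snd _ _ h1' => exact absurd h1 h1'
    | compl _ h0' _ _ => omega
    | iUnion _ h0' _ _ => omega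
  | snd c h0 h1 =>
    cases h' with
    | fst _ _ h1' => exact absurd h1' h1
    | snd _ _ _ => rfl
    | compl _ h0' _ _ => omega
    | iUnion _ h0' _ _ => omega
  | compl c h0 A h ih =>
    cases h' with
    | fst _ h0' _ => omega
    | snd _ h0' _ => omega
    | compl _ _ A' h' => rw [ih h']
    | iUnion _ h0' _ _ => omega
  | iUnion c h0 A h ih =>
    cases h' with
    | fst _ h0' _ => omega
    | snd _ h0' _ => omega
    | compl _ h0' _ _ => omega
    | iUnion _ _ A' h' =>
      congr 1
      funext j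
      exact ih j (h' j)

theorem isCode_node {c : ℕ → ℕ} {A : Set ((ℕ → Bool) × (ℕ → Bool))} (h : IsCode c A) :
    ∀ l, VPath c l → ∃ A', IsCode (nodeC c l) A' := by
  intro l
  induction l with
  | nil => intro _; exact ⟨A, h⟩
  | cons j l ih =>
    rintro ⟨hl, h0⟩
    obtain ⟨A', hA'⟩ := ih hl
    generalize hd : nodeC c l = d at hA' h0
    have hn : nodeC c (j :: l) = fun m => if d 0 = 1 then d (m + 1) else d (Nat.pair j m + 1) := by
      funext m
      simp only [nodeC, hd]
    rw [hn]
    cases hA' with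
    | fst _ h0' _ => exact absurd h0' h0
    | snd _ h0' _ => exact absurd h0' h0
    | compl _ h0' A' h' =>
      refine ⟨A', ?_⟩
      simp only [h0', if_true]
      exact h'
    | iUnion _ h0' A' h' =>
      refine ⟨A' j, ?_⟩
      simp only [show d 0 ≠ 1 by omega, if_false]
      exact h' j

theorem exists_cons {c : ℕ → ℕ} {A : Set ((ℕ → Bool) × (ℕ → Bool))} (h : IsCode c A)
    (p : (ℕ → Bool) × (ℕ → Bool)) : ∃ v, Cons c p v := by
  classical
  have hch : ∀ l, ∃ A', VPath c l → IsCode (nodeC c l) A' := by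
    intro l
    by_cases hl : VPath c l
    · obtain ⟨A', hA'⟩ := isCode_node h l hl
      exact ⟨A', fun _ => hA'⟩
    · exact ⟨∅, fun h => absurd h hl⟩
  choose A' hA' using hch
  refine ⟨fun l => decide (p ∈ A' l), fun l hl => ?_⟩
  have h1 := hA' l hl
  beta_reduce
  refine ⟨fun h0 h1' => ?_, fun h0 h1' => ?_, fun h0 => ?_, fun h0 => ?_⟩
  · rw [isCode_unique h1 (IsCode.fst _ h0 h1')]
    simp
  · rw [isCode_unique h1 (IsCode.snd _ h0 h1')]
    simp
  · have h2 := hA' (0 :: l) ⟨hl, by omega⟩
    have h3 : nodeC c (0 :: l) = fun m => nodeC c l (m + 1) := by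
      funext m
      simp only [nodeC]
      rw [if_pos h0]
    rw [h3] at h2
    rw [isCode_unique h1 (IsCode.compl _ h0 _ h2)]
    simp
  · have h2 : ∀ j, IsCode (fun m => nodeC c l (Nat.pair j m + 1)) (A' (j :: l)) := by
      intro j
      have h2 := hA' (j :: l) ⟨hl, by omega⟩
      have h3 : nodeC c (j :: l) = fun m => nodeC c l (Nat.pair j m + 1) := by
        funext m
        simp only [nodeC]
        rw [if_neg (by omega)]
      rw [h3] at h2
      exact h2
    rw [isCode_unique h1 (IsCode.iUnion _ h0 _ h2)]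
    simp

theorem measurable_nodeC (l : List ℕ) (m : ℕ) : Measurable fun c : ℕ → ℕ => nodeC c l m := by
  induction l generalizing m with
  | nil => exact measurable_pi_apply m
  | cons j l ih =>
    simp only [nodeC]
    exact Measurable.ite (ih 0 (measurableSet_singleton 1)) (ih _) (ih _)

theorem measurableSet_vpath (l : List ℕ) : MeasurableSet {c : ℕ → ℕ | VPath c l} := by
  induction l with
  | nil => exact MeasurableSet.const True
  | cons j l ih =>
    exact ih.inter (measurable_nodeC l 0 (measurableSet_singleton 0)).compl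

theorem measurable_eval_nat : Measurable fun q : (ℕ → Bool) × ℕ => q.1 q.2 :=
  measurable_from_prod_countable_left fun n => measurable_pi_apply n

theorem measurableSet_cons {P : Type} [MeasurableSpace P] {c : P → ℕ → ℕ}
    {p : P → (ℕ → Bool) × (ℕ → Bool)} {v : P → List ℕ → Bool} (hc : Measurable c)
    (hp : Measurable p) (hv : Measurable v) : MeasurableSet {q | Cons (c q) (p q) (v q)} := by
  have hn : ∀ l m, Measurable fun q => nodeC (c q) l m := fun l m =>
    (measurable_nodeC l m).comp hc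
  have hvl : ∀ l, Measurable fun q => v q l := fun l => (measurable_pi_apply l).comp hv
  have e1 : ∀ l, MeasurableSet {q | (v q l) = (p q).1 (nodeC (c q) l 2)} := fun l =>
    measurableSet_eq_fun (hvl l)
      (measurable_eval_nat.comp ((measurable_fst.comp hp).prodMk (hn l 2)))
  have e2 : ∀ l, MeasurableSet {q | (v q l) = (p q).2 (nodeC (c q) l 2)} := fun l =>
    measurableSet_eq_fun (hvl l)
      (measurable_eval_nat.comp ((measurable_snd.comp hp).prodMk (hn l 2)))
  have e3 : ∀ l, MeasurableSet {q | (v q l) = !(v q (0 :: l))} := fun l =>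
    measurableSet_eq_fun (hvl l) ((measurable_from_top (f := Bool.not)).comp (hvl _))
  have e4 : ∀ l, MeasurableSet {q | v q l = true ↔ ∃ j, v q (j :: l) = true} := by
    intro l
    have h1 : MeasurableSet {q | v q l = true} := hvl l (measurableSet_singleton true)
    have h2 : MeasurableSet {q | ∃ j, v q (j :: l) = true} := by
      rw [Set.ofPred_exists]
      exact MeasurableSet.iUnion fun j => hvl _ (measurableSet_singleton true)
    have : {q | v q l = true ↔ ∃ j, v q (j :: l) = true} =
        ({q | v q l = true} ∩ {q | ∃ j, v q (j :: l) = true}) ∪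
        ({q | v q l = true}ᶜ ∩ {q | ∃ j, v q (j :: l) = true}ᶜ) := by
      ext q
      simp only [mem_union, mem_inter_iff, mem_compl_iff, Set.mem_ofPred_eq]
      tauto
    rw [this]
    exact (h1.inter h2).union (h1.compl.inter h2.compl)
  have n0 : ∀ l (s : Set ℕ) m, MeasurableSet {q | nodeC (c q) l m ∈ s} := fun l s m =>
    hn l m (MeasurableSet.of_discrete (s := s))
  unfold Cons
  simp only [Set.ofPred_forall]
  have imp : ∀ {R S : Set P}, MeasurableSet R → MeasurableSet S →
      MeasurableSet {q | q ∈ R → q ∈ S} := by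
    intro R S hR hS
    have : {q | q ∈ R → q ∈ S} = Rᶜ ∪ S := by
      ext q
      simp only [Set.mem_ofPred_eq, mem_union, mem_compl_iff]
      tauto
    rw [this]
    exact hR.compl.union hS
  refine MeasurableSet.iInter fun l => ?_
  refine imp (R := {q | VPath (c q) l}) (hc (measurableSet_vpath l)) (S := _) ?_
  refine MeasurableSet.inter ?_ (MeasurableSet.inter ?_ (MeasurableSet.inter ?_ ?_))
  · exact imp (R := {q | nodeC (c q) l 0 = 0}) (n0 l {0} 0)
      (imp (R := {q | nodeC (c q) l 1 = 0}) (n0 l {0} 1) (e1 l))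
  · exact imp (R := {q | nodeC (c q) l 0 = 0}) (n0 l {0} 0)
      (imp (R := {q | nodeC (c q) l 1 ≠ 0}) (n0 l {0}ᶜ 1) (e2 l))
  · exact imp (R := {q | nodeC (c q) l 0 = 1}) (n0 l {1} 0) (e3 l)
  · exact imp (R := {q | 2 ≤ nodeC (c q) l 0}) (n0 l {m | 2 ≤ m} 0) (e4 l)

/-- a Borel map into codes gives a uniformly Borel family -/
theorem measurableSet_of_codes (f : (ℕ → Bool) → ℕ → ℕ) (hf : Measurable f)
    (A : (ℕ → Bool) → Set ((ℕ → Bool) × (ℕ → Bool))) (hA : ∀ x, IsCode (f x) (A x)) :
    MeasurableSet {p : (ℕ → Bool) × ((ℕ → Bool) × (ℕ → Bool)) | p.2 ∈ A p.1} := by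
  have key : ∀ b : Bool, An {p : (ℕ → Bool) × ((ℕ → Bool) × (ℕ → Bool)) |
      ∃ v : List ℕ → Bool, (p, v) ∈ {q : ((ℕ → Bool) × ((ℕ → Bool) × (ℕ → Bool))) ×
        (List ℕ → Bool) | Cons (f q.1.1) q.1.2 q.2 ∧ q.2 [] = b}} := by
    intro b
    refine An.proj (An.of_measurableSet ?_)
    refine MeasurableSet.inter ?_ ?_
    · exact measurableSet_cons (hf.comp (measurable_fst.comp measurable_fst))
        (measurable_snd.comp measurable_fst) measurable_snd
    · have h1 : Measurable fun q : ((ℕ → Bool) × ((ℕ → Bool) × (ℕ → Bool))) ×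
          (List ℕ → Bool) => q.2 [] := (measurable_pi_apply _).comp measurable_snd
      exact h1 (measurableSet_singleton b)
  have h1 : ∀ (p : (ℕ → Bool) × ((ℕ → Bool) × (ℕ → Bool))) (v : List ℕ → Bool),
      Cons (f p.1) p.2 v → (v [] = true ↔ p.2 ∈ A p.1) := fun p v hv =>
    cons_val hv (hA p.1) [] trivial rfl
  refine An.measurableSet ?_ ?_
  · have := key true
    refine cast (congrArg An ?_) this
    ext p
    constructor
    · rintro ⟨v, hv, hv'⟩
      exact (h1 p v hv).1 hv'
    · intro hp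
      obtain ⟨v, hv⟩ := exists_cons (hA p.1) p.2
      exact ⟨v, hv, (h1 p v hv).2 hp⟩
  · have := key false
    refine cast (congrArg An ?_) this
    ext p
    constructor
    · rintro ⟨v, hv, hv'⟩ hp
      have h2 := (h1 p v hv).2 hp
      have hv' : v [] = false := hv'
      rw [h2] at hv'
      exact absurd hv' (by decide)
    · intro hp
      obtain ⟨v, hv⟩ := exists_cons (hA p.1) p.2
      refine ⟨v, hv, ?_⟩
      by_contra hcon
      exact hp ((h1 p v hv).1 (by simpa using hcon))

end Pool.Agent.H81.BCI
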