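import Pool.Agent.H81.BCI.GZero
import Pool.Agent.H8.BCI.Coding

/-!
The graph `G_0` has no countable Borel colouring; there is a Sigma^1_2 set whose complement is not
Sigma^1_2.
-/

namespace Pool.Agent.H81.BCI

open Set MeasureTheory Topology Filter

theorem exists_sq : ∃ sq : ℕ → ℕ → Bool, ∀ (n : ℕ) (t : ℕ → Bool), ∃ m, n ≤ m ∧
    ∀ i < n, sq m i = t i := by
  refine ⟨fun m i => ((Encodable.decode (α := List Bool) m.unpair.1).getD []).getD i false, ?_⟩
  intro n t
  refine ⟨Nat.pair (Encodable.encode (List.ofFn fun i : Fin n => t i)) n, Nat.right_le_pair _ _, ?_⟩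
  intro i hi
  simp only [Nat.unpair_pair, Encodable.encodek, Option.getD_some]
  rw [List.getD_eq_getElem _ _ (by simpa using hi)]
  simp

theorem flipAt_flipAt (n : ℕ) (z : ℕ → Bool) : flipAt n (flipAt n z) = z := by
  unfold flipAt
  simp

theorem continuous_flipAt (n : ℕ) : Continuous (flipAt n) := by
  refine continuous_pi fun i => ?_
  by_cases h : i = n
  · subst h
    simp only [flipAt, Function.update_self]
    exact (continuous_of_discreteTopology (f := fun b : Bool => !b)).comp (continuous_apply _)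
  · simp only [flipAt, Function.update_of_ne h]
    exact continuous_apply _

/-- flipping as a homeomorphism -/
def flipHomeo (n : ℕ) : (ℕ → Bool) ≃ₜ (ℕ → Bool) where
  toFun := flipAt n
  invFun := flipAt n
  left_inv := flipAt_flipAt n
  right_inv := flipAt_flipAt n
  continuous_toFun := continuous_flipAt n
  continuous_invFun := continuous_flipAt n

theorem g0_not_colourable (sq : ℕ → ℕ → Bool)
    (hsq : ∀ (n : ℕ) (t : ℕ → Bool), ∃ m, n ≤ m ∧ ∀ i < n, sq m i = t i) :
    ¬ ∃ c : (ℕ → Bool) → ℕ, Measurable c ∧ ∀ n z, (∀ i < n, z i = sq n i) → z n = false →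
      c z ≠ c (flipAt n z) := by
  rintro ⟨c, hc, hcol⟩
  have h1 : ∀ m : ℕ, ∃ U : Set (ℕ → Bool), IsOpen U ∧ c ⁻¹' {m} =ᶠ[residual _] U := fun m =>
    MeasurableSet.residualEq_isOpen (hc (measurableSet_singleton m))
  choose U hU hcU using h1
  -- some class is not meagre
  obtain ⟨m, z0, hz0⟩ : ∃ m z, z ∈ U m := by
    by_contra hcon
    push Not at hcon
    have h2 : ∀ᶠ z in residual (ℕ → Bool), ∀ m, (c ⁻¹' {m}) z = (U m) z :=
      eventually_countable_forall.mpr hcU
    obtain ⟨z, hz⟩ := (dense_of_mem_residual h2).nonempty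
    have hz : ∀ m, (c ⁻¹' {m}) z = (U m) z := hz
    have h3 : (c ⁻¹' {c z}) z := rfl
    rw [hz] at h3
    exact hcon _ _ h3
  -- a basic open set inside
  obtain ⟨n0, hn0⟩ : ∃ n0, ∀ z : ℕ → Bool, (∀ i < n0, z i = z0 i) → z ∈ U m := by
    have h2 : U m ∈ 𝓝 z0 := (hU m).mem_nhds hz0
    rw [nhds_pi, Filter.mem_pi] at h2
    obtain ⟨I, hI, t, ht, hsub⟩ := h2
    obtain ⟨n0, hn0⟩ := hI.bddAbove
    refine ⟨n0 + 1, fun z hz => hsub fun i hi => ?_⟩
    rw [hz i (by have := hn0 hi; omega)]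
    exact mem_of_mem_nhds (ht i)
  obtain ⟨n, hn, hsn⟩ := hsq n0 z0
  let W : Set (ℕ → Bool) := {z | ∀ i < n, z i = sq n i}
  have hW : IsOpen W := by
    have : W = ⋂ i ∈ Finset.range n, {z : ℕ → Bool | z i = sq n i} := by
      ext z; simp [W]
    rw [this]
    refine isOpen_biInter_finset fun i _ => ?_
    have h1 : Continuous fun z : ℕ → Bool => z i := continuous_apply i
    exact h1.isOpen_preimage {sq n i} (isOpen_discrete _)
  have hWU : W ⊆ U m := fun z hz => hn0 z fun i hi => by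
    rw [hz i (by omega), hsn i hi]
  have hne : W.Nonempty := ⟨sq n, fun _ _ => rfl⟩
  have hres : ∀ᶠ z in residual (ℕ → Bool), (z ∈ W → c z = m) := by
    filter_upwards [hcU m] with z hz hzW
    have h2 : (U m) z := hWU hzW
    rw [← hz] at h2
    exact h2
  have hres2 : ∀ᶠ z in residual (ℕ → Bool), (flipAt n z ∈ W → c (flipAt n z) = m) := by
    have h2 := (flipHomeo n).residual_map_eq
    have h3 : Tendsto (flipAt n) (residual (ℕ → Bool)) (residual (ℕ → Bool)) := by
      rw [Tendsto]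
      exact le_of_eq h2
    exact h3.eventually hres
  obtain ⟨z, hzW, hz1, hz2⟩ : ∃ z, z ∈ W ∧ (z ∈ W → c z = m) ∧
      (flipAt n z ∈ W → c (flipAt n z) = m) := by
    have h2 := dense_of_mem_residual (hres.and hres2)
    obtain ⟨z, hz, hz'⟩ := h2.inter_open_nonempty W hW hne
    exact ⟨z, hz, hz'.1, hz'.2⟩
  have hfW : flipAt n z ∈ W := by
    intro i hi
    unfold flipAt
    rw [Function.update_of_ne (by omega)]
    exact hzW i hi
  have e1 := hz1 hzW
  have e2 := hz2 hfW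
  by_cases hb : z n = false
  · exact hcol n z hzW hb (e1.trans e2.symm)
  · have hb' : flipAt n z n = false := by
      simp [flipAt] at hb ⊢
      exact hb
    have := hcol n (flipAt n z) hfW hb'
    rw [flipAt_flipAt] at this
    exact this (e2.trans e1.symm)

/-! ### A Sigma^1_2 set with non Sigma^1_2 complement -/

open Pool.Agent.H8.BCI in
theorem exists_sigma12_not_compl : ∃ B : Set (ℕ → Bool), Sigma12 B ∧ ¬ Sigma12 Bᶜ := by
  classical
  let dec : (ℕ → Bool) → K := fun x p => x (Encodable.encode p)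
  have hdec : Measurable dec := measurable_pi_iff.mpr fun p => measurable_pi_apply _
  have hsurj : Function.Surjective dec := by
    intro a
    refine ⟨fun n => ((Encodable.decode (α := List ℕ × List ℕ) n).map a).getD false, ?_⟩
    funext p
    show ((Encodable.decode (α := List ℕ × List ℕ) (Encodable.encode p)).map a).getD false = a p
    rw [Encodable.encodek]
    rfl
  let P : Set ((ℕ → Bool) × (ℕ → ℕ)) := {p | Br (Tr (dec p.1) (jx p.1 p.2))}
  have hP : AnalyticSet P := by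
    have hm : MeasurableSet {q : ((ℕ → Bool) × (ℕ → ℕ)) × (ℕ → ℕ) |
        ∀ m, rs q.2 m ∈ Tr (dec q.1.1) (jx q.1.1 q.1.2)} := by
      have h1 : BT (fun q : ((ℕ → Bool) × (ℕ → ℕ)) × (ℕ → ℕ) =>
          Tr (dec q.1.1) (jx q.1.1 q.1.2)) :=
        bt_Tr (hdec.comp (measurable_fst.comp measurable_fst))
          (measurable_jx (measurable_fst.comp measurable_fst)
            (measurable_snd.comp measurable_fst))
      have h2 : {q : ((ℕ → Bool) × (ℕ → ℕ)) × (ℕ → ℕ) |
          ∀ m, rs q.2 m ∈ Tr (dec q.1.1) (jx q.1.1 q.1.2)} =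
          ⋂ m : ℕ, ⋃ s : List ℕ, ({q | rs q.2 m = s} ∩
            {q | s ∈ Tr (dec q.1.1) (jx q.1.1 q.1.2)}) := by
        ext q
        simp
      rw [h2]
      exact MeasurableSet.iInter fun m => MeasurableSet.iUnion fun s =>
        (meas_rs measurable_snd m s).inter (h1 s)
    have : P = Prod.fst '' {q : ((ℕ → Bool) × (ℕ → ℕ)) × (ℕ → ℕ) |
        ∀ m, rs q.2 m ∈ Tr (dec q.1.1) (jx q.1.1 q.1.2)} := by
      ext p
      constructor
      · rintro ⟨v, hv⟩
        exact ⟨(p, v), hv, rfl⟩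
      · rintro ⟨⟨p', v⟩, hv, rfl⟩
        exact ⟨v, hv⟩
    rw [this]
    exact MeasurableSet.analyticSet_image hm measurable_fst
  refine ⟨{x | ∃ y, (x, y) ∉ P}, ⟨P, hP, rfl⟩, ?_⟩
  rintro ⟨Q, hQ, hcompl⟩
  obtain ⟨b, hb⟩ := Pool.Agent.H8.BCI.exists_code (hQ.image_of_continuous continuous_jx)
  obtain ⟨x, hx⟩ := hsurj b
  have hQ' : ∀ y, (x, y) ∈ Q ↔ (x, y) ∈ P := by
    intro y
    show _ ↔ Br (Tr (dec x) (jx x y))
    rw [hx, ← hb]
    constructor
    · intro h; exact ⟨(x, y), h, rfl⟩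
    · rintro ⟨⟨x', y'⟩, h, he⟩
      obtain ⟨rfl, rfl⟩ := jx_inj he
      exact h
  have h1 : x ∈ ({x | ∃ y, (x, y) ∉ P} : Set (ℕ → Bool))ᶜ ↔ ∃ y, (x, y) ∉ Q := by
    rw [hcompl]; rfl
  have h2 : x ∈ ({x | ∃ y, (x, y) ∉ P} : Set (ℕ → Bool)) ↔ ∃ y, (x, y) ∉ Q := by
    constructor
    · rintro ⟨y, hy⟩
      exact ⟨y, fun h => hy ((hQ' y).1 h)⟩
    · rintro ⟨y, hy⟩
      exact ⟨y, fun h => hy ((hQ' y).2 h)⟩
  rw [mem_compl_iff, h2] at h1
  tauto

end Pool.Agent.H81.BCI
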