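import Pool.Agent.H81.BCI.GCode

/-!
Lines: Borel edge colourings of 2-regular graphs with two colours and countable Borel colourings of
the odd distance relation.
-/

namespace Pool.Agent.H81.BCI

open Set MeasureTheory
open Pool.Agent.H8.BCI (An)

section one
variable {X : Type} (G : SimpleGraph X)

open Classical in
/-- the other neighbour of `b` -/
noncomputable def nxt (a b : X) : X := if h : ∃ c, G.Adj b c ∧ c ≠ a then h.choose else a

theorem two_nb (h2 : ∀ v, (G.neighborSet v).ncard = 2) {a b : X} (hab : G.Adj a b) :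
    ∃ c, (G.Adj b c ∧ c ≠ a) ∧ ∀ c', G.Adj b c' → c' ≠ a → c' = c := by
  obtain ⟨u, w, huw, hs⟩ := Set.ncard_eq_two.mp (h2 b)
  have hm : ∀ c, G.Adj b c ↔ c = u ∨ c = w := by
    intro c
    have : c ∈ G.neighborSet b ↔ c ∈ ({u, w} : Set X) := by rw [hs]
    simpa using this
  rcases (hm a).1 hab.symm with rfl | rfl
  · refine ⟨w, ⟨(hm w).2 (Or.inr rfl), huw.symm⟩, fun c' h h' => ?_⟩
    rcases (hm c').1 h with rfl | rfl
    · exact absurd rfl h'
    · rfl
  · refine ⟨u, ⟨(hm u).2 (Or.inl rfl), huw⟩, fun c' h h' => ?_⟩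
    rcases (hm c').1 h with rfl | rfl
    · rfl
    · exact absurd rfl h'

theorem nxt_spec (h2 : ∀ v, (G.neighborSet v).ncard = 2) {a b : X} (hab : G.Adj a b) :
    G.Adj b (nxt G a b) ∧ nxt G a b ≠ a := by
  obtain ⟨c, hc, _⟩ := two_nb G h2 hab
  have h : ∃ c, G.Adj b c ∧ c ≠ a := ⟨c, hc⟩
  unfold nxt
  rw [dif_pos h]
  exact h.choose_spec

theorem nxt_unique (h2 : ∀ v, (G.neighborSet v).ncard = 2) {a b c : X} (hab : G.Adj a b)
    (hbc : G.Adj b c) (hc : c ≠ a) : nxt G a b = c := by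
  obtain ⟨d, hd, hd'⟩ := two_nb G h2 hab
  obtain ⟨h1, h3⟩ := nxt_spec G h2 hab
  rw [hd' _ h1 h3, hd' _ hbc hc]

open Classical in
/-- the successor map on darts -/
noncomputable def sdart (e : X × X) : X × X := if G.Adj e.1 e.2 then (e.2, nxt G e.1 e.2) else e

theorem sdart_inv (h2 : ∀ v, (G.neighborSet v).ncard = 2) (e : X × X) :
    Prod.swap (sdart G (Prod.swap (sdart G e))) = e := by
  obtain ⟨a, b⟩ := e
  by_cases h : G.Adj a b
  · obtain ⟨h1, h3⟩ := nxt_spec G h2 h
    have e1 : sdart G (a, b) = (b, nxt G a b) := if_pos h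
    rw [e1]
    have e2 : sdart G (Prod.swap (b, nxt G a b)) = (b, nxt G (nxt G a b) b) :=
      if_pos (show G.Adj (nxt G a b) b from h1.symm)
    rw [e2, nxt_unique G h2 h1.symm h.symm h3.symm]
    rfl
  · have e1 : sdart G (a, b) = (a, b) := if_neg h
    rw [e1]
    have e2 : sdart G (Prod.swap (a, b)) = (b, a) := if_neg (fun h' : G.Adj b a => h h'.symm)
    rw [e2]
    rfl

/-- the successor permutation -/
noncomputable def TT (h2 : ∀ v, (G.neighborSet v).ncard = 2) : Equiv.Perm (X × X) where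
  toFun := sdart G
  invFun e := Prod.swap (sdart G (Prod.swap e))
  left_inv e := sdart_inv G h2 e
  right_inv e := by
    have := sdart_inv G h2 (Prod.swap e)
    have h := congrArg Prod.swap this
    rw [Prod.swap_swap, Prod.swap_swap] at h
    exact h

/-- the reversal -/
def RR : Equiv.Perm (X × X) := Equiv.prodComm X X

theorem RR_apply (e : X × X) : RR e = Prod.swap e := rfl

theorem RR_RR (e : X × X) : RR (RR e) = e := Prod.swap_swap e

variable (h2 : ∀ v, (G.neighborSet v).ncard = 2)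

theorem TT_apply {a b : X} (h : G.Adj a b) : TT G h2 (a, b) = (b, nxt G a b) := if_pos h

theorem TT_inv (e : X × X) : (TT G h2)⁻¹ e = RR (TT G h2 (RR e)) := rfl

theorem conj (k : ℤ) (e : X × X) : (TT G h2 ^ k) (RR e) = RR ((TT G h2 ^ (-k)) e) := by
  induction k using Int.induction_on generalizing e with
  | zero => simp
  | succ k ih =>
    rw [zpow_add_one, Equiv.Perm.mul_apply]
    have h1 : TT G h2 (RR e) = RR ((TT G h2)⁻¹ e) := by
      rw [TT_inv, RR_RR]
    rw [h1, ih, neg_add, zpow_add, Equiv.Perm.mul_apply]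
    simp
  | pred k ih =>
    rw [zpow_sub_one, Equiv.Perm.mul_apply, TT_inv, RR_RR, ih, neg_sub,
      show (1 : ℤ) - -(k : ℤ) = -(-(k : ℤ)) + 1 by ring, zpow_add_one, Equiv.Perm.mul_apply]

/-- darts -/
def Dart : Set (X × X) := {e | G.Adj e.1 e.2}

theorem dart_RR {e : X × X} : RR e ∈ Dart G ↔ e ∈ Dart G := G.adj_comm _ _

theorem dart_TT {e : X × X} (h : e ∈ Dart G) : TT G h2 e ∈ Dart G := by
  obtain ⟨a, b⟩ := e
  rw [TT_apply G h2 h]
  exact (nxt_spec G h2 h).1

theorem dart_zpow {e : X × X} (h : e ∈ Dart G) (k : ℤ) : (TT G h2 ^ k) e ∈ Dart G := by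
  induction k using Int.induction_on generalizing e with
  | zero => simpa using h
  | succ k ih =>
    rw [zpow_add_one, Equiv.Perm.mul_apply]
    exact ih (dart_TT G h2 h)
  | pred k ih =>
    rw [zpow_sub_one, Equiv.Perm.mul_apply]
    apply ih
    rw [TT_inv, dart_RR]
    exact dart_TT G h2 ((dart_RR G).2 h)

/-- odd distance -/
def OddRel (e e' : X × X) : Prop := e ∈ Dart G ∧ e' ∈ Dart G ∧
  ∃ k : ℤ, Odd k ∧ ((TT G h2 ^ k) e = e' ∨ (TT G h2 ^ k) e = RR e')

theorem OddRel.symm {e e' : X × X} (h : OddRel G h2 e e') : OddRel G h2 e' e := by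
  obtain ⟨h1, h3, k, hk, h4⟩ := h
  rcases h4 with h4 | h4
  · refine ⟨h3, h1, -k, hk.neg, Or.inl ?_⟩
    rw [← h4, ← Equiv.Perm.mul_apply, ← zpow_add]
    simp
  · refine ⟨h3, h1, k, hk, Or.inr ?_⟩
    have : e' = RR ((TT G h2 ^ k) e) := by rw [h4, RR_RR]
    rw [this, conj]
    congr 1
    rw [← Equiv.Perm.mul_apply, ← zpow_add]
    simp

theorem edgeCol_odd {c : X × X → Fin 2} (hs : ∀ a b, G.Adj a b → c (a, b) = c (b, a))
    (hp : ∀ a b b', G.Adj a b → G.Adj a b' → b ≠ b' → c (a, b) ≠ c (a, b')) {e : X × X}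
    (he : e ∈ Dart G) (k : ℤ) : c ((TT G h2 ^ k) e) = c e ↔ Even k := by
  have h1 : ∀ e ∈ Dart G, c (TT G h2 e) ≠ c e := by
    rintro ⟨a, b⟩ he
    have he' : G.Adj a b := he
    rw [TT_apply G h2 he', hs a b he']
    obtain ⟨h3, h4⟩ := nxt_spec G h2 he'
    exact hp b _ _ h3 he'.symm h4
  have h3 : ∀ x y z : Fin 2, x ≠ y → (x = z ↔ ¬ y = z) := by decide
  induction k using Int.induction_on with
  | zero => simp
  | succ k ih =>
    have ih' : c ((TT G h2 ^ (k : ℤ)) e) = c e ↔ Even (k : ℤ) := ih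
    rw [add_comm, zpow_one_add, Equiv.Perm.mul_apply, h3 _ _ _ (h1 _ (dart_zpow G h2 he k)), ih',
      add_comm, Int.even_add_one]
  | pred k ih =>
    have ih' : c ((TT G h2 ^ (-(k : ℤ))) e) = c e ↔ Even (-(k : ℤ)) := ih
    have e1 : TT G h2 ((TT G h2 ^ (-(k : ℤ) - 1)) e) = (TT G h2 ^ (-(k : ℤ))) e := by
      rw [← Equiv.Perm.mul_apply, ← zpow_one_add]
      congr 2
      ring
    have h4 := h1 _ (dart_zpow G h2 he (-(k : ℤ) - 1))
    rw [e1] at h4
    rw [h3 _ _ _ h4.symm, ih', Int.even_sub_one]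

/-- the value `m` is attained at distance `k` -/
def Att (c : X × X → ℕ) (e : X × X) (m : ℕ) (k : ℤ) : Prop :=
  c ((TT G h2 ^ k) e) = m ∨ c (RR ((TT G h2 ^ k) e)) = m

theorem att_TT (c : X × X → ℕ) (e : X × X) (m : ℕ) (k : ℤ) :
    Att G h2 c (TT G h2 e) m k ↔ Att G h2 c e m (k + 1) := by
  unfold Att
  rw [zpow_add_one, Equiv.Perm.mul_apply]

theorem att_RR (c : X × X → ℕ) (e : X × X) (m : ℕ) (k : ℤ) :
    Att G h2 c (RR e) m k ↔ Att G h2 c e m (-k) := by
  unfold Att
  rw [conj, RR_RR]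
  exact or_comm

theorem exists_att (c : X × X → ℕ) (e : X × X) : ∃ m, ∃ k, Att G h2 c e m k :=
  ⟨c e, 0, Or.inl (by simp)⟩

open Classical in
/-- least colour on the line -/
noncomputable def mc (c : X × X → ℕ) (e : X × X) : ℕ := Nat.find (exists_att G h2 c e)

theorem mc_congr (c : X × X → ℕ) {e e' : X × X}
    (h : ∀ m, (∃ k, Att G h2 c e m k) ↔ (∃ k, Att G h2 c e' m k)) : mc G h2 c e = mc G h2 c e' := by
  classical
  unfold mc
  exact Nat.find_congr' (fun {m} => h m)

theorem mc_TT (c : X × X → ℕ) (e : X × X) : mc G h2 c (TT G h2 e) = mc G h2 c e := by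
  apply mc_congr
  intro m
  constructor
  · rintro ⟨k, hk⟩
    exact ⟨k + 1, (att_TT G h2 c e m k).1 hk⟩
  · rintro ⟨k, hk⟩
    exact ⟨k - 1, (att_TT G h2 c e m (k - 1)).2 (by rwa [sub_add_cancel])⟩

theorem mc_RR (c : X × X → ℕ) (e : X × X) : mc G h2 c (RR e) = mc G h2 c e := by
  apply mc_congr
  intro m
  constructor
  · rintro ⟨k, hk⟩
    exact ⟨-k, (att_RR G h2 c e m k).1 hk⟩
  · rintro ⟨k, hk⟩
    exact ⟨-k, (att_RR G h2 c e m (-k)).2 (by rwa [neg_neg])⟩

open Classical in
/-- the two colouring -/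
noncomputable def twoCol (c : X × X → ℕ) (e : X × X) : Fin 2 :=
  if ∃ k : ℤ, Even k ∧ Att G h2 c e (mc G h2 c e) k then 0 else 1

theorem twoCol_RR (c : X × X → ℕ) (e : X × X) : twoCol G h2 c (RR e) = twoCol G h2 c e := by
  classical
  unfold twoCol
  rw [mc_RR]
  refine if_congr ?_ rfl rfl
  constructor
  · rintro ⟨k, hk, h⟩
    exact ⟨-k, hk.neg, (att_RR G h2 c e _ k).1 h⟩
  · rintro ⟨k, hk, h⟩
    exact ⟨-k, hk.neg, (att_RR G h2 c e _ (-k)).2 (by rwa [neg_neg])⟩

theorem twoCol_TT (c : X × X → ℕ) (hc : ∀ e e', OddRel G h2 e e' → c e ≠ c e') {e : X × X}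
    (he : e ∈ Dart G) : twoCol G h2 c (TT G h2 e) ≠ twoCol G h2 c e := by
  classical
  set m := mc G h2 c e with hm
  -- both parities cannot attain the value
  have hnot : ∀ k k' : ℤ, Even k → Odd k' → Att G h2 c e m k → Att G h2 c e m k' → False := by
    intro k k' hk hk' h h'
    have hd : Odd (k' - k) := hk'.sub_even hk
    have e0 : (TT G h2 ^ (k' - k)) ((TT G h2 ^ k) e) = (TT G h2 ^ k') e := by
      rw [← Equiv.Perm.mul_apply, ← zpow_add]
      congr 2
      ring
    have e1 : (TT G h2 ^ (-(k' - k))) (RR ((TT G h2 ^ k) e)) = RR ((TT G h2 ^ k') e) := by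
      rw [conj, neg_neg, e0]
    have d1 := dart_zpow G h2 he k
    have d2 := dart_zpow G h2 he k'
    rcases h with h | h <;> rcases h' with h' | h'
    · exact hc _ _ ⟨d1, d2, k' - k, hd, Or.inl e0⟩ (h.trans h'.symm)
    · exact hc _ _ ⟨d1, (dart_RR G).2 d2, k' - k, hd, Or.inr (by rw [e0, RR_RR])⟩
        (h.trans h'.symm)
    · exact hc _ _ ⟨(dart_RR G).2 d1, d2, -(k' - k), hd.neg, Or.inr e1⟩ (h.trans h'.symm)
    · exact hc _ _ ⟨(dart_RR G).2 d1, (dart_RR G).2 d2, -(k' - k), hd.neg, Or.inl e1⟩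
        (h.trans h'.symm)
  have hex : ∃ k, Att G h2 c e m k := by
    rw [hm]
    unfold mc
    exact Nat.find_spec (exists_att G h2 c e)
  have hT : (∃ k : ℤ, Even k ∧ Att G h2 c (TT G h2 e) (mc G h2 c (TT G h2 e)) k) ↔
      ∃ k : ℤ, Odd k ∧ Att G h2 c e m k := by
    rw [mc_TT, ← hm]
    constructor
    · rintro ⟨k, hk, h⟩
      exact ⟨k + 1, hk.add_one, (att_TT G h2 c e m k).1 h⟩
    · rintro ⟨k, hk, h⟩
      exact ⟨k - 1, hk.sub_odd odd_one, (att_TT G h2 c e m (k - 1)).2 (by rwa [sub_add_cancel])⟩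
  unfold twoCol
  rw [← hm]
  obtain ⟨k, hk⟩ := hex
  rcases Int.even_or_odd k with h | h
  · rw [if_neg, if_pos ⟨k, h, hk⟩]
    · decide
    · rw [hT]
      rintro ⟨k', h', hk'⟩
      exact hnot k k' h h' hk hk'
  · rw [if_pos (hT.2 ⟨k, h, hk⟩), if_neg]
    · decide
    · rintro ⟨k', h', hk'⟩
      exact hnot k' k h' h hk' hk

theorem twoCol_proper (c : X × X → ℕ) (hc : ∀ e e', OddRel G h2 e e' → c e ≠ c e') :
    (∀ a b, G.Adj a b → twoCol G h2 c (a, b) = twoCol G h2 c (b, a)) ∧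
    ∀ a b b', G.Adj a b → G.Adj a b' → b ≠ b' → twoCol G h2 c (a, b) ≠ twoCol G h2 c (a, b') := by
  have h1 : ∀ a b, twoCol G h2 c (a, b) = twoCol G h2 c (b, a) := fun a b =>
    twoCol_RR G h2 c (b, a)
  refine ⟨fun a b _ => h1 a b, ?_⟩
  intro a b b' h h' hne
  have h3 := twoCol_TT G h2 c hc (e := (b, a)) h.symm
  rw [TT_apply G h2 h.symm, nxt_unique G h2 h.symm h' hne.symm, h1 b a] at h3
  exact h3.symm

end one

/-! ### Uniform families -/

section fam
abbrev CX := ℕ → Bool

variable (G : CX → SimpleGraph CX)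

theorem measurable_sdart (h2 : ∀ x v, ((G x).neighborSet v).ncard = 2)
    (hG : MeasurableSet {p : CX × (CX × CX) | (G p.1).Adj p.2.1 p.2.2}) :
    Measurable fun p : CX × (CX × CX) => sdart (G p.1) p.2 := by
  classical
  -- the set of quadruples
  have hq : ∀ S : Set CX, MeasurableSet S → An {p : CX × (CX × CX) |
      ∃ c : CX, (p, c) ∈ {q : (CX × (CX × CX)) × CX |
        ((G q.1.1).Adj q.1.2.1 q.1.2.2 ∧ (G q.1.1).Adj q.1.2.2 q.2 ∧ q.2 ≠ q.1.2.1 ∧ q.2 ∈ S)}} := by
    intro S hS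
    refine An.proj (An.of_measurableSet ?_)
    refine MeasurableSet.inter (measurable_fst hG) (MeasurableSet.inter ?_
      (MeasurableSet.inter ?_ (measurable_snd hS)))
    · have : Measurable fun q : (CX × (CX × CX)) × CX => (q.1.1, (q.1.2.2, q.2)) := by fun_prop
      exact this hG
    · exact (measurableSet_eq_fun measurable_snd
        (measurable_fst.comp (measurable_snd.comp measurable_fst))).compl
  have key : ∀ S : Set CX, MeasurableSet S → MeasurableSet {p : CX × (CX × CX) |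
      (G p.1).Adj p.2.1 p.2.2 ∧ nxt (G p.1) p.2.1 p.2.2 ∈ S} := by
    intro S hS
    have e1 : ∀ S : Set CX, {p : CX × (CX × CX) |
      ∃ c : CX, (p, c) ∈ {q : (CX × (CX × CX)) × CX |
        ((G q.1.1).Adj q.1.2.1 q.1.2.2 ∧ (G q.1.1).Adj q.1.2.2 q.2 ∧ q.2 ≠ q.1.2.1 ∧ q.2 ∈ S)}} =
        {p : CX × (CX × CX) |
          (G p.1).Adj p.2.1 p.2.2 ∧ nxt (G p.1) p.2.1 p.2.2 ∈ S} := by
      intro S
      ext ⟨x, a, b⟩
      constructor
      · rintro ⟨c, h1, h3, h4, h5⟩
        refine ⟨h1, ?_⟩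
        have : nxt (G x) a b = c := nxt_unique (G x) (h2 x) h1 h3 h4
        show nxt (G x) a b ∈ S
        rw [this]
        exact h5
      · rintro ⟨h1, h3⟩
        obtain ⟨h4, h5⟩ := nxt_spec (G x) (h2 x) h1
        exact ⟨_, h1, h4, h5, h3⟩
    refine An.measurableSet ?_ ?_
    · rw [← e1 S]
      exact hq S hS
    · have : {p : CX × (CX × CX) | (G p.1).Adj p.2.1 p.2.2 ∧ nxt (G p.1) p.2.1 p.2.2 ∈ S}ᶜ =
          {p : CX × (CX × CX) | (G p.1).Adj p.2.1 p.2.2}ᶜ ∪
          {p : CX × (CX × CX) | (G p.1).Adj p.2.1 p.2.2 ∧ nxt (G p.1) p.2.1 p.2.2 ∈ Sᶜ} := by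
        ext p
        simp only [mem_compl_iff, Set.mem_ofPred_eq, mem_union]
        tauto
      rw [this, ← e1 Sᶜ]
      exact (An.of_measurableSet hG.compl).union (hq Sᶜ hS.compl)
  have hn : Measurable fun p : CX × (CX × CX) =>
      if (G p.1).Adj p.2.1 p.2.2 then nxt (G p.1) p.2.1 p.2.2 else p.2.1 := by
    intro S hS
    have : (fun p : CX × (CX × CX) =>
        if (G p.1).Adj p.2.1 p.2.2 then nxt (G p.1) p.2.1 p.2.2 else p.2.1) ⁻¹' S =
        {p : CX × (CX × CX) | (G p.1).Adj p.2.1 p.2.2 ∧ nxt (G p.1) p.2.1 p.2.2 ∈ S} ∪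
        ({p : CX × (CX × CX) | (G p.1).Adj p.2.1 p.2.2}ᶜ ∩ {p | p.2.1 ∈ S}) := by
      ext p
      simp only [mem_preimage, mem_union, mem_inter_iff, mem_compl_iff, Set.mem_ofPred_eq]
      split_ifs with h
      · simp [h]
      · simp [h]
    rw [this]
    exact (key S hS).union (hG.compl.inter ((measurable_fst.comp measurable_snd) hS))
  have : (fun p : CX × (CX × CX) => sdart (G p.1) p.2) = fun p =>
      if (G p.1).Adj p.2.1 p.2.2 then (p.2.2, if (G p.1).Adj p.2.1 p.2.2 then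
        nxt (G p.1) p.2.1 p.2.2 else p.2.1) else p.2 := by
    funext p
    unfold sdart
    split_ifs <;> rfl
  rw [this]
  exact Measurable.ite hG ((measurable_snd.comp measurable_snd).prodMk hn) measurable_snd

theorem measurable_zpow (h2 : ∀ x v, ((G x).neighborSet v).ncard = 2)
    (hG : MeasurableSet {p : CX × (CX × CX) | (G p.1).Adj p.2.1 p.2.2}) (k : ℤ) :
    Measurable fun p : CX × (CX × CX) => (TT (G p.1) (h2 p.1) ^ k) p.2 := by
  have hs := measurable_sdart G h2 hG
  induction k using Int.induction_on with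
  | zero => simpa using measurable_snd
  | succ k ih =>
    have : (fun p : CX × (CX × CX) => (TT (G p.1) (h2 p.1) ^ ((k : ℤ) + 1)) p.2) =
        fun p => (TT (G p.1) (h2 p.1) ^ (k : ℤ)) (sdart (G p.1) p.2) := by
      funext p
      rw [zpow_add_one, Equiv.Perm.mul_apply]
      rfl
    rw [this]
    exact ih.comp (measurable_fst.prodMk hs)
  | pred k ih =>
    have : (fun p : CX × (CX × CX) => (TT (G p.1) (h2 p.1) ^ (-(k : ℤ) - 1)) p.2) =
        fun p => (TT (G p.1) (h2 p.1) ^ (-(k : ℤ))) (Prod.swap (sdart (G p.1) (Prod.swap p.2))) := by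
      funext p
      rw [zpow_sub_one, Equiv.Perm.mul_apply]
      rfl
    rw [this]
    have hh : Measurable fun p : CX × (CX × CX) =>
        Prod.swap (sdart (G p.1) (Prod.swap p.2)) :=
      measurable_swap.comp (hs.comp (measurable_fst.prodMk
        (measurable_swap.comp measurable_snd)))
    exact ih.comp (measurable_fst.prodMk hh)

/-- For a uniformly Borel family of 2-regular graphs on `2^ℕ` there is a uniformly
Borel family `H` of symmetric relations on pairs (for edges: odd distance in the line graph) whose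
countable Borel colourability is equivalent to Borel edge colourability of `G x` with two colours. -/
theorem lines
    (hG : MeasurableSet {p : CX × (CX × CX) | (G p.1).Adj p.2.1 p.2.2})
    (h2 : ∀ x v, ((G x).neighborSet v).ncard = 2) :
    ∃ H : Set (CX × ((CX × CX) × (CX × CX))),
      MeasurableSet H ∧ (∀ x a b, (x, (a, b)) ∈ H → (x, (b, a)) ∈ H) ∧
      ∀ x, EdgeCol (G x) 2 ↔ ∃ c : CX × CX → ℕ, Measurable c ∧
        ∀ a b, (x, (a, b)) ∈ H → c a ≠ c b := by
  classical
  refine ⟨{q | OddRel (G q.1) (h2 q.1) q.2.1 q.2.2}, ?_, fun x a b h => h.symm, fun x => ?_⟩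
  · have hz : ∀ k : ℤ, Measurable fun q : CX × ((CX × CX) × (CX × CX)) =>
        (TT (G q.1) (h2 q.1) ^ k) q.2.1 := fun k =>
      (measurable_zpow G h2 hG k).comp (measurable_fst.prodMk (measurable_fst.comp measurable_snd))
    unfold OddRel
    refine MeasurableSet.inter ?_ (MeasurableSet.inter ?_ ?_)
    · have : Measurable fun q : CX × ((CX × CX) × (CX × CX)) => (q.1, q.2.1) := by fun_prop
      exact this hG
    · have : Measurable fun q : CX × ((CX × CX) × (CX × CX)) => (q.1, q.2.2) := by fun_prop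
      exact this hG
    · have h1 : MeasurableSet (⋃ k : ℤ, ({q : CX × ((CX × CX) × (CX × CX)) | Odd k} ∩
          ({q | (TT (G q.1) (h2 q.1) ^ k) q.2.1 = q.2.2} ∪
          {q | (TT (G q.1) (h2 q.1) ^ k) q.2.1 = RR q.2.2}))) := by
        refine MeasurableSet.iUnion fun k => (MeasurableSet.const _).inter
          (MeasurableSet.union ?_ ?_)
        · exact measurableSet_eq_fun (hz k) (measurable_snd.comp measurable_snd)
        · exact measurableSet_eq_fun (hz k)
            (measurable_swap.comp (measurable_snd.comp measurable_snd))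
      refine cast (congrArg MeasurableSet ?_) h1
      ext q
      simp only [mem_iUnion, mem_inter_iff, mem_union, Set.mem_ofPred_eq]
      exact Iff.rfl
  · constructor
    · rintro ⟨c, hc, hs, hp⟩
      refine ⟨fun e => (c e).val, (measurable_from_top (f := fun i : Fin 2 => i.val)).comp hc, ?_⟩
      rintro e e' ⟨he, he', k, hk, h | h⟩ heq
      · have h1 := edgeCol_odd (G x) (h2 x) hs hp he k
        rw [h] at h1
        exact (Int.not_even_iff_odd.2 hk) (h1.1 (Fin.ext heq).symm)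
      · have h1 := edgeCol_odd (G x) (h2 x) hs hp he k
        rw [h] at h1
        have h3 : c (RR e') = c e' := by
          obtain ⟨a, b⟩ := e'
          exact (hs a b he').symm
        rw [h3] at h1
        exact (Int.not_even_iff_odd.2 hk) (h1.1 (Fin.ext heq).symm)
    · rintro ⟨c, hc, hcH⟩
      obtain ⟨h1, h3⟩ := twoCol_proper (G x) (h2 x) c hcH
      refine ⟨twoCol (G x) (h2 x) c, ?_, h1, h3⟩
      have hz : ∀ k : ℤ, Measurable fun e : CX × CX => (TT (G x) (h2 x) ^ k) e := fun k =>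
        (measurable_zpow G h2 hG k).comp (measurable_const.prodMk measurable_id)
      have ha : ∀ m k, MeasurableSet {e | Att (G x) (h2 x) c e m k} := by
        intro m k
        refine MeasurableSet.union ?_ ?_
        · exact (hc.comp (hz k)) (measurableSet_singleton m)
        · exact (hc.comp (measurable_swap.comp (hz k))) (measurableSet_singleton m)
      have hm : Measurable (mc (G x) (h2 x) c) := by
        unfold mc
        refine measurable_find _ fun m => ?_
        rw [Set.ofPred_exists]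
        exact MeasurableSet.iUnion fun k => ha m k
      unfold twoCol
      refine Measurable.ite ?_ measurable_const measurable_const
      have h4 : MeasurableSet (⋃ k : ℤ, ⋃ m : ℕ, ({e : CX × CX | Even k} ∩
          ({e | mc (G x) (h2 x) c e = m} ∩ {e | Att (G x) (h2 x) c e m k}))) :=
        MeasurableSet.iUnion fun k => MeasurableSet.iUnion fun m => (MeasurableSet.const _).inter
          ((hm (measurableSet_singleton m)).inter (ha m k))
      refine cast (congrArg MeasurableSet ?_) h4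
      ext e
      simp only [mem_iUnion, mem_inter_iff, Set.mem_ofPred_eq]
      constructor
      · rintro ⟨k, m, hk, rfl, h⟩
        exact ⟨k, hk, h⟩
      · rintro ⟨k, hk, h⟩
        exact ⟨k, _, hk, rfl, h⟩

end fam

end Pool.Agent.H81.BCI
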