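import Pool.Agent.H81.BCI.Code

/-!
Upper bound: a Borel edge colouring of the space of labelled trees with `n + D - 1` colours, and a
Borel colouring with `n + D - 2` colours of the trees whose sequences do not dominate a given one.
-/

namespace Pool.Agent.H81.BCI
open MeasureTheory

section
variable {n : ℕ} [NeZero n] {D : ℕ} (hD : 1 ≤ D)

theorem kN_eq_zero_iff (i : Bool) (y : NC n D) :
    kN y = 0 ↔ ((TES D hD).pos i y).val < D := by
  rw [kN_eq hD i y, kind_eq_zero D hD]

theorem pos_of_extra {y : NC n D} (h : kN y ≠ 0) (i : Bool) : (TES D hD).pos i y = kN y :=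
  entry_eq D h

include hD in
theorem extra_ge {y : NC n D} (h : kN y ≠ 0) : D ≤ (kN y).val := by
  by_contra hlt
  apply h
  rw [kN_eq_zero_iff hD false, pos_of_extra hD h]
  omega

/-- class of an edge -/
def cl (y : NC n D) : ℕ := ((TES D hD).pos false y).val * n + ((TES D hD).pos true y).val

theorem cl_lt (y : NC n D) : cl hD y < n * n := by
  unfold cl
  have h1 := ((TES D hD).pos false y).isLt
  have h2 := ((TES D hD).pos true y).isLt
  nlinarith

theorem cl_ne {i : Bool} {d : Fin n} (hd : d ≠ 0) (y : NC n D) :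
    cl hD ((TES D hD).act i d y) ≠ cl hD y := by
  intro h
  have hn : 0 < n := Nat.pos_of_ne_zero (NeZero.ne n)
  have h1 : ∀ a b c e : Fin n, a.val * n + b.val = c.val * n + e.val → a = c ∧ b = e := by
    intro a b c e h
    have h2 : (a.val * n + b.val) / n = a.val := by
      rw [mul_comm, Nat.mul_add_div hn, Nat.div_eq_of_lt b.isLt, add_zero]
    have h3 : (c.val * n + e.val) / n = c.val := by
      rw [mul_comm, Nat.mul_add_div hn, Nat.div_eq_of_lt e.isLt, add_zero]
    have h4 : a.val = c.val := by rw [← h2, ← h3, h]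
    refine ⟨Fin.ext h4, Fin.ext ?_⟩
    rw [h4] at h; omega
  obtain ⟨h2, h3⟩ := h1 _ _ _ _ h
  exact (TES D hD).tg_act_ne hd y (Prod.ext h2 h3)

open Classical in
/-- least value `m` with `m + 1` not taken -/
noncomputable def mexF (T : Bool × Fin n → ℕ) : ℕ :=
  if h : ∃ m, ∀ p, T p ≠ m + 1 then Nat.find h else 0

omit [NeZero n] in
theorem mexF_spec (T : Bool × Fin n → ℕ) (N : ℕ)
    (hN : (Finset.univ.filter fun p => T p ≠ 0).card ≤ N) :
    (∀ p, T p ≠ mexF T + 1) ∧ mexF T ≤ N := by
  classical
  have h : ∃ m, m ≤ N ∧ ∀ p, T p ≠ m + 1 := by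
    by_contra hcon
    push Not at hcon
    have h1 : Finset.range (N + 1) ⊆
        (Finset.univ.filter fun p => T p ≠ 0).image (fun p => T p - 1) := by
      intro m hm
      obtain ⟨p, hp⟩ := hcon m (by simpa [Nat.lt_succ_iff] using hm)
      refine Finset.mem_image.mpr ⟨p, ?_, by omega⟩
      simp only [Finset.mem_filter, Finset.mem_univ, true_and]
      omega
    have h2 := Finset.card_le_card h1
    have h3 := Finset.card_image_le (s := Finset.univ.filter fun p => T p ≠ 0)
      (f := fun p => T p - 1)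
    rw [Finset.card_range] at h2
    omega
  obtain ⟨m, hm, hp⟩ := h
  have hex : ∃ m, ∀ p, T p ≠ m + 1 := ⟨m, hp⟩
  have : mexF T = Nat.find hex := by simp only [mexF, dif_pos hex]
  rw [this]
  exact ⟨Nat.find_spec hex, le_trans (Nat.find_min' hex hp) hm⟩

/-- the greedy colouring of the main edges of class `< r` -/
noncomputable def Gr : ℕ → NC n D → ℕ
  | 0, _ => 0
  | r + 1, y => if cl hD y = r then mexF (fun p : Bool × Fin n =>
      if p.2 ≠ 0 ∧ kN ((TES D hD).act p.1 p.2 y) = 0 ∧ cl hD ((TES D hD).act p.1 p.2 y) < r then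
        Gr r ((TES D hD).act p.1 p.2 y) + 1 else 0) else Gr r y

theorem Gr_stable (y : NC n D) (r : ℕ) (h : cl hD y < r) :
    Gr hD r y = Gr hD (cl hD y + 1) y := by
  induction r with
  | zero => omega
  | succ r ih =>
    rcases Nat.lt_or_ge (cl hD y) r with h1 | h1
    · rw [← ih h1]
      conv_lhs => rw [Gr]
      rw [if_neg (by omega)]
    · have : cl hD y = r := by omega
      rw [this]

theorem measurable_cl : Measurable (cl hD : NC n D → ℕ) := by
  unfold cl
  have h1 := (TES (n := n) D hD).meas_pos false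
  have h2 := (TES (n := n) D hD).meas_pos true
  exact (((measurable_from_fin (fun a : Fin n => a.val)).comp h1).mul_const n).add
    ((measurable_from_fin (fun a : Fin n => a.val)).comp h2)

theorem measurable_Gr (r : ℕ) : Measurable (Gr hD r : NC n D → ℕ) := by
  induction r with
  | zero => exact measurable_const
  | succ r ih =>
    have : (Gr hD (r + 1) : NC n D → ℕ) = fun y => if cl hD y = r then mexF (fun p : Bool × Fin n =>
      if p.2 ≠ 0 ∧ kN ((TES D hD).act p.1 p.2 y) = 0 ∧ cl hD ((TES D hD).act p.1 p.2 y) < r then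
        Gr hD r ((TES D hD).act p.1 p.2 y) + 1 else 0) else Gr hD r y := by
      funext y; rw [Gr]
    rw [this]
    refine Measurable.ite (measurable_cl hD (measurableSet_singleton r)) ?_ ih
    have hT : Measurable fun y : NC n D => fun p : Bool × Fin n =>
      if p.2 ≠ 0 ∧ kN ((TES D hD).act p.1 p.2 y) = 0 ∧ cl hD ((TES D hD).act p.1 p.2 y) < r then
        Gr hD r ((TES D hD).act p.1 p.2 y) + 1 else 0 := by
      refine measurable_pi_lambda _ fun p => ?_
      have ha := (TES (n := n) D hD).meas_act p.1 p.2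
      refine Measurable.ite ?_ ((ih.comp ha).add_const 1) measurable_const
      have e1 : MeasurableSet {y : NC n D | p.2 ≠ 0} := MeasurableSet.const _
      have e2 : MeasurableSet {y : NC n D | kN ((TES D hD).act p.1 p.2 y) = 0} :=
        (measurable_kN.comp ha) (measurableSet_singleton 0)
      have e3 : MeasurableSet {y : NC n D | cl hD ((TES D hD).act p.1 p.2 y) < r} :=
        ((measurable_cl hD).comp ha) (MeasurableSet.of_discrete (s := {x : ℕ | x < r}))
      exact e1.inter (e2.inter e3)
    exact (measurable_of_countable (mexF (n := n))).comp hT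

/-- the greedy colour of a main edge -/
noncomputable def gr (y : NC n D) : ℕ := Gr hD (n * n) y

theorem card_nb (y : NC n D) (i : Bool) (hy : kN y = 0) :
    (Finset.univ.filter fun d : Fin n => d ≠ 0 ∧ kN ((TES D hD).act i d y) = 0).card ≤ D - 1 := by
  classical
  have h1 : ((Finset.univ.filter fun d : Fin n => d ≠ 0 ∧
      kN ((TES D hD).act i d y) = 0).image
        (fun d => ((TES D hD).pos i y + d).val)) ⊆
      (Finset.range D).erase ((TES D hD).pos i y).val := by
    intro x hx
    obtain ⟨d, hd, rfl⟩ := Finset.mem_image.mp hx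
    obtain ⟨hd0, hk⟩ := (Finset.mem_filter.mp hd).2
    rw [kN_eq_zero_iff hD i, (TES D hD).pos_act] at hk
    refine Finset.mem_erase.mpr ⟨?_, Finset.mem_range.mpr hk⟩
    intro h
    apply hd0
    have h2 : (TES D hD).pos i y + d = (TES D hD).pos i y + 0 := by
      rw [add_zero]; exact Fin.ext h
    exact add_left_cancel h2
  have h2 := Finset.card_le_card h1
  rw [Finset.card_image_of_injective _ (fun a b hab => add_left_cancel (Fin.ext hab)),
    Finset.card_erase_of_mem (Finset.mem_range.mpr ((kN_eq_zero_iff hD i y).mp hy)),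
    Finset.card_range] at h2
  exact h2

theorem gr_spec (y : NC n D) (hy : kN y = 0) : gr hD y ≤ 2 * D - 2 ∧
    ∀ i d, d ≠ 0 → kN ((TES D hD).act i d y) = 0 →
      cl hD ((TES D hD).act i d y) < cl hD y → gr hD ((TES D hD).act i d y) ≠ gr hD y := by
  classical
  set T : Bool × Fin n → ℕ := fun p =>
      if p.2 ≠ 0 ∧ kN ((TES D hD).act p.1 p.2 y) = 0 ∧
        cl hD ((TES D hD).act p.1 p.2 y) < cl hD y then
        Gr hD (cl hD y) ((TES D hD).act p.1 p.2 y) + 1 else 0 with hT
  have hg : gr hD y = mexF T := by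
    unfold gr
    rw [Gr_stable hD y _ (cl_lt hD y), Gr, if_pos rfl]
  have hcard : (Finset.univ.filter fun p => T p ≠ 0).card ≤ 2 * D - 2 := by
    have h1 : (Finset.univ.filter fun p => T p ≠ 0) ⊆
        ((Finset.univ : Finset Bool).sigma (fun i => Finset.univ.filter fun d : Fin n =>
          d ≠ 0 ∧ kN ((TES D hD).act i d y) = 0)).image (fun x => (x.1, x.2)) := by
      intro p hp
      have hp' := (Finset.mem_filter.mp hp).2
      simp only [hT] at hp'
      split_ifs at hp' with hc
      · refine Finset.mem_image.mpr ⟨⟨p.1, p.2⟩, ?_, rfl⟩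
        simp only [Finset.mem_sigma, Finset.mem_univ, Finset.mem_filter, true_and]
        exact ⟨hc.1, hc.2.1⟩
      · exact absurd rfl hp'
    refine le_trans (Finset.card_le_card h1) (le_trans Finset.card_image_le ?_)
    rw [Finset.card_sigma]
    have h2 := card_nb hD y false hy
    have h3 := card_nb hD y true hy
    simp only [Fintype.univ_bool, Finset.mem_singleton, Bool.true_eq_false, not_false_eq_true,
      Finset.sum_insert, Finset.sum_singleton]
    omega
  obtain ⟨h1, h2⟩ := mexF_spec T _ hcard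
  rw [hg]
  refine ⟨h2, fun i d hd hk hcl => ?_⟩
  have h3 := h1 (i, d)
  have h4 : T (i, d) = Gr hD (cl hD y) ((TES D hD).act i d y) + 1 := by
    rw [hT]
    exact if_pos ⟨hd, hk, hcl⟩
  rw [h4, Gr_stable hD _ _ hcl] at h3
  unfold gr
  rw [Gr_stable hD _ _ (cl_lt hD _)]
  omega

/-- value of the colouring with `n + D - 1` colours -/
noncomputable def upv (y : NC n D) : ℕ := if kN y = 0 then gr hD y else D - 1 + (kN y).val

theorem upv_lt (hDn : D ≤ n) (y : NC n D) : upv hD y < n + D - 1 := by
  unfold upv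
  split_ifs with h
  · have := (gr_spec hD y h).1
    omega
  · have := (kN y).isLt
    omega

theorem upv_proper (y : NC n D) (i : Bool) (d : Fin n) (hd : d ≠ 0) :
    upv hD y ≠ upv hD ((TES D hD).act i d y) := by
  unfold upv
  by_cases h : kN y = 0
  · rw [if_pos h]
    by_cases h' : kN ((TES D hD).act i d y) = 0
    · rw [if_pos h']
      rcases lt_or_gt_of_ne (cl_ne hD (i := i) hd y) with hlt | hgt
      · exact ((gr_spec hD y h).2 i d hd h' hlt).symm
      · have h1 := (gr_spec hD _ h').2 i (-d) (neg_ne_zero.mpr hd)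
        rw [(TES D hD).act_neg_act] at h1
        exact h1 h hgt
    · rw [if_neg h']
      have h1 := (gr_spec hD y h).1
      have h2 := extra_ge hD h'
      omega
  · rw [if_neg h]
    have h2 := extra_ge hD h
    by_cases h' : kN ((TES D hD).act i d y) = 0
    · rw [if_pos h']
      have h1 := (gr_spec hD _ h').1
      omega
    · rw [if_neg h']
      intro heq
      have h3 : kN y = kN ((TES D hD).act i d y) := Fin.ext (by omega)
      rw [← pos_of_extra hD h i, ← pos_of_extra hD h' i, (TES D hD).pos_act] at h3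
      apply hd
      have h4 : (TES D hD).pos i y + 0 = (TES D hD).pos i y + d := by rw [add_zero]; exact h3
      exact (add_left_cancel h4).symm

theorem upper (hDn : D ≤ n) :
    ∃ c : NC n D → Fin (n + D - 1), Measurable c ∧ (TES D hD).ProperOn (Yf hD) c := by
  refine ⟨fun y => ⟨upv hD y, upv_lt hD hDn y⟩, ?_, ?_⟩
  · have h1 : Measurable (upv hD : NC n D → ℕ) := by
      unfold upv
      refine Measurable.ite (measurable_kN (measurableSet_singleton 0)) (measurable_Gr hD _) ?_
      exact (measurable_from_fin (fun a : Fin n => D - 1 + a.val)).comp measurable_kN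
    refine measurable_to_countable' fun x => ?_
    have : (fun y : NC n D => (⟨upv hD y, upv_lt hD hDn y⟩ : Fin (n + D - 1))) ⁻¹' {x} =
        upv hD ⁻¹' {x.val} := by
      ext y; simp [Fin.ext_iff]
    rw [this]
    exact h1 (measurableSet_singleton _)
  · intro y _ i d hd h
    exact upv_proper hD y i d hd (congrArg Fin.val h)

end

/-! ### The uniform colouring -/

/-- statement of job C -/
def SeqCol (D : ℕ) : Prop :=
    ∃ C : (ℕ → ℕ) × (ℕ → ℕ) → ℕ, Measurable C ∧ (∀ p, C p ≤ D) ∧
      ∀ ζ u : ℕ → ℕ, (∃ i₀, StrictMono fun m => u (i₀ + m)) →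
        (∀ i, ∃ m, u (i + m) < ζ m) →
        ∀ i, 0 < i → i < D → C (ζ, u) ≠ C (ζ, fun m => u (i + m))

section
variable {n : ℕ} [NeZero n] {D : ℕ} (hD : 1 ≤ D)

/-- bounds attached to an edge: the shifts of its sequence -/
def UN (y : NC n D) (j : ℕ) : ℕ → ℕ := fun m => uN y (j + m)

theorem measurable_UN : Measurable (UN : NC n D → ℕ → ℕ → ℕ) := by
  refine measurable_pi_lambda _ fun j => measurable_pi_lambda _ fun m => ?_
  exact (measurable_pi_apply (j + m)).comp measurable_uN

theorem dom_shift {ζ z : ℕ → ℕ} (hζ : Monotone ζ) {i : ℕ} (h : ∀ m, ζ m ≤ z (i + m)) (s : ℕ) :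
    ∀ m, ζ m ≤ z (i + s + m) := by
  intro m
  have h1 := h (s + m)
  have h2 : ζ m ≤ ζ (s + m) := hζ (by omega)
  rw [show i + s + m = i + (s + m) by ring]
  exact le_trans h2 h1

include hD in
theorem dom_iff (i : Bool) (y : NC n D) {ζ : ℕ → ℕ} (hζ : Monotone ζ) :
    (∃ j, ζ ≤ UN y j) ↔ ∃ j, ∀ m, ζ m ≤ zN i y (j + m) := by
  have hu := uN_eq hD i y
  constructor
  · rintro ⟨j, hj⟩
    refine ⟨j + sh D ((TES D hD).pos i y), fun m => ?_⟩
    have := hj m
    unfold UN at this
    rw [hu] at this
    simp only at this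
    rw [show j + sh D ((TES D hD).pos i y) + m = j + m + sh D ((TES D hD).pos i y) by ring]
    exact this
  · rintro ⟨j, hj⟩
    refine ⟨j, fun m => ?_⟩
    unfold UN
    rw [hu]
    simp only
    have := dom_shift hζ hj (sh D ((TES D hD).pos i y)) m
    rw [show j + m + sh D ((TES D hD).pos i y) = j + sh D ((TES D hD).pos i y) + m by ring]
    exact this

theorem UN_inv (y : NC n D) (i : Bool) (c : Fin n) {ζ : ℕ → ℕ} (hζ : Monotone ζ) :
    (∃ j, ζ ≤ UN ((TES D hD).act i c y) j) ↔ (∃ j, ζ ≤ UN y j) := by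
  rw [dom_iff hD i y hζ, dom_iff hD i _ hζ, zN_act]

open Classical in
/-- a colour not used by the first `D` shifts -/
noncomputable def miss (C : (ℕ → ℕ) × (ℕ → ℕ) → ℕ) (D : ℕ) (ζ z : ℕ → ℕ) : ℕ :=
  if h : ∃ x, ∀ j < D, C (ζ, fun m => z (j + m)) ≠ x then Nat.find h else 0

theorem miss_spec (C : (ℕ → ℕ) × (ℕ → ℕ) → ℕ) (D : ℕ) (ζ z : ℕ → ℕ) :
    (∀ j < D, C (ζ, fun m => z (j + m)) ≠ miss C D ζ z) ∧ miss C D ζ z ≤ D := by
  classical
  have h : ∃ x, x ≤ D ∧ ∀ j < D, C (ζ, fun m => z (j + m)) ≠ x := by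
    by_contra hcon
    push Not at hcon
    have h1 : Finset.range (D + 1) ⊆ (Finset.range D).image (fun j => C (ζ, fun m => z (j + m))) := by
      intro x hx
      obtain ⟨j, hj, hj'⟩ := hcon x (by simpa [Nat.lt_succ_iff] using hx)
      exact Finset.mem_image.mpr ⟨j, Finset.mem_range.mpr hj, hj'⟩
    have h2 := Finset.card_le_card h1
    have h3 := Finset.card_image_le (s := Finset.range D) (f := fun j => C (ζ, fun m => z (j + m)))
    rw [Finset.card_range] at h2 h3
    omega
  obtain ⟨x, hx, hp⟩ := h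
  have hex : ∃ x, ∀ j < D, C (ζ, fun m => z (j + m)) ≠ x := ⟨x, hp⟩
  have : miss C D ζ z = Nat.find hex := by simp only [miss, dif_pos hex]
  rw [this]
  exact ⟨Nat.find_spec hex, le_trans (Nat.find_min' hex hp) hx⟩

theorem measurable_miss (C : (ℕ → ℕ) × (ℕ → ℕ) → ℕ) (hC : Measurable C) (D : ℕ) :
    Measurable fun p : (ℕ → ℕ) × (ℕ → ℕ) => miss C D p.1 p.2 := by
  classical
  have h1 : Measurable fun p : (ℕ → ℕ) × (ℕ → ℕ) => fun j : Fin D =>
      C (p.1, fun m => p.2 (j.val + m)) := by
    refine measurable_pi_lambda _ fun j => hC.comp ?_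
    fun_prop
  have h2 : (fun p : (ℕ → ℕ) × (ℕ → ℕ) => miss C D p.1 p.2) =
      (fun v : Fin D → ℕ => if h : ∃ x, ∀ j : Fin D, v j ≠ x then Nat.find h else 0) ∘
      (fun p : (ℕ → ℕ) × (ℕ → ℕ) => fun j : Fin D => C (p.1, fun m => p.2 (j.val + m))) := by
    funext p
    simp only [Function.comp, miss]
    have e : ∀ x, (∀ j < D, C (p.1, fun m => p.2 (j + m)) ≠ x) ↔
        (∀ j : Fin D, C (p.1, fun m => p.2 (j.val + m)) ≠ x) := fun x =>
      ⟨fun h j => h j.val j.isLt, fun h j hj => h ⟨j, hj⟩⟩
    simp only [e]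
  rw [h2]
  exact (measurable_of_countable _).comp h1

/-- value of the uniform colouring -/
noncomputable def cv (C : (ℕ → ℕ) × (ℕ → ℕ) → ℕ) (ζ : ℕ → ℕ) (y : NC n D) : ℕ :=
  if kN y = 0 then C (ζ, uN y) else if (kN y).val = D then miss C D ζ (uN y) else (kN y).val

include hD in
theorem cv_proper (C : (ℕ → ℕ) × (ℕ → ℕ) → ℕ) (hCD : ∀ p, C p ≤ D)
    (hC : ∀ ζ u : ℕ → ℕ, (∃ i₀, StrictMono fun m => u (i₀ + m)) →
        (∀ i, ∃ m, u (i + m) < ζ m) →
        ∀ i, 0 < i → i < D → C (ζ, u) ≠ C (ζ, fun m => u (i + m)))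
    (ζ : ℕ → ℕ) (hζ : Monotone ζ) (y : NC n D) (hy : y ∈ Yf hD) (hnd : ∀ j, ¬ ζ ≤ UN y j)
    (i : Bool) (d : Fin n) (hd : d ≠ 0) : cv C ζ y ≠ cv C ζ ((TES D hD).act i d y) := by
  -- general facts for two edges at the same vertex
  have key : ∀ y : NC n D, y ∈ Yf hD → (∀ j, ¬ ζ ≤ UN y j) → ∀ d : Fin n, d ≠ 0 →
      ((TES D hD).pos i y).val < ((TES D hD).pos i y + d).val →
      cv C ζ y ≠ cv C ζ ((TES D hD).act i d y) := by
    intro y hy hnd d hd hlt
    set z := zN i y with hz
    set a := (TES D hD).pos i y with ha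
    have hnz : ∀ i', ∃ m, z (i' + m) < ζ m := by
      intro i'
      by_contra hcon
      push Not at hcon
      obtain ⟨j, hj⟩ := (dom_iff hD i y hζ).mpr ⟨i', hcon⟩
      exact hnd j hj
    have huy : uN y = fun m => z (m + sh D a) := uN_eq hD i y
    have huy' : uN ((TES D hD).act i d y) = fun m => z (m + sh D (a + d)) := by
      rw [uN_eq hD i, zN_act, (TES D hD).pos_act]
    have hky : kN y = 0 ↔ a.val < D := kN_eq_zero_iff hD i y
    have hky' : kN ((TES D hD).act i d y) = 0 ↔ (a + d).val < D := by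
      rw [kN_eq_zero_iff hD i, (TES D hD).pos_act]
    have hEI : EI z := by
      have := hy.2
      rw [huy] at this
      exact this.unshift
    unfold cv
    by_cases h' : kN ((TES D hD).act i d y) = 0
    · -- both are main edges
      have h2 : (a + d).val < D := hky'.mp h'
      have h1 : a.val < D := by omega
      rw [if_pos (hky.mpr h1), if_pos h', huy, huy']
      have s1 : sh D a = a.val := by simp [sh, h1]
      have s2 : sh D (a + d) = (a + d).val := by simp [sh, h2]
      rw [s1, s2]
      have h3 := hC ζ (fun m => z (m + a.val)) (hEI.shift a.val) (fun i' => by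
        obtain ⟨m, hm⟩ := hnz (i' + a.val)
        exact ⟨m, by rw [show i' + m + a.val = i' + a.val + m by ring]; exact hm⟩)
        ((a + d).val - a.val) (by omega) (by omega)
      have h4 : (fun m => z ((a + d).val - a.val + m + a.val)) = fun m => z (m + (a + d).val) := by
        funext m; congr 1; omega
      rw [h4] at h3
      exact h3
    · rw [if_neg h']
      have h2 := extra_ge hD h'
      have hk' : kN ((TES D hD).act i d y) = a + d := by
        rw [← pos_of_extra hD h' i, (TES D hD).pos_act]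
      rw [hk'] at h2 ⊢
      have s2 : sh D (a + d) = 0 := by simp [sh, h2]
      by_cases h : kN y = 0
      · have h1 : a.val < D := hky.mp h
        rw [if_pos h]
        have s1 : sh D a = a.val := by simp [sh, h1]
        split_ifs with h3
        · rw [huy, huy', s1, s2]
          simp only [add_zero]
          have := (miss_spec C D ζ z).1 a.val h1
          have h4 : (fun m => z (a.val + m)) = fun m => z (m + a.val) := by
            funext m; congr 1; omega
          rw [h4] at this
          exact this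
        · have := hCD (ζ, uN y)
          omega
      · rw [if_neg h]
        have h1 := extra_ge hD h
        have hk : kN y = a := by rw [← pos_of_extra hD h i]
        rw [hk] at h1 ⊢
        have s1 : sh D a = 0 := by simp [sh, h1]
        rw [if_neg (show ¬ (a + d).val = D by omega)]
        split_ifs with h3
        · have := (miss_spec C D ζ (uN y)).2
          omega
        · omega
  have hne : ((TES D hD).pos i y).val ≠ ((TES D hD).pos i y + d).val := by
    intro h
    apply hd
    have h4 : (TES D hD).pos i y + 0 = (TES D hD).pos i y + d := by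
      rw [add_zero]; exact Fin.ext h
    exact (add_left_cancel h4).symm
  rcases lt_or_gt_of_ne hne with hlt | hgt
  · exact key y hy hnd d hd hlt
  · have hnd' : ∀ j, ¬ ζ ≤ UN ((TES D hD).act i d y) j := by
      intro j hj
      obtain ⟨j', hj'⟩ := (UN_inv hD y i d hζ).mp ⟨j, hj⟩
      exact hnd j' hj'
    have h1 := key ((TES D hD).act i d y) (Yf_act hD i d hy) hnd' (-d) (neg_ne_zero.mpr hd) (by
      rw [(TES D hD).pos_act, add_assoc, add_neg_cancel, add_zero]
      exact hgt)
    rw [(TES D hD).act_neg_act] at h1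
    exact h1.symm

theorem uniform (hSC : SeqCol D) (hn : 3 ≤ n) (hD2 : 2 ≤ D) (hDn : D ≤ n) :
    ∃ Col : (ℕ → ℕ) × NC n D → Fin (n + D - 2), Measurable Col ∧
      ∀ ζ : ℕ → ℕ, Monotone ζ → ∀ h ∈ Yf hD, (∀ j, ¬ ζ ≤ UN h j) →
        ∀ i d, d ≠ 0 → Col (ζ, h) ≠ Col (ζ, (TES D hD).act i d h) := by
  obtain ⟨C, hCm, hCD, hC⟩ := hSC
  have hlt : ∀ p : (ℕ → ℕ) × NC n D, cv C p.1 p.2 < n + D - 2 := by
    intro p
    unfold cv
    split_ifs with h1 h2
    · have := hCD (p.1, uN p.2); omega
    · have := (miss_spec C D p.1 (uN p.2)).2; omega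
    · have := (kN p.2).isLt; omega
  refine ⟨fun p => ⟨cv C p.1 p.2, hlt p⟩, ?_, ?_⟩
  · have h1 : Measurable fun p : (ℕ → ℕ) × NC n D => cv C p.1 p.2 := by
      unfold cv
      have hk : Measurable fun p : (ℕ → ℕ) × NC n D => kN p.2 := measurable_kN.comp measurable_snd
      have hu : Measurable fun p : (ℕ → ℕ) × NC n D => (p.1, uN p.2) :=
        measurable_fst.prodMk (measurable_uN.comp measurable_snd)
      refine Measurable.ite (hk (measurableSet_singleton 0)) (hCm.comp hu) ?_
      refine Measurable.ite ?_ ((measurable_miss C hCm D).comp hu)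
        ((measurable_from_fin (fun a : Fin n => a.val)).comp hk)
      exact hk (MeasurableSet.of_discrete (s := {a : Fin n | a.val = D}))
    refine measurable_to_countable' fun x => ?_
    have : (fun p : (ℕ → ℕ) × NC n D => (⟨cv C p.1 p.2, hlt p⟩ : Fin (n + D - 2))) ⁻¹' {x} =
        (fun p : (ℕ → ℕ) × NC n D => cv C p.1 p.2) ⁻¹' {x.val} := by
      ext y; simp [Fin.ext_iff]
    rw [this]
    exact h1 (measurableSet_singleton _)
  · intro ζ hζ h hh hnd i d hd heq
    exact cv_proper hD C hCD hC ζ hζ h hh hnd i d hd (congrArg Fin.val heq)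

end

end Pool.Agent.H81.BCI
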