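import Pool.Agent.H81.BCI.Low
import Pool.Agent.H81.BCI.Up
import Pool.Agent.H81.BCI.Assembly
import Pool.Agent.H8.BCI.Coding
import Pool.Agent.H90.BCI.SeqCol
import Pool.Agent.H86.Det.Main

/-!
The main theorem: for `3 ≤ Δ ≤ k ≤ 2Δ - 2` it is Sigma^1_2-complete to distinguish Borel chromatic
index `k` from `k + 1` on `Δ`-regular acyclic Borel graphs.
-/

namespace Pool.Agent.H81.BCI

open MeasureTheory

theorem borelDet : BorelDet := by
  intro A _ W hW
  exact Pool.Agent.H86.Det.borel_determinacy W hW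

/-- product of a space with an edge system -/
def prodES {n : ℕ} [NeZero n] {E : Type*} [MeasurableSpace E] (Z : Type*) [MeasurableSpace Z]
    (S : ES n E) : ES n (Z × E) where
  pos i y := S.pos i y.2
  act i c y := (y.1, S.act i c y.2)
  meas_pos i := (S.meas_pos i).comp measurable_snd
  meas_act i c := measurable_fst.prodMk ((S.meas_act i c).comp measurable_snd)
  act_zero i y := by simp [S.act_zero]
  act_add i c d y := by simp [S.act_add]
  pos_act i c y := S.pos_act i c y.2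

theorem prodES_walk {n : ℕ} [NeZero n] {E : Type*} [MeasurableSpace E] (Z : Type*)
    [MeasurableSpace Z] (S : ES n E) (i : Bool) (l : List (Fin n)) (y : Z × E) :
    (prodES Z S).walk i l y = (y.1, S.walk i l y.2) := by
  induction l generalizing i y with
  | nil => rfl
  | cons c l ih =>
    show (prodES Z S).walk (!i) l ((prodES Z S).act i c y) = _
    rw [ih]
    rfl

theorem prodES_free {n : ℕ} [NeZero n] {E : Type*} [MeasurableSpace E] (Z : Type*)
    [MeasurableSpace Z] (S : ES n E) (y : Z × E) (h : S.FreeAt y.2) :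
    (prodES Z S).FreeAt y := by
  intro i l hl hc hw
  rw [prodES_walk] at hw
  exact h i l hl hc (congrArg Prod.snd hw)

theorem castCol {n : ℕ} [NeZero n] {E : Type*} [MeasurableSpace E] (S : ES n E) (Dm : Set E)
    {a b : ℕ} (hab : a = b) (h : ∃ c : E → Fin a, Measurable c ∧ S.ProperOn Dm c) :
    ∃ c : E → Fin b, Measurable c ∧ S.ProperOn Dm c := by
  subst hab; exact h

theorem Yf_nonempty {n : ℕ} [NeZero n] {D : ℕ} (hD : 1 ≤ D) (hDn : D ≤ n) (h : 2 < n + D) :
    (Yf (n := n) hD).Nonempty := by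
  by_contra hcon
  rw [Set.not_nonempty_iff_eq_empty] at hcon
  apply lower borelDet hD hDn (k := 1) h
  refine ⟨fun _ => 0, measurable_const, ?_⟩
  intro y hy
  rw [hcon] at hy
  exact hy.elim

theorem completeIndex {n k : ℕ} (hn : 3 ≤ n) (hnk : n ≤ k) (hk : k ≤ 2 * n - 2) :
    CompleteIndex n k := by
  classical
  have : NeZero n := ⟨by omega⟩
  obtain ⟨D, hD2, hDn, hkD⟩ : ∃ D, 2 ≤ D ∧ D ≤ n ∧ k = n + D - 2 :=
    ⟨k + 2 - n, by omega, by omega, by omega⟩
  have hD : 1 ≤ D := by omega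
  have hD' : 1 ≤ D - 1 := by omega
  -- the bounded part
  have hSC : SeqCol D := Pool.Agent.H90.BCI.seq_colouring D hD
  obtain ⟨Col, hCol, hprop⟩ := uniform hD hSC hn hD2 hDn
  intro B hB
  -- the colourings
  obtain ⟨cu, hcu, hcup⟩ := castCol (TES (n := n) D hD) (Yf hD) (show n + D - 1 = k + 1 by omega)
    (upper hD hDn)
  obtain ⟨c', hc', hcp'⟩ := castCol (TES (n := n) (D - 1) hD') (Yf hD')
    (show n + (D - 1) - 1 = k by omega) (upper hD' (by omega))
  have : Nonempty (NC n D) := by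
    obtain ⟨y, _⟩ := Yf_nonempty (n := n) hD hDn (by omega)
    exact ⟨y⟩
  have hcod := Pool.Agent.H8.BCI.coding (k := n + D - 2) (by omega) (Yf (n := n) hD)
    (measurableSet_Yf hD) (ι := {p : Bool × Fin n // p.2 ≠ 0})
    (fun p y => (TES D hD).act p.1.1 p.1.2 y) (fun p => (TES D hD).meas_act _ _) UN measurable_UN
    (fun h hh p => ⟨Yf_act hD _ _ hh, fun ζ hζ => UN_inv hD h _ _ hζ⟩) Col hCol
    (fun ζ hζ h hh hnd p => hprop ζ hζ h hh hnd _ _ p.2)
    (by
      rintro ⟨c, hc, hcp⟩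
      exact lower borelDet hD hDn (k := n + D - 2) (by omega)
        ⟨c, hc, fun y hy i d hd => hcp y hy ⟨(i, d), hd⟩⟩)
    B hB
  rw [← hkD] at hcod
  obtain ⟨Z, _, _, _, Dm, hDm, hDmR, hBc⟩ := hcod
  refine assembly (by omega) hnk (prodES Z (TES D hD)) Dm hDm ?_ (fun y => cu y.2)
    (hcu.comp measurable_snd) ?_ B ?_ (TES (D - 1) hD') (Yf hD') (measurableSet_Yf hD')
    (Yf_nonempty hD' (by omega) (by omega)) ?_ c' hc' hcp' ?_
  · rintro x ⟨z, h⟩ hx
    obtain ⟨h1, h2⟩ := hDmR x z h hx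
    refine ⟨prodES_free Z _ _ ((TES D hD).freeAt_of_not_NF h1.1), fun i c => ?_⟩
    by_cases hc : c = 0
    · rw [hc, (prodES Z (TES D hD)).act_zero]
      exact hx
    · exact h2 ⟨(i, c), hc⟩
  · intro x
    rintro ⟨z, h⟩ hx i d hd
    exact hcup h (hDmR x z h hx).1 i d hd
  · intro x
    rw [hBc]
    constructor
    · rintro ⟨c, hc, hcp⟩
      exact ⟨c, hc, fun y hy i d hd => hcp y.1 y.2 hy ⟨(i, d), hd⟩⟩
    · rintro ⟨c, hc, hcp⟩
      exact ⟨c, hc, fun z h hx p => hcp (z, h) hx p.1.1 p.1.2 p.2⟩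
  · intro y hy
    exact ⟨(TES (D - 1) hD').freeAt_of_not_NF hy.1, fun i c => Yf_act hD' i c hy⟩
  · intro j hj
    exact lower borelDet hD' (by omega) (by omega)

end Pool.Agent.H81.BCI
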