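import Pool.Agent.H81.BCI.GEasy
import Pool.Agent.H81.BCI.GLines
import Pool.Agent.H81.BCI.Main

/-!
The pair `Δ = k = 2`: not Sigma^1_2-complete.
-/

namespace Pool.Agent.H81.BCI

open Set MeasureTheory Topology

theorem polishCX : PolishSpace CX := PolishSpace.mk

theorem polishCX2 : PolishSpace (CX × CX) := by
  have := polishCX
  infer_instance

theorem completelyMetrizable_cont (Y : Type) [TopologicalSpace Y]
    [TopologicalSpace.IsCompletelyMetrizableSpace Y] :
    TopologicalSpace.IsCompletelyMetrizableSpace C((ℕ → Bool), Y) := by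
  let := TopologicalSpace.upgradeIsCompletelyMetrizable Y
  have : CompleteSpace C((ℕ → Bool), Y) := inferInstance
  let : MetricSpace C((ℕ → Bool), Y) := inferInstance
  exact MetricSpace.toIsCompletelyMetrizableSpace

theorem polishC : PolishSpace C((ℕ → Bool), CX × CX) := by
  have h0 := polishCX2
  have h1 := completelyMetrizable_cont (CX × CX)
  have h2 : SecondCountableTopology C((ℕ → Bool), CX × CX) := inferInstance
  exact PolishSpace.mk

theorem not_completeIndex_two : ¬ CompleteIndex 2 2 := by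
  have := polishCX2
  have := polishC
  intro hC
  obtain ⟨B, hB, hBc⟩ := exists_sigma12_not_compl
  apply hBc
  obtain ⟨f, hf, hG⟩ := hC B hB
  choose G hcode hac h2 hin hout using hG
  have hGm : MeasurableSet {p : CX × (CX × CX) | (G p.1).Adj p.2.1 p.2.2} :=
    measurableSet_of_codes f hf (fun x => {p | (G x).Adj p.1 p.2}) hcode
  obtain ⟨H, hH, hsymm, hcol⟩ := lines G hGm h2
  obtain ⟨sq, hsq⟩ := exists_sq
  -- the complement of `B` in terms of homomorphisms from `G_0`
  have key : ∀ x, x ∈ Bᶜ ↔ ∃ φ : C((ℕ → Bool), CX × CX), ∀ n z, (∀ i < n, z i = sq n i) →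
      z n = false → (x, (φ z, φ (flipAt n z))) ∈ H := by
    intro x
    have h1 : x ∈ B ↔ EdgeCol (G x) 2 := by
      constructor
      · intro hx; exact (hin x hx).1
      · intro h
        by_contra hx
        exact (hout x hx).2 2 (by omega) h
    rw [mem_compl_iff, h1, hcol x]
    constructor
    · intro hno
      exact g0_dichotomy sq {p | (x, p) ∈ H} (measurable_prodMk_left hH)
        (fun a b h => hsymm x a b h) hno
    · rintro ⟨φ, hφ⟩ ⟨c, hc, hcH⟩
      exact g0_not_colourable sq hsq ⟨fun z => c (φ z), hc.comp φ.continuous.measurable,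
        fun n z h h' => hcH _ _ (hφ n z h h')⟩
  obtain ⟨q, hq, hqs⟩ := PolishSpace.exists_nat_nat_continuous_surjective
    C((ℕ → Bool), CX × CX)
  let M : Set ((CX × (ℕ → ℕ)) × (ℕ × (ℕ → Bool))) :=
    {r | ((∀ i < r.2.1, r.2.2 i = sq r.2.1 i) ∧ r.2.2 r.2.1 = false) ∧
      (r.1.1, (q r.1.2 r.2.2, q r.1.2 (flipAt r.2.1 r.2.2))) ∉ H}
  have hM : MeasurableSet M := by
    have hev : Measurable fun p : (ℕ → ℕ) × (ℕ → Bool) => q p.1 p.2 := by
      have : Continuous fun p : (ℕ → ℕ) × (ℕ → Bool) => q p.1 p.2 :=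
        (hq.comp continuous_fst).eval continuous_snd
      exact this.measurable
    have : M = ⋃ n : ℕ, ({r | r.2.1 = n} ∩ (({r | ∀ i < n, r.2.2 i = sq n i} ∩
        {r | r.2.2 n = false}) ∩
        {r | (r.1.1, (q r.1.2 r.2.2, q r.1.2 (flipAt n r.2.2))) ∉ H})) := by
      ext r
      simp only [mem_iUnion, mem_inter_iff, Set.mem_ofPred_eq, M]
      constructor
      · rintro ⟨⟨h1, h2⟩, h3⟩
        exact ⟨r.2.1, rfl, ⟨h1, h2⟩, h3⟩
      · rintro ⟨n, rfl, ⟨h1, h2⟩, h3⟩
        exact ⟨⟨h1, h2⟩, h3⟩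
    rw [this]
    refine MeasurableSet.iUnion fun n => MeasurableSet.inter ?_
      (MeasurableSet.inter (MeasurableSet.inter ?_ ?_) ?_)
    · exact (measurable_fst.comp measurable_snd) (measurableSet_singleton n)
    · simp only [Set.ofPred_forall]
      refine MeasurableSet.iInter fun i => MeasurableSet.iInter fun _ => ?_
      exact ((measurable_pi_apply i).comp (measurable_snd.comp measurable_snd))
        (measurableSet_singleton _)
    · exact ((measurable_pi_apply n).comp (measurable_snd.comp measurable_snd))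
        (measurableSet_singleton _)
    · have h1 : Measurable fun r : (CX × (ℕ → ℕ)) × (ℕ × (ℕ → Bool)) =>
          (r.1.1, (q r.1.2 r.2.2, q r.1.2 (flipAt n r.2.2))) := by
        refine (measurable_fst.comp measurable_fst).prodMk (Measurable.prodMk ?_ ?_)
        · exact hev.comp ((measurable_snd.comp measurable_fst).prodMk
            (measurable_snd.comp measurable_snd))
        · exact hev.comp ((measurable_snd.comp measurable_fst).prodMk
            ((continuous_flipAt n).measurable.comp (measurable_snd.comp measurable_snd)))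
      exact (h1 hH).compl
  refine ⟨Prod.fst '' M, MeasurableSet.analyticSet_image hM measurable_fst, ?_⟩
  ext x
  rw [key x]
  constructor
  · rintro ⟨φ, hφ⟩
    obtain ⟨y, rfl⟩ := hqs φ
    refine ⟨y, ?_⟩
    rintro ⟨⟨⟨x', y'⟩, ⟨n, z⟩⟩, ⟨⟨h1, h3⟩, h4⟩, he⟩
    obtain ⟨rfl, rfl⟩ := Prod.mk.inj he
    exact h4 (hφ n z h1 h3)
  · rintro ⟨y, hy⟩
    refine ⟨q y, fun n z h1 h3 => ?_⟩
    by_contra hcon
    exact hy ⟨((x, y), (n, z)), ⟨⟨h1, h3⟩, hcon⟩, rfl⟩

/-- the complete answer: all pairs `Δ ≤ k ≤ 2Δ - 2` -/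
theorem completeIndex_iff {Δ k : ℕ} (h0 : 1 ≤ Δ) (h1 : Δ ≤ k) (h2 : k ≤ 2 * Δ - 2) :
    CompleteIndex Δ k ↔ 3 ≤ Δ := by
  constructor
  · intro h
    by_contra hlt
    have hΔ : Δ = 2 := by omega
    have hk : k = 2 := by omega
    subst hΔ
    subst hk
    exact not_completeIndex_two h
  · intro h
    exact completeIndex h h1 h2

end Pool.Agent.H81.BCI
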