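import Pool.Agent.H81.BCI.Defs

/-!
The `G_0` dichotomy of Kechris, Solecki and Todorcevic (hard direction, Miller's proof).
-/

namespace Pool.Agent.H81.BCI

open Set MeasureTheory Topology

/-- flip the `n`-th coordinate -/
def flipAt (n : ℕ) (z : ℕ → Bool) : ℕ → Bool := Function.update z n (!z n)

namespace GZ

section
variable {Y : Type}

/-- independent sets -/
def Ind (H : Set (Y × Y)) (A : Set Y) : Prop := ∀ a ∈ A, ∀ b ∈ A, (a, b) ∉ H

/-- sets covered by countably many independent Borel sets -/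
def Small [MeasurableSpace Y] (H : Set (Y × Y)) (S : Set Y) : Prop :=
  ∃ A : ℕ → Set Y, (∀ n, MeasurableSet (A n)) ∧ (∀ n, Ind H (A n)) ∧ S ⊆ ⋃ n, A n

theorem Small.iUnion [MeasurableSpace Y] {H : Set (Y × Y)} {ι : Type} [Countable ι]
    {S : ι → Set Y} (h : ∀ i, Small H (S i)) : Small H (⋃ i, S i) := by
  rcases isEmpty_or_nonempty ι with hι | hι
  · refine ⟨fun _ => ∅, fun _ => MeasurableSet.empty, fun _ a ha => ha.elim, ?_⟩
    simp
  obtain ⟨e, he⟩ := exists_surjective_nat ι
  choose A hA hI hS using h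
  refine ⟨fun m => A (e m.unpair.1) m.unpair.2, fun m => hA _ _, fun m => hI _ _, ?_⟩
  intro y hy
  obtain ⟨i, hi⟩ := mem_iUnion.mp hy
  obtain ⟨n, hn⟩ := mem_iUnion.mp (hS i hi)
  obtain ⟨j, rfl⟩ := he i
  refine mem_iUnion.mpr ⟨Nat.pair j n, ?_⟩
  simpa using hn

theorem Small.mono [MeasurableSpace Y] {H : Set (Y × Y)} {S S' : Set Y} (h : Small H S)
    (hS : S' ⊆ S) : Small H S' := by
  obtain ⟨A, hA, hI, hc⟩ := h
  exact ⟨A, hA, hI, hS.trans hc⟩

theorem Small.of_ind [MeasurableSpace Y] {H : Set (Y × Y)} {S : Set Y} (hS : MeasurableSet S)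
    (hI : Ind H S) : Small H S :=
  ⟨fun _ => S, fun _ => hS, fun _ => hI, fun _ hy => mem_iUnion.mpr ⟨0, hy⟩⟩

theorem colouring_of_small [MeasurableSpace Y] {H : Set (Y × Y)} (h : Small H univ) :
    ∃ c : Y → ℕ, Measurable c ∧ ∀ a b, (a, b) ∈ H → c a ≠ c b := by
  classical
  obtain ⟨A, hA, hI, hc⟩ := h
  have hp : ∀ y, ∃ n, y ∈ A n := fun y => mem_iUnion.mp (hc (mem_univ y))
  refine ⟨fun y => Nat.find (hp y), measurable_find hp fun k => hA k, ?_⟩
  intro a b hab heq
  have h1 := Nat.find_spec (hp a)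
  have h2 := Nat.find_spec (hp b)
  simp only at heq
  rw [← heq] at h2
  exact hI _ a h1 b h2 hab

theorem reflect [TopologicalSpace Y] [PolishSpace Y] [MeasurableSpace Y] [BorelSpace Y]
    {H : Set (Y × Y)} (hH : MeasurableSet H) (hsymm : ∀ a b, (a, b) ∈ H → (b, a) ∈ H)
    {A : Set Y} (hA : AnalyticSet A) (hI : Ind H A) :
    ∃ B, MeasurableSet B ∧ A ⊆ B ∧ Ind H B := by
  have key : ∀ S : Set Y, AnalyticSet S → AnalyticSet {y | ∃ x ∈ S, (x, y) ∈ H} := by
    intro S hS
    rw [AnalyticSet] at hS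
    rcases hS with rfl | ⟨g, hg, rfl⟩
    · have : {y : Y | ∃ x ∈ (∅ : Set Y), (x, y) ∈ H} = ∅ := by ext y; simp
      rw [this]
      exact analyticSet_empty
    · have : {y : Y | ∃ x ∈ range g, (x, y) ∈ H} =
          Prod.snd '' {p : (ℕ → ℕ) × Y | (g p.1, p.2) ∈ H} := by
        ext y
        constructor
        · rintro ⟨x, ⟨v, rfl⟩, h⟩
          exact ⟨(v, y), h, rfl⟩
        · rintro ⟨⟨v, y'⟩, h, rfl⟩
          exact ⟨g v, ⟨v, rfl⟩, h⟩
      rw [this]
      refine MeasurableSet.analyticSet_image ?_ measurable_snd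
      exact ((hg.measurable.comp measurable_fst).prodMk measurable_snd) hH
  obtain ⟨U, hU1, hU2, hU3⟩ := hA.measurablySeparable (key A hA) (by
    rw [Set.disjoint_left]
    rintro a ha ⟨x, hx, hxa⟩
    exact hI x hx a ha hxa)
  obtain ⟨V, hV1, hV2, hV3⟩ := hA.measurablySeparable (key U hU3.analyticSet) (by
    rw [Set.disjoint_left]
    rintro a ha ⟨x, hx, hxa⟩
    exact Set.disjoint_left.mp hU2 ⟨a, ha, hsymm _ _ hxa⟩ hx)
  refine ⟨U ∩ V, hU3.inter hV3, fun a ha => ⟨hU1 ha, hV1 ha⟩, ?_⟩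
  rintro a ⟨ha, _⟩ b ⟨_, hb⟩ hab
  exact Set.disjoint_left.mp hV2 ⟨a, ha, hab⟩ hb

/-! ### Approximations and configurations -/

/-- approximations of level `N` -/
abbrev Ap (N : ℕ) := ((Fin N → Bool) → Fin N → ℕ) × (Fin N → (Fin N → Bool) → Fin N → ℕ)

/-- configurations of level `N` -/
abbrev Cf (N : ℕ) := ((Fin N → Bool) → ℕ → ℕ) × (Fin N → (Fin N → Bool) → ℕ → ℕ)

variable (sq : ℕ → ℕ → Bool) (pY : (ℕ → ℕ) → Y) (pH : (ℕ → ℕ) → Y × Y)

/-- the defining equations of a configuration -/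
def IsCf {N : ℕ} (γ : Cf N) : Prop :=
  ∀ (n : Fin N) (t : Fin N → Bool), (∀ i : Fin N, i < n → t i = sq n i) → t n = false →
    pH (γ.2 n t) = (pY (γ.1 t), pY (γ.1 (Function.update t n true)))

/-- compatibility with an approximation -/
def Cmp {N : ℕ} (a : Ap N) (γ : Cf N) : Prop :=
  (∀ t i, γ.1 t (Fin.val i) = a.1 t i) ∧ (∀ n t i, γ.2 n t (Fin.val i) = a.2 n t i)

/-- compatibility with a set -/
def InZ (Z : Set Y) {N : ℕ} (γ : Cf N) : Prop := ∀ t, pY (γ.1 t) ∈ Z

/-- one-step extensions -/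
def Ext {N : ℕ} (a : Ap N) (a' : Ap (N + 1)) : Prop :=
  (∀ t i, a'.1 t (Fin.castSucc i) = a.1 (fun j => t (Fin.castSucc j)) i) ∧
    ∀ n t i, a'.2 (Fin.castSucc n) t (Fin.castSucc i) = a.2 n (fun j => t (Fin.castSucc j)) i

/-- terminal approximations -/
def Term (Z : Set Y) {N : ℕ} (a : Ap N) : Prop :=
  ∀ a' : Ap (N + 1), Ext a a' → ∀ γ : Cf (N + 1), IsCf sq pY pH γ → Cmp a' γ → ¬ InZ pY Z γ

/-- values at the distinguished string -/
def AA (Z : Set Y) {N : ℕ} (a : Ap N) : Set Y :=
  (fun γ : Cf N => pY (γ.1 fun i => sq N i.val)) ''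
    {γ | IsCf sq pY pH γ ∧ Cmp a γ ∧ InZ pY Z γ}

theorem Term.mono {Z Z' : Set Y} (hZ : Z' ⊆ Z) {N : ℕ} {a : Ap N} (h : Term sq pY pH Z a) :
    Term sq pY pH Z' a :=
  fun a' ha γ h1 h2 h3 => h a' ha γ h1 h2 fun t => hZ (h3 t)

/-- the approximation below a configuration -/
def low {N : ℕ} (γ : Cf N) : Ap N :=
  (fun t i => γ.1 t i.val, fun n t i => γ.2 n t i.val)

theorem cmp_low {N : ℕ} (γ : Cf N) : Cmp (low γ) γ := ⟨fun _ _ => rfl, fun _ _ _ => rfl⟩

theorem term_ind (H : Set (Y × Y)) (hpH : range pH = H) (Z : Set Y) {N : ℕ} (a : Ap N)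
    (h : Term sq pY pH Z a) : Ind H (AA sq pY pH Z a) := by
  rintro _ ⟨γ0, ⟨h01, h02, h03⟩, rfl⟩ _ ⟨γ1, ⟨h11, h12, h13⟩, rfl⟩ hab
  rw [← hpH] at hab
  obtain ⟨w, hw⟩ := hab
  let γ : Cf (N + 1) := (fun t => if t (Fin.last N) = false then γ0.1 (fun j => t j.castSucc)
      else γ1.1 (fun j => t j.castSucc),
    fun n t => Fin.lastCases (motive := fun _ => ℕ → ℕ) w (fun n => if t (Fin.last N) = false then
      γ0.2 n (fun j => t j.castSucc) else γ1.2 n (fun j => t j.castSucc)) n)
  refine h (low γ) ?_ γ ?_ (cmp_low γ) ?_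
  · constructor
    · intro t i
      simp only [low, γ, Fin.val_castSucc]
      split_ifs
      · exact h02.1 _ _
      · exact h12.1 _ _
    · intro n t i
      simp only [low, γ, Fin.val_castSucc, Fin.lastCases_castSucc]
      split_ifs
      · exact h02.2 _ _ _
      · exact h12.2 _ _ _
  · intro n
    refine Fin.lastCases ?_ (fun n => ?_) n
    · intro t ht hl
      have e : (fun j : Fin N => t j.castSucc) = fun i => sq N i.val := by
        funext j
        exact ht j.castSucc (Fin.castSucc_lt_last j)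
      have e' : (fun j : Fin N => Function.update t (Fin.last N) true j.castSucc) =
          fun i => sq N i.val := by
        rw [← e]
        funext j
        rw [Function.update_of_ne (Fin.castSucc_lt_last j).ne]
      simp only [γ, Fin.lastCases_last, hl, if_true, Function.update_self, Bool.true_eq_false,
        if_false]
      rw [e, e', hw]
    · intro t ht hl
      have e : (fun j : Fin N => Function.update t n.castSucc true j.castSucc) =
          Function.update (fun j : Fin N => t j.castSucc) n true := by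
        funext j
        by_cases hj : j = n
        · subst hj; simp
        · rw [Function.update_of_ne hj, Function.update_of_ne]
          exact fun h => hj (Fin.castSucc_injective N h)
      have e2 : Function.update t n.castSucc true (Fin.last N) = t (Fin.last N) :=
        Function.update_of_ne (Fin.castSucc_lt_last n).ne' _ _
      have hc : ∀ i : Fin N, i < n → t i.castSucc = sq n i := by
        intro i hi
        exact ht i.castSucc (Fin.castSucc_lt_castSucc_iff.mpr hi)
      simp only [γ, Fin.lastCases_castSucc]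
      rw [e2, e]
      by_cases hb : t (Fin.last N) = false
      · simp only [hb, if_true]
        exact h01 n _ hc hl
      · simp only [hb]
        exact h11 n _ hc hl
  · intro t
    simp only [γ]
    split_ifs
    · exact h03 _
    · exact h13 _

theorem analytic_AA [TopologicalSpace Y] [PolishSpace Y] [MeasurableSpace Y] [BorelSpace Y]
    (hpY : Continuous pY) (hpH : Continuous pH) {Z : Set Y} (hZ : MeasurableSet Z) {N : ℕ}
    (a : Ap N) : AnalyticSet (AA sq pY pH Z a) := by
  have hm1 : ∀ t, Measurable fun γ : Cf N => γ.1 t := fun t =>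
    (measurable_pi_apply t).comp measurable_fst
  have hm2 : ∀ n t, Measurable fun γ : Cf N => γ.2 n t := fun n t =>
    (measurable_pi_apply t).comp ((measurable_pi_apply n).comp measurable_snd)
  refine MeasurableSet.analyticSet_image ?_ (hpY.measurable.comp (hm1 _))
  have e1 : MeasurableSet {γ : Cf N | IsCf sq pY pH γ} := by
    unfold IsCf
    simp only [Set.ofPred_forall]
    refine MeasurableSet.iInter fun n => MeasurableSet.iInter fun t => MeasurableSet.iInter fun _ =>
      MeasurableSet.iInter fun _ => ?_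
    exact measurableSet_eq_fun (hpH.measurable.comp (hm2 n t))
      ((hpY.measurable.comp (hm1 t)).prodMk (hpY.measurable.comp (hm1 _)))
  have e2 : MeasurableSet {γ : Cf N | Cmp a γ} := by
    unfold Cmp
    simp only [Set.ofPred_and, Set.ofPred_forall]
    refine MeasurableSet.inter (MeasurableSet.iInter fun t => MeasurableSet.iInter fun i => ?_)
      (MeasurableSet.iInter fun n => MeasurableSet.iInter fun t => MeasurableSet.iInter fun i => ?_)
    · exact measurableSet_eq_fun ((measurable_pi_apply _).comp (hm1 t)) measurable_const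
    · exact measurableSet_eq_fun ((measurable_pi_apply _).comp (hm2 n t)) measurable_const
  have e3 : MeasurableSet {γ : Cf N | InZ pY Z γ} := by
    unfold InZ
    simp only [Set.ofPred_forall]
    exact MeasurableSet.iInter fun t => (hpY.measurable.comp (hm1 t)) hZ
  exact e1.inter (e2.inter e3)

end

end GZ

open GZ

/-- **The `G_0` dichotomy** (hard direction) -/
theorem g0_dichotomy (sq : ℕ → ℕ → Bool) {Y : Type} [TopologicalSpace Y] [PolishSpace Y]
    [MeasurableSpace Y] [BorelSpace Y] (H : Set (Y × Y)) (hH : MeasurableSet H)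
    (hsymm : ∀ a b, (a, b) ∈ H → (b, a) ∈ H)
    (hno : ¬ ∃ c : Y → ℕ, Measurable c ∧ ∀ a b, (a, b) ∈ H → c a ≠ c b) :
    ∃ φ : C((ℕ → Bool), Y), ∀ n z, (∀ i < n, z i = sq n i) → z n = false →
      (φ z, φ (flipAt n z)) ∈ H := by
  classical
  have hneH : H.Nonempty := by
    by_contra h
    rw [not_nonempty_iff_eq_empty] at h
    exact hno ⟨fun _ => 0, measurable_const, fun a b hab => by rw [h] at hab; exact hab.elim⟩
  have : Nonempty Y := ⟨hneH.some.1⟩
  obtain ⟨pY, hpY, hsY⟩ := PolishSpace.exists_nat_nat_continuous_surjective Y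
  obtain ⟨pH, hpH, hrH⟩ : ∃ pH : (ℕ → ℕ) → Y × Y, Continuous pH ∧ range pH = H := by
    have h0 := hH.analyticSet
    rw [AnalyticSet] at h0
    rcases h0 with h | h
    · exact absurd h hneH.ne_empty
    · exact h
  -- good sets
  let Good : Set Y → Prop := fun Z => MeasurableSet Z ∧ Small H Zᶜ
  -- the set with the most terminal approximations
  obtain ⟨Z, hZ, hmax⟩ : ∃ Z, Good Z ∧ ∀ Z', Good Z' → ∀ N (a : Ap N), Term sq pY pH Z' a →
      Term sq pY pH Z a := by
    have hch : ∀ a : (Σ N, Ap N), ∃ Za, Good Za ∧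
        ((∃ Z', Good Z' ∧ Term sq pY pH Z' a.2) → Term sq pY pH Za a.2) := by
      intro a
      by_cases h : ∃ Z', Good Z' ∧ Term sq pY pH Z' a.2
      · obtain ⟨Z', h1, h2⟩ := h
        exact ⟨Z', h1, fun _ => h2⟩
      · refine ⟨univ, ⟨MeasurableSet.univ, ?_⟩, fun h' => absurd h' h⟩
        rw [compl_univ]
        exact Small.of_ind MeasurableSet.empty fun a ha => ha.elim
    choose Za hZa hZa' using hch
    refine ⟨⋂ a, Za a, ⟨MeasurableSet.iInter fun a => (hZa a).1, ?_⟩, ?_⟩
    · rw [compl_iInter]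
      exact Small.iUnion fun a => (hZa a).2
    · intro Z' hZ' N a ha
      exact (hZa' ⟨N, a⟩ ⟨Z', hZ', ha⟩).mono _ _ _ (iInter_subset _ _)
  -- remove the terminal parts
  have hB : ∀ a : (Σ N, Ap N), ∃ B, MeasurableSet B ∧ Ind H B ∧
      (Term sq pY pH Z a.2 → AA sq pY pH Z a.2 ⊆ B) := by
    intro a
    by_cases h : Term sq pY pH Z a.2
    · obtain ⟨B, h1, h2, h3⟩ := reflect hH hsymm (analytic_AA sq pY pH hpY hpH hZ.1 a.2)
        (term_ind sq pY pH H hrH Z a.2 h)
      exact ⟨B, h1, h3, fun _ => h2⟩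
    · exact ⟨∅, MeasurableSet.empty, fun a ha => ha.elim, fun h' => absurd h' h⟩
  choose B hBm hBI hBA using hB
  let Z' : Set Y := Z \ ⋃ a, B a
  have hZ' : Good Z' := by
    refine ⟨hZ.1.diff (MeasurableSet.iUnion hBm), ?_⟩
    have h1 : Small H (⋃ b : Bool, if b then Zᶜ else ⋃ a, B a) := by
      refine Small.iUnion fun b => ?_
      cases b
      · simpa using Small.iUnion fun a => Small.of_ind (hBm a) (hBI a)
      · simpa using hZ.2
    refine h1.mono ?_
    intro y hy
    by_cases hyZ : y ∈ Z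
    · refine mem_iUnion.mpr ⟨false, ?_⟩
      simp only [Bool.false_eq_true, if_false]
      by_contra hcon
      exact hy ⟨hyZ, hcon⟩
    · exact mem_iUnion.mpr ⟨true, by simpa using hyZ⟩
  have hstep : ∀ N (a : Ap N), ¬ Term sq pY pH Z a → ∃ a' : Ap (N + 1), Ext a a' ∧
      (∃ γ : Cf (N + 1), IsCf sq pY pH γ ∧ Cmp a' γ) ∧ ¬ Term sq pY pH Z a' := by
    intro N a ha
    have h1 : ¬ Term sq pY pH Z' a := fun h => ha (hmax Z' hZ' N a h)
    unfold Term at h1
    push Not at h1
    obtain ⟨a', hext, γ, h2, h3, h4⟩ := h1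
    refine ⟨a', hext, ⟨γ, h2, h3⟩, fun hT => ?_⟩
    have h5 : pY (γ.1 fun i => sq (N + 1) i.val) ∈ B ⟨N + 1, a'⟩ :=
      hBA ⟨N + 1, a'⟩ hT ⟨γ, ⟨h2, h3, fun t => (h4 t).1⟩, rfl⟩
    exact (h4 fun i => sq (N + 1) i.val).2 (mem_iUnion.mpr ⟨_, h5⟩)
  -- the empty approximation is not terminal
  let a0 : Ap 0 := (fun _ i => i.elim0, fun n => n.elim0)
  have h0 : ¬ Term sq pY pH Z a0 := by
    intro h
    have h1 := term_ind sq pY pH H hrH Z a0 h
    have h2 : AA sq pY pH Z a0 = Z := by
      apply Subset.antisymm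
      · rintro _ ⟨γ, ⟨_, _, h3⟩, rfl⟩
        exact h3 _
      · intro y hy
        obtain ⟨v, rfl⟩ := hsY y
        exact ⟨(fun _ => v, fun n => n.elim0), ⟨fun n => n.elim0,
          ⟨fun _ i => i.elim0, fun n => n.elim0⟩, fun _ => hy⟩, rfl⟩
    rw [h2] at h1
    apply hno
    apply colouring_of_small
    have h3 : Small H (⋃ b : Bool, if b then Zᶜ else Z) := by
      refine Small.iUnion fun b => ?_
      cases b
      · simpa using Small.of_ind hZ.1 h1
      · simpa using hZ.2
    refine h3.mono fun y _ => ?_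
    by_cases hy : y ∈ Z
    · exact mem_iUnion.mpr ⟨false, by simpa using hy⟩
    · exact mem_iUnion.mpr ⟨true, by simpa using hy⟩
  -- the sequence of approximations
  choose nx hnx1 hnx2 hnx3 using hstep
  let sa : ∀ N, {a : Ap N // ¬ Term sq pY pH Z a} := fun N =>
    Nat.rec ⟨a0, h0⟩ (fun N a => ⟨nx N a.1 a.2, hnx3 N a.1 a.2⟩) N
  have hsucc : ∀ N, (sa (N + 1)).1 = nx N (sa N).1 (sa N).2 := fun N => rfl
  have hext : ∀ N, Ext (sa N).1 (sa (N + 1)).1 := fun N => by
    rw [hsucc]; exact hnx1 N _ _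
  have hcf : ∀ N, ∃ γ : Cf (N + 1), IsCf sq pY pH γ ∧ Cmp (sa (N + 1)).1 γ := fun N => by
    rw [hsucc]; exact hnx2 N _ _
  choose cf hcf1 hcf2 using hcf
  -- digits
  have hd1 : ∀ M N (hMN : M ≤ N) (t : Fin N → Bool) (i : Fin M),
      (sa N).1.1 t (Fin.castLE hMN i) = (sa M).1.1 (fun j => t (Fin.castLE hMN j)) i := by
    intro M N hMN
    induction N, hMN using Nat.le_induction with
    | base => intro t i; rfl
    | succ N hMN ih =>
      intro t i
      have h1 := (hext N).1 t (Fin.castLE hMN i)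
      have h2 := ih (fun j => t j.castSucc) i
      exact h1.trans h2
  have hd2 : ∀ M N (hMN : M ≤ N) (n : Fin M) (t : Fin N → Bool) (i : Fin M),
      (sa N).1.2 (Fin.castLE hMN n) t (Fin.castLE hMN i) =
        (sa M).1.2 n (fun j => t (Fin.castLE hMN j)) i := by
    intro M N hMN
    induction N, hMN using Nat.le_induction with
    | base => intro n t i; rfl
    | succ N hMN ih =>
      intro n t i
      have h1 := (hext N).2 (Fin.castLE hMN n) t (Fin.castLE hMN i)
      have h2 := ih n (fun j => t j.castSucc) i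
      exact h1.trans h2
  let U : (ℕ → Bool) → ℕ → ℕ := fun z i =>
    (sa (i + 1)).1.1 (fun j => z j.val) ⟨i, Nat.lt_succ_self i⟩
  let V : ℕ → (ℕ → Bool) → ℕ → ℕ := fun n z i =>
    (sa (max i n + 1)).1.2 ⟨n, by omega⟩ (fun j => z j.val) ⟨i, by omega⟩
  have hU : ∀ z N i (hi : i < N), U z i = (sa N).1.1 (fun j => z j.val) ⟨i, hi⟩ := by
    intro z N i hi
    exact (hd1 (i + 1) N hi (fun j => z j.val) ⟨i, Nat.lt_succ_self i⟩).symm
  have hV : ∀ n z N i (hi : i < N) (hn : n < N),
      V n z i = (sa N).1.2 ⟨n, hn⟩ (fun j => z j.val) ⟨i, hi⟩ := by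
    intro n z N i hi hn
    exact (hd2 (max i n + 1) N (by omega) ⟨n, by omega⟩ (fun j => z j.val) ⟨i, by omega⟩).symm
  have hUc : Continuous U := by
    refine continuous_pi fun i => ?_
    have h1 : Continuous fun z : ℕ → Bool => fun j : Fin (i + 1) => z j.val :=
      continuous_pi fun j => continuous_apply _
    exact (continuous_of_discreteTopology (f := fun t : Fin (i + 1) → Bool =>
      (sa (i + 1)).1.1 t ⟨i, Nat.lt_succ_self i⟩)).comp h1
  refine ⟨⟨fun z => pY (U z), hpY.comp hUc⟩, fun n z hz hzn => ?_⟩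
  simp only [ContinuousMap.coe_mk]
  rw [← hrH]
  refine ⟨V n z, ?_⟩
  -- limits
  let w : ℕ → ℕ → ℕ := fun N => (cf (N + n)).2 ⟨n, by omega⟩ (fun j => z j.val)
  let p : ℕ → ℕ → ℕ := fun N => (cf (N + n)).1 (fun j => z j.val)
  let q : ℕ → ℕ → ℕ := fun N => (cf (N + n)).1 (fun j => flipAt n z j.val)
  have hflip : ∀ N (hn : n < N), (fun j : Fin N => flipAt n z j.val) =
      Function.update (fun j : Fin N => z j.val) ⟨n, hn⟩ true := by
    intro N hn
    funext j
    by_cases hj : j = ⟨n, hn⟩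
    · subst hj
      simp [flipAt, hzn]
    · rw [Function.update_of_ne hj]
      unfold flipAt
      rw [Function.update_of_ne]
      exact fun h => hj (Fin.ext h)
  have heq : ∀ N, pH (w N) = (pY (p N), pY (q N)) := by
    intro N
    have h1 := hcf1 (N + n) ⟨n, by omega⟩ (fun j => z j.val) (fun i hi => hz i hi) hzn
    simp only [w, p, q]
    rw [h1, hflip (N + n + 1) (by omega)]
  have hw : Filter.Tendsto w Filter.atTop (𝓝 (V n z)) := by
    rw [tendsto_pi_nhds]
    intro i
    refine tendsto_const_nhds.congr' ?_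
    filter_upwards [Filter.eventually_ge_atTop i] with N hN
    have h1 := (hcf2 (N + n)).2 ⟨n, by omega⟩ (fun j => z j.val) ⟨i, by omega⟩
    simp only [w]
    rw [hV n z (N + n + 1) i (by omega) (by omega)]
    exact h1.symm
  have hp : Filter.Tendsto p Filter.atTop (𝓝 (U z)) := by
    rw [tendsto_pi_nhds]
    intro i
    refine tendsto_const_nhds.congr' ?_
    filter_upwards [Filter.eventually_ge_atTop i] with N hN
    have h1 := (hcf2 (N + n)).1 (fun j => z j.val) ⟨i, by omega⟩
    simp only [p]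
    rw [hU z (N + n + 1) i (by omega)]
    exact h1.symm
  have hq : Filter.Tendsto q Filter.atTop (𝓝 (U (flipAt n z))) := by
    rw [tendsto_pi_nhds]
    intro i
    refine tendsto_const_nhds.congr' ?_
    filter_upwards [Filter.eventually_ge_atTop i] with N hN
    have h1 := (hcf2 (N + n)).1 (fun j => flipAt n z j.val) ⟨i, by omega⟩
    simp only [q]
    rw [hU (flipAt n z) (N + n + 1) i (by omega)]
    exact h1.symm
  have h1 : Filter.Tendsto (fun N => pH (w N)) Filter.atTop (𝓝 (pH (V n z))) :=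
    (hpH.tendsto _).comp hw
  have h2 : Filter.Tendsto (fun N => pH (w N)) Filter.atTop
      (𝓝 (pY (U z), pY (U (flipAt n z)))) := by
    simp only [heq]
    exact ((hpY.tendsto _).comp hp).prodMk_nhds ((hpY.tendsto _).comp hq)
  exact tendsto_nhds_unique h1 h2

end Pool.Agent.H81.BCI
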