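import Pool.Agent.H81.BCI.Code
import Pool.Agent.H81.BCI.Dig

/-!
Lower bound: the space of labelled trees has no Borel edge colouring with `n + D - 2` colours.
-/

namespace Pool.Agent.H81.BCI
open MeasureTheory

section
variable {n : ℕ} [NeZero n] {D : ℕ}

omit [NeZero n] in
theorem sh_lt (hD : 1 ≤ D) (b : Fin n) : sh D b < D := by
  unfold sh; split_ifs with h
  · exact h
  · omega

/-- local data seen from position `b` of a vertex with sequence `z` and zero tags -/
def ldz (D : ℕ) (z : ℕ → ℕ) (b : Fin n) : LD n :=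
  (if kind D b = 0 then b else 0, fun m => if m < sh D b then z m else 0, fun _ => 0)

/-- tree with root of the kind of position `b`, root sequence `u`, root tag `0`, half trees `f` -/
def mkR (b : Fin n) (u : ℕ → ℕ) (f : Bool → HT n) : NC n D :=
  ⟨((u, kind D b, 0), fun j => nrm D (kind D b) (f j)), kind_kind D b, fun _ => nrm_nrm D _ _⟩

theorem mkR_kind (b : Fin n) (u : ℕ → ℕ) (f : Bool → HT n) :
    (mkR (kind D b) u f : NC n D) = mkR b u f := by
  unfold mkR
  simp only [kind_kind]

theorem act_mkR (hD : 1 ≤ D) (s : Bool) (z : ℕ → ℕ) (F G : Fin n → HT n)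
    (hG : ∀ b, G b [] = ldz D z b) (hG' : ∀ b c l, G b (c :: l) = F (b + c) l) (b c : Fin n) :
    (TES D hD).act (!s) c (mkR b (fun m => z (m + sh D b)) (fun j => if j = s then F b else G b)) =
      mkR (b + c) (fun m => z (m + sh D (b + c)))
        (fun j => if j = s then F (b + c) else G (b + c)) := by
  apply Subtype.ext
  set Y : Fin n → Code n := fun b => ((fun m => z (m + sh D b), kind D b, 0), fun j =>
    nrm D (kind D b) (if j = s then F b else G b)) with hY
  show actC D (!s) c (Y b) = Y (b + c)
  have hns : ((!s) = s) = False := by simp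
  have h2 : ∀ b, (Y b).2 (!s) = nrm D (kind D b) (G b) := by
    intro b; simp only [hY, hns, if_false]
  have h2s : ∀ b, (Y b).2 s = nrm D (kind D b) (F b) := by
    intro b; simp only [hY, if_true]
  have hnil : ∀ b, (Y b).2 (!s) [] = nld D (kind D b) (ldz D z b) := by
    intro b; rw [h2, nrm_nil, hG]
  have hent : ∀ b : Fin n, entry D (kind D b) (ldz D z b) = b := fun b => entry_mk D hD b _
  have hpos : posC D (!s) (Y b) = b := by
    show entry D (kind D b) ((Y b).2 (!s) []) = b
    rw [hnil, entry_nld, hent]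
  have hz : zC D (!s) (Y b) = z := by
    funext m
    show (if m < sh D (entry D (kind D b) ((Y b).2 (!s) [])) then ((Y b).2 (!s) []).2.1 m
      else z (m - sh D (entry D (kind D b) ((Y b).2 (!s) [])) + sh D b)) = z m
    rw [hnil, entry_nld, hent]
    split_ifs with h
    · show (if m < sh D (entry D (kind D b) (ldz D z b)) then (ldz D z b).2.1 m else 0) = z m
      rw [hent, if_pos h]
      show (if m < sh D b then z m else 0) = z m
      rw [if_pos h]
    · congr 1; omega
  have htag : ∀ b d, ((Y b).2 (!s) []).2.2 d = 0 := by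
    intro b d
    rw [hnil]
    show (if d = 0 then 0 else 0) = 0
    split_ifs <;> rfl
  have hcons : ∀ b d l, d ≠ 0 → (Y b).2 (!s) (d :: l) = (Y (b + d)).2 s l := by
    intro b d l hd
    rw [h2, nrm_cons D _ _ hd, hG, hent, h2s]
    congr 1
    funext l'; exact hG' b d l'
  refine Prod.ext ?_ ?_
  · rw [actC_core, hpos, hz]
    refine Prod.ext rfl (Prod.ext rfl ?_)
    show (if c = 0 then 0 else ((Y b).2 (!s) []).2.2 c) = 0
    rw [htag]
    split_ifs <;> rfl
  · funext j l
    rcases Bool.eq_or_eq_not j s with hj | hj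
    · subst hj
      have h3 := actC_other D (!j) c (Y b) l
      rw [Bool.not_not] at h3
      rw [h3]
      by_cases hc : c = 0
      · subst hc; rw [if_pos rfl, add_zero]
      · rw [if_neg hc, hcons b c l hc]
    · subst hj
      cases l with
      | nil =>
        rw [actC_nil, hpos, hz, hnil (b + c)]
        unfold nld
        rw [hent]
        refine Prod.ext rfl (Prod.ext ?_ ?_)
        · funext m
          show (if m < sh D (b + c) then z m else 0) =
            (if m < sh D (b + c) then (if m < sh D (b + c) then z m else 0) else 0)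
          split_ifs <;> rfl
        · funext d
          show (if d = 0 then 0 else if c + d = 0 then 0 else ((Y b).2 (!s) []).2.2 (c + d)) =
            (if d = 0 then 0 else 0)
          rw [htag]
          split_ifs <;> rfl
      | cons d l =>
        rw [actC_cons]
        by_cases hd : d = 0
        · subst hd
          rw [if_pos rfl, h2, nrm_zero_cons]
        · rw [if_neg hd, hcons _ d l hd, add_assoc]
          by_cases hcd : c + d = 0
          · rw [if_pos hcd, hcd, add_zero, Bool.not_not]
          · rw [if_neg hcd, hcons _ _ l hcd]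

/-! ### Innocent strategies -/

def innr (r : ℕ) : HT n := fun l => (0, fun _ => 0, fun _ => l.length + r + 1)

theorem tN_walk (hD : 1 ≤ D) (l : List (Fin n)) (hl : ∀ c ∈ l, c ≠ 0) :
    ∀ (s : Bool) (y : NC n D) (r : ℕ), y.1.2 s = nrm D (kN y) (innr r) →
      tN ((TES D hD).walk s l y) = if l = [] then tN y else r + l.length := by
  induction l with
  | nil => intro s y r _; rfl
  | cons c l ih =>
    intro s y r hy
    have hc : c ≠ 0 := hl c (List.mem_cons_self ..)
    have h1 : tN ((TES D hD).act s c y) = r + 1 := by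
      show (if c = 0 then y.1.1.2.2 else (y.1.2 s []).2.2 c) = r + 1
      rw [if_neg hc, hy, nrm_nil]
      show (if c = 0 then 0 else 0 + r + 1) = r + 1
      rw [if_neg hc, zero_add]
    have h2 : ((TES D hD).act s c y).1.2 (!s) =
        nrm D (kN ((TES D hD).act s c y)) (innr (r + 1)) := by
      funext l'
      show (actC D s c y.1).2 (!s) l' = nrm D (kind D (posC D s y.1 + c)) (innr (r + 1)) l'
      rw [actC_other, if_neg hc, hy, nrm_cons D _ _ hc]
      have h3 : posC D s y.1 = entry D (kN y) (innr r []) := by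
        show entry D (kN y) (y.1.2 s []) = _
        rw [hy, nrm_nil, entry_nld]
      rw [h3]
      congr 1
      funext l''
      unfold innr
      refine Prod.ext rfl (Prod.ext rfl ?_)
      funext _
      simp only [List.length_cons]
      omega
    have h3 := ih (fun d hd => hl d (List.mem_cons_of_mem _ hd)) (!s) ((TES D hD).act s c y)
      (r + 1) h2
    show tN ((TES D hD).walk (!s) l ((TES D hD).act s c y)) = _
    rw [h3, h1]
    by_cases hl0 : l = []
    · subst hl0; simp
    · rw [if_neg hl0, if_neg (by simp), List.length_cons]; omega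

theorem dir_innocent (hD : 1 ≤ D) (s : Bool) (b : Fin n) (u : ℕ → ℕ) (f : Bool → HT n)
    (hf : f s = innr 0) (hNF : (TES D hD).NF (mkR b u f)) :
    (TES D hD).dir (mkR b u f) = !s := by
  apply (TES D hD).dir_of_potential hNF s tN
  intro l hl
  rw [tN_walk hD l hl s (mkR b u f) 0 (by
    show nrm D (kind D b) (f s) = nrm D (kind D b) (innr 0)
    rw [hf])]
  by_cases hl0 : l = []
  · subst hl0; rfl
  · rw [if_neg hl0, zero_add]

/-! ### Merging strategies -/

section Merge

/-- own moves, computed from the sequence `z` of the vertex -/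
def Ow (hD : 1 ≤ D) (σ : Fin n → List ℕ → List (HT n) → HT n) (z : ℕ → ℕ) (t : ℕ) (b : Fin n) :
    HT n :=
  σ b (pre (fun m => z (m + sh D b)) (t + 1)) (List.ofFn fun t' : Fin (t + 1) =>
    (fun l => match l with
      | [] => ldz D z b
      | c :: l' => if _h : D ≤ t'.val then Ow hD σ z (t'.val - D) (b + c) l' else 0))
termination_by t
decreasing_by
  have := t'.isLt
  omega

variable (hD : 1 ≤ D) (σ : Fin n → List ℕ → List (HT n) → HT n)

/-- opponent's moves seen from position `b` -/
def Pw (z : ℕ → ℕ) (b : Fin n) (t : ℕ) : HT n := fun l => match l with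
  | [] => ldz D z b
  | c :: l' => if D ≤ t then Ow hD σ z (t - D) (b + c) l' else 0

theorem Ow_eq (z : ℕ → ℕ) (t : ℕ) (b : Fin n) :
    Ow hD σ z t b = σ b (pre (fun m => z (m + sh D b)) (t + 1)) (pre (Pw hD σ z b) (t + 1)) := by
  rw [Ow]
  congr 1

theorem ldz_congr {z z' : ℕ → ℕ} {T : ℕ} (h : ∀ m < T, z m = z' m) (b : Fin n)
    (hb : sh D b ≤ T) : ldz D z b = ldz D z' b := by
  unfold ldz
  refine Prod.ext rfl (Prod.ext ?_ rfl)
  funext m
  simp only
  split_ifs with hm
  · exact h m (by omega)
  · rfl

theorem Ow_congr {z z' : ℕ → ℕ} {T : ℕ} (h : ∀ m < T, z m = z' m) (t : ℕ) :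
    ∀ b : Fin n, t + sh D b < T → Ow hD σ z t b = Ow hD σ z' t b := by
  induction t using Nat.strong_induction_on with
  | _ t ih =>
    intro b hb
    rw [Ow_eq, Ow_eq]
    congr 1
    · exact pre_congr fun i hi => h _ (by omega)
    · refine pre_congr fun t' ht' => ?_
      funext l
      cases l with
      | nil => exact ldz_congr h b (by omega)
      | cons c l =>
        show (if D ≤ t' then Ow hD σ z (t' - D) (b + c) l else 0) =
          (if D ≤ t' then Ow hD σ z' (t' - D) (b + c) l else 0)
        by_cases hDt : D ≤ t'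
        · rw [if_pos hDt, if_pos hDt]
          have := sh_lt hD (b + c)
          rw [ih (t' - D) (by omega) (b + c) (by omega)]
        · rw [if_neg hDt, if_neg hDt]

theorem Pw_congr {z z' : ℕ → ℕ} {T : ℕ} (h : ∀ m < T, z m = z' m) (t : ℕ) (b : Fin n)
    (hb : sh D b ≤ T) (ht : t ≤ T) : Pw hD σ z b t = Pw hD σ z' b t := by
  funext l
  cases l with
  | nil => exact ldz_congr h b hb
  | cons c l =>
    show (if D ≤ t then Ow hD σ z (t - D) (b + c) l else 0) =
      (if D ≤ t then Ow hD σ z' (t - D) (b + c) l else 0)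
    by_cases hDt : D ≤ t
    · rw [if_pos hDt, if_pos hDt]
      have := sh_lt hD (b + c)
      rw [Ow_congr hD σ h (t - D) (b + c) (by omega)]
    · rw [if_neg hDt, if_neg hDt]

variable (R : Fin n → List ℕ → List (HT n) → Set ℕ)

/-- requirement on the digit with index `T` -/
def Req (T : ℕ) (z : ℕ → ℕ) : Set ℕ :=
  {x | (∀ m < T, z m < x) ∧ ∀ b : Fin n, sh D b ≤ T →
    x ∈ R b (pre (fun m => z (m + sh D b)) (T - sh D b)) (pre (Pw hD σ z b) (T - sh D b))}

theorem Req_congr {z z' : ℕ → ℕ} {T : ℕ} (h : ∀ m < T, z m = z' m) :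
    Req hD σ R T z = Req hD σ R T z' := by
  ext x
  have h1 : ∀ b : Fin n, sh D b ≤ T →
      pre (fun m => z (m + sh D b)) (T - sh D b) = pre (fun m => z' (m + sh D b)) (T - sh D b) :=
    fun b hb => pre_congr fun i hi => h _ (by omega)
  have h2 : ∀ b : Fin n, sh D b ≤ T →
      pre (Pw hD σ z b) (T - sh D b) = pre (Pw hD σ z' b) (T - sh D b) :=
    fun b hb => pre_congr fun i hi => Pw_congr hD σ h i b hb (by omega)
  constructor
  · rintro ⟨h3, h4⟩
    refine ⟨fun m hm => by rw [← h m hm]; exact h3 m hm, fun b hb => ?_⟩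
    rw [← h1 b hb, ← h2 b hb]; exact h4 b hb
  · rintro ⟨h3, h4⟩
    refine ⟨fun m hm => by rw [h m hm]; exact h3 m hm, fun b hb => ?_⟩
    rw [h1 b hb, h2 b hb]; exact h4 b hb

variable {U : Ultrafilter ℕ} (hU : ∀ m, {x : ℕ | m < x} ∈ U) (hR : ∀ b l m, R b l m ∈ U)

include hU hR in
theorem Req_mem (T : ℕ) (z : ℕ → ℕ) : Req hD σ R T z ∈ U := by
  have h1 : (⋂ m ∈ Finset.range T, {x : ℕ | z m < x}) ∈ U :=
    (Filter.biInter_finset_mem _).mpr fun m _ => hU _
  have h2 : (⋂ b ∈ (Finset.univ : Finset (Fin n)), {x | sh D b ≤ T →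
      x ∈ R b (pre (fun m => z (m + sh D b)) (T - sh D b))
        (pre (Pw hD σ z b) (T - sh D b))}) ∈ U := by
    refine (Filter.biInter_finset_mem _).mpr fun b _ => ?_
    refine Filter.mem_of_superset (hR b (pre (fun m => z (m + sh D b)) (T - sh D b))
        (pre (Pw hD σ z b) (T - sh D b))) ?_
    intro x hx _
    exact hx
  refine Filter.mem_of_superset (Filter.inter_mem h1 h2) ?_
  rintro x ⟨hx1, hx2⟩
  simp only [Set.mem_iInter, Finset.mem_range, Set.mem_ofPred_eq, Finset.mem_univ,
    forall_true_left] at hx1 hx2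
  exact ⟨hx1, hx2⟩

/-- the digits -/
noncomputable def zz (hne : ∀ T z, (Req hD σ R T z).Nonempty) (T : ℕ) : ℕ :=
  Classical.choose (hne T (fun m => if _h : m < T then zz hne m else 0))
termination_by T

include hD hU hR in
theorem merge : ∃ (z : ℕ → ℕ) (o p : Fin n → ℕ → HT n), StrictMono z ∧
    (∀ b t, z (t + sh D b) ∈ R b (pre (fun m => z (m + sh D b)) t) (pre (p b) t)) ∧
    (∀ b t, o b t = σ b (pre (fun m => z (m + sh D b)) (t + 1)) (pre (p b) (t + 1))) ∧
    (∀ b t, p b t [] = ldz D z b) ∧
    (∀ b t c l, p b (D + t) (c :: l) = o (b + c) t l) := by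
  have hne : ∀ T z, (Req hD σ R T z).Nonempty := fun T z =>
    Ultrafilter.nonempty_of_mem (Req_mem hD σ R hU hR T z)
  have hz : ∀ T, zz hD σ R hne T ∈ Req hD σ R T (zz hD σ R hne) := by
    intro T
    have h1 : zz hD σ R hne T ∈ Req hD σ R T
        (fun m => if _h : m < T then zz hD σ R hne m else 0) := by
      rw [zz]
      exact Classical.choose_spec (hne T (fun m => if _h : m < T then zz hD σ R hne m else 0))
    rw [Req_congr hD σ R (z' := zz hD σ R hne)] at h1
    · exact h1
    · intro m hm
      rw [dif_pos hm]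
  refine ⟨zz hD σ R hne, fun b t => Ow hD σ (zz hD σ R hne) t b, Pw hD σ (zz hD σ R hne),
    ?_, ?_, ?_, ?_, ?_⟩
  · exact strictMono_nat_of_lt_succ fun t => (hz (t + 1)).1 t (by omega)
  · intro b t
    have := (hz (t + sh D b)).2 b (by omega)
    rw [Nat.add_sub_cancel] at this
    exact this
  · intro b t
    exact Ow_eq hD σ _ t b
  · intro b t; rfl
  · intro b t c l
    show (if D ≤ D + t then Ow hD σ (zz hD σ R hne) (D + t - D) (b + c) l else 0) = _
    rw [if_pos (by omega), Nat.add_sub_cancel_left]

end Merge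

/-! ### The games -/

section Game
variable {k : ℕ} (hD : 1 ≤ D) (col : NC n D → Fin k)

/-- half tree built from a sequence of moves -/
def asm (D : ℕ) (g : ℕ → HT n) : HT n := fun l => g (D * l.length) l

/-- the tree built during a play -/
def res (b : Fin n) (r : ℕ → ℕ × HT n × HT n) : NC n D :=
  mkR b (fun t => (r t).1) (fun i => if i = true then asm D (fun t => (r t).2.2) else
    asm D (fun t => (r t).2.1))

/-- plays won by player I -/
def WI (b : Fin n) (j : ℕ) : Set (ℕ → ℕ × HT n × HT n) :=
  {r | (¬ (TES D hD).NF (res b r) ∧ j ≤ (col (res b r)).val) ∨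
    ((TES D hD).NF (res b r) ∧ (TES D hD).dir (res b r) = true)}

theorem WI_kind (b : Fin n) (j : ℕ) : WI hD col (kind D b) j = WI hD col b j := by
  have : ∀ r, (res (kind D b) r : NC n D) = res b r := fun r => mkR_kind b _ _
  unfold WI
  simp only [this]

/-- plays, with the sigma-algebra generated by the product of discrete topologies -/
def DS (A : Type) : Type := ℕ → A

instance (A : Type) : MeasurableSpace (DS A) := dBorel A

theorem measurable_DS {A : Type} {X : Type*} [MeasurableSpace X] (i : ℕ) (F : A → X) :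
    Measurable (fun x : DS A => F (x i)) := measurable_coord i F

theorem measurable_res (b : Fin n) :
    Measurable (fun r : DS (ℕ × HT n × HT n) => (res b r : NC n D)) := by
  refine Measurable.subtype_mk ?_
  refine Measurable.prodMk (Measurable.prodMk ?_ measurable_const) ?_
  · refine measurable_pi_lambda _ fun t => ?_
    exact measurable_DS t (fun a : ℕ × HT n × HT n => a.1)
  · refine measurable_pi_lambda _ fun j => measurable_pi_lambda _ fun l => ?_
    have h : ∀ g : DS (ℕ × HT n × HT n) → HT n, Measurable g →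
        Measurable fun r => nrm D (kind D b) (g r) l := by
      intro g hg
      have h2 : Measurable fun r => (kind D b, g r) := measurable_const.prodMk hg
      exact (measurable_nrm D l).comp h2
    cases j
    · refine h (fun r => asm D (fun t => (r t).2.1)) ?_
      refine measurable_pi_lambda _ fun l' => ?_
      exact measurable_DS (D * l'.length) (fun a : ℕ × HT n × HT n => a.2.1 l')
    · refine h (fun r => asm D (fun t => (r t).2.2)) ?_
      refine measurable_pi_lambda _ fun l' => ?_
      exact measurable_DS (D * l'.length) (fun a : ℕ × HT n × HT n => a.2.2 l')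

theorem measurableSet_WI (hcol : Measurable col) (b : Fin n) (j : ℕ) :
    MeasurableSet[dBorel (ℕ × HT n × HT n)] (WI hD col b j) := by
  have hr := measurable_res (n := n) (D := D) b
  have h1 : MeasurableSet {y : NC n D | (¬ (TES D hD).NF y ∧ j ≤ (col y).val) ∨
      ((TES D hD).NF y ∧ (TES D hD).dir y = true)} := by
    have hn := (TES (n := n) D hD).measurableSet_NF
    have hd : MeasurableSet {y : NC n D | (TES D hD).dir y = true} :=
      (TES D hD).measurable_dir (measurableSet_singleton true)
    have hc : MeasurableSet {y : NC n D | j ≤ (col y).val} :=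
      hcol (MeasurableSet.of_discrete (s := {x : Fin k | j ≤ x.val}))
    exact (hn.compl.inter hc).union (hn.inter hd)
  exact hr h1

variable (U : Ultrafilter ℕ)

theorem stratII_top (b : Fin n) : StratII U (WI hD col b k) := by
  refine ⟨fun _ _ => Set.univ, fun _ _ => innr 0, fun _ _ => Filter.univ_mem, ?_⟩
  intro u g g' _ hg
  have hf : (res b (fun t => (u t, g t, g' t)) : NC n D) = mkR b u (fun i => if i = true then
      innr 0 else asm D g) := by
    unfold res
    congr 1
    funext i
    cases i
    · rfl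
    · simp only [if_true]
      funext l
      show g' (D * l.length) l = innr 0 l
      rw [hg]
  rintro (⟨_, h⟩ | ⟨h1, h2⟩)
  · have := (col (res b (fun t => (u t, g t, g' t)))).isLt
    omega
  · rw [hf] at h1 h2
    rw [dir_innocent hD true b u _ (by simp) h1] at h2
    simp at h2

theorem stratI_zero (b : Fin n) : StratI U (WI hD col b 0) := by
  classical
  refine ⟨fun _ _ => Set.univ, fun _ _ => innr 0, fun _ _ => Filter.univ_mem, ?_⟩
  intro u g g' _ hg
  have hf : (res b (fun t => (u t, g t, g' t)) : NC n D) = mkR b u (fun i => if i = true then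
      asm D g' else innr 0) := by
    unfold res
    congr 1
    funext i
    cases i
    · simp only [Bool.false_eq_true, if_false]
      funext l
      show g (D * l.length) l = innr 0 l
      rw [hg]
    · rfl
  by_cases h1 : (TES D hD).NF (res b (fun t => (u t, g t, g' t)))
  · right
    refine ⟨h1, ?_⟩
    rw [hf] at h1 ⊢
    rw [dir_innocent hD false b u _ (by simp) h1]
    rfl
  · left
    exact ⟨h1, Nat.zero_le _⟩

theorem pre_dropLast {A : Type*} (x : ℕ → A) (t : ℕ) : (pre x (t + 1)).dropLast = pre x t := by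
  rw [pre_succ]; simp

variable {U} (hU : ∀ m, {x : ℕ | m < x} ∈ U)

include hU in
/-- combining strategies of II around a vertex of type `false` -/
theorem merge_II (μ : Fin n → ℕ) (hμ : ∀ b, StratII U (WI hD col b (μ b))) :
    ∃ Y : Fin n → NC n D, (∀ b, Y b ∈ Yf hD) ∧ (∀ b c, (TES D hD).act false c (Y b) = Y (b + c)) ∧
      ∀ b, (col (Y b)).val < μ b := by
  choose R τ hR hτ using hμ
  obtain ⟨z, o, p, hz, h1, h2, h3, h4⟩ := merge hD τ R hU hR
  have hr : ∀ b, (fun t => (z (t + sh D b), p b t, o b t)) ∉ WI hD col b (μ b) := by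
    intro b
    exact hτ b (fun m => z (m + sh D b)) (p b) (o b) (h1 b) (h2 b)
  let Y : Fin n → NC n D := fun b => mkR b (fun m => z (m + sh D b))
    (fun j => if j = true then asm D (o b) else asm D (p b))
  have hY : ∀ b, (res b (fun t => (z (t + sh D b), p b t, o b t)) : NC n D) = Y b := fun b => rfl
  have hact : ∀ b c, (TES D hD).act false c (Y b) = Y (b + c) := by
    intro b c
    refine act_mkR hD true z (fun b => asm D (o b)) (fun b => asm D (p b)) ?_ ?_ b c
    · intro b
      show p b (D * 0) [] = _
      exact h3 b _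
    · intro b c l
      show p b (D * (l.length + 1)) (c :: l) = o (b + c) (D * l.length) l
      rw [show D * (l.length + 1) = D + D * l.length by ring]
      exact h4 b _ c l
  have hEI : ∀ b, EI (uN (Y b)) := by
    intro b
    refine ⟨0, fun a b' hab => ?_⟩
    show z (0 + a + sh D b) < z (0 + b' + sh D b)
    exact hz (by omega)
  have hnf : ∀ b, ¬ (TES D hD).NF (Y b) := by
    intro b hb
    obtain ⟨c, hc⟩ := (TES D hD).exists_dir hb false
    rw [hact] at hc
    have hnf' : (TES D hD).NF (Y (b + c)) := by
      rw [← hact b c]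
      exact ES.NF.of_orb _ (ES.Orb.symm _ ((TES D hD).orb_act false c (Y b))) hb
    apply hr (b + c)
    right
    rw [hY]
    exact ⟨hnf', by simpa using hc⟩
  refine ⟨Y, fun b => ⟨hnf b, hEI b⟩, hact, fun b => ?_⟩
  by_contra hcon
  apply hr b
  left
  rw [hY]
  exact ⟨hnf b, not_lt.mp hcon⟩

include hU in
/-- combining strategies of I around a vertex of type `true` -/
theorem merge_I (μ : Fin n → ℕ) (hμ : ∀ b, StratI U (WI hD col b (μ b))) :
    ∃ Y : Fin n → NC n D, (∀ b, Y b ∈ Yf hD) ∧ (∀ b c, (TES D hD).act true c (Y b) = Y (b + c)) ∧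
      ∀ b, μ b ≤ (col (Y b)).val := by
  choose R τ hR hτ using hμ
  obtain ⟨z, o, p, hz, h1, h2, h3, h4⟩ := merge hD (fun b l m => τ b l m.dropLast) R hU hR
  have hr : ∀ b, (fun t => (z (t + sh D b), o b t, p b t)) ∈ WI hD col b (μ b) := by
    intro b
    refine hτ b (fun m => z (m + sh D b)) (o b) (p b) (h1 b) (fun t => ?_)
    rw [h2 b t, pre_dropLast]
  let Y : Fin n → NC n D := fun b => mkR b (fun m => z (m + sh D b))
    (fun j => if j = false then asm D (o b) else asm D (p b))
  have hY : ∀ b, (res b (fun t => (z (t + sh D b), o b t, p b t)) : NC n D) = Y b := by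
    intro b
    show mkR b _ _ = mkR b _ _
    congr 1
    funext i
    cases i <;> rfl
  have hact : ∀ b c, (TES D hD).act true c (Y b) = Y (b + c) := by
    intro b c
    refine act_mkR hD false z (fun b => asm D (o b)) (fun b => asm D (p b)) ?_ ?_ b c
    · intro b
      show p b (D * 0) [] = _
      exact h3 b _
    · intro b c l
      show p b (D * (l.length + 1)) (c :: l) = o (b + c) (D * l.length) l
      rw [show D * (l.length + 1) = D + D * l.length by ring]
      exact h4 b _ c l
  have hEI : ∀ b, EI (uN (Y b)) := by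
    intro b
    refine ⟨0, fun a b' hab => ?_⟩
    show z (0 + a + sh D b) < z (0 + b' + sh D b)
    exact hz (by omega)
  have hnf : ∀ b, ¬ (TES D hD).NF (Y b) := by
    intro b hb
    obtain ⟨c, hc⟩ := (TES D hD).exists_dir hb true
    rw [hact] at hc
    have hnf' : (TES D hD).NF (Y (b + c)) := by
      rw [← hact b c]
      exact ES.NF.of_orb _ (ES.Orb.symm _ ((TES D hD).orb_act true c (Y b))) hb
    have h5 := hr (b + c)
    rcases h5 with ⟨h6, _⟩ | ⟨_, h6⟩
    · rw [hY] at h6; exact h6 hnf'
    · rw [hY, hc] at h6; simp at h6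
  refine ⟨Y, fun b => ⟨hnf b, hEI b⟩, hact, fun b => ?_⟩
  rcases hr b with ⟨_, h⟩ | ⟨h, _⟩
  · rw [hY] at h; exact h
  · rw [hY] at h; exact absurd h (hnf b)

end Game

omit [NeZero n] in
/-- the counting argument -/
theorem counting {k μ : ℕ} (hDn : D ≤ n) (m : Fin n → ℕ) (hm0 : ∀ b : Fin n, b.val < D → m b = μ)
    (hμ1 : 1 ≤ μ) (hμk : μ ≤ k) (φ ψ : Fin n → Fin k) (hφ : Function.Injective φ)
    (hψ : Function.Injective ψ) (h1 : ∀ b, (φ b).val < m b) (h2 : ∀ b, m b - 1 ≤ (ψ b).val) :
    n + D ≤ k + 1 := by
  classical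
  let A : Finset (Fin n) := Finset.univ.filter fun b => m b ≤ μ
  let B : Finset (Fin n) := Finset.univ.filter fun b => μ ≤ m b
  have hA : A.card ≤ μ := by
    have h3 : (A.image fun b => (φ b).val) ⊆ Finset.range μ := by
      intro x hx
      obtain ⟨b, hb, rfl⟩ := Finset.mem_image.mp hx
      have := (Finset.mem_filter.mp hb).2
      exact Finset.mem_range.mpr (lt_of_lt_of_le (h1 b) this)
    have h4 : (A.image fun b => (φ b).val).card = A.card :=
      Finset.card_image_of_injective _ fun a b hab => hφ (Fin.ext hab)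
    rw [← h4]
    simpa using Finset.card_le_card h3
  have hB : B.card ≤ k - (μ - 1) := by
    have h3 : (B.image fun b => (ψ b).val) ⊆ Finset.Ico (μ - 1) k := by
      intro x hx
      obtain ⟨b, hb, rfl⟩ := Finset.mem_image.mp hx
      have h5 := (Finset.mem_filter.mp hb).2
      have h6 := h2 b
      exact Finset.mem_Ico.mpr ⟨by omega, (ψ b).isLt⟩
    have h4 : (B.image fun b => (ψ b).val).card = B.card :=
      Finset.card_image_of_injective _ fun a b hab => hψ (Fin.ext hab)
    rw [← h4]
    simpa using Finset.card_le_card h3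
  have hU : A ∪ B = Finset.univ := by
    ext b
    simp only [A, B, Finset.mem_union, Finset.mem_filter, Finset.mem_univ, true_and, iff_true]
    omega
  have hI : D ≤ (A ∩ B).card := by
    have h3 : (Finset.univ : Finset (Fin D)).image (fun j => (⟨j.val, by omega⟩ : Fin n)) ⊆
        A ∩ B := by
      intro b hb
      obtain ⟨j, _, rfl⟩ := Finset.mem_image.mp hb
      have := hm0 ⟨j.val, by omega⟩ j.isLt
      simp only [A, B, Finset.mem_inter, Finset.mem_filter, Finset.mem_univ, true_and]
      omega
    have h4 := Finset.card_le_card h3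
    rw [Finset.card_image_of_injective _ (fun a b hab => by
      have := congrArg Fin.val hab
      exact Fin.ext (by simpa using this))] at h4
    simpa using h4
  have h5 := Finset.card_union_add_card_inter A B
  rw [hU, Finset.card_univ, Fintype.card_fin] at h5
  omega

/-- LOWER BOUND -/
theorem lower (hdet : BorelDet) (hD : 1 ≤ D) (hDn : D ≤ n) {k : ℕ} (hk : k + 1 < n + D) :
    ¬ ∃ c : NC n D → Fin k, Measurable c ∧ (TES D hD).ProperOn (Yf hD) c := by
  classical
  rintro ⟨col, hcol, hprop⟩
  -- a nonprincipal ultrafilter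
  let U : Ultrafilter ℕ := Filter.hyperfilter ℕ
  have hU : ∀ m, {x : ℕ | m < x} ∈ U := by
    intro m
    apply Filter.mem_hyperfilter_of_finite_compl
    have : {x : ℕ | m < x}ᶜ = {x | x ≤ m} := by ext x; simp
    rw [this]
    exact Set.finite_le_nat m
  have hk1 : 1 ≤ k := by
    have y : NC n D := mkR 0 (fun m => m) (fun _ => innr 0)
    have := (col y).isLt
    omega
  have hex : ∀ κ : Fin n, ∃ j, 1 ≤ j ∧ StratII U (WI hD col κ j) := fun κ =>
    ⟨k, hk1, stratII_top hD col U κ⟩
  let m : Fin n → ℕ := fun κ => Nat.find (hex κ)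
  have hm1 : ∀ κ, 1 ≤ m κ := fun κ => (Nat.find_spec (hex κ)).1
  have hmII : ∀ κ, StratII U (WI hD col κ (m κ)) := fun κ => (Nat.find_spec (hex κ)).2
  have hmk : ∀ κ, m κ ≤ k := fun κ => Nat.find_min' (hex κ) ⟨hk1, stratII_top hD col U κ⟩
  have hmI : ∀ κ, StratI U (WI hD col κ (m κ - 1)) := by
    intro κ
    by_cases h : m κ = 1
    · rw [h]; exact stratI_zero hD col U κ
    · rcases digit_dichotomy hdet U (WI hD col κ (m κ - 1))
        (measurableSet_WI hD col hcol κ (m κ - 1)) with h1 | h1
      · exact h1
      · exfalso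
        have h2 := hm1 κ
        exact Nat.find_min (hex κ) (show m κ - 1 < m κ by omega) ⟨by omega, h1⟩
  obtain ⟨Y, hY, hYa, hYc⟩ := merge_II hD col hU (fun b => m (kind D b)) (fun b => by
    have := hmII (kind D b)
    rw [WI_kind] at this
    exact this)
  obtain ⟨Y', hY', hYa', hYc'⟩ := merge_I hD col hU (fun b => m (kind D b) - 1) (fun b => by
    have := hmI (kind D b)
    rw [WI_kind] at this
    exact this)
  have hinj : Function.Injective fun b => col (Y b) := by
    intro b b' hbb'
    by_contra hne
    have h1 := hprop (Y b) (hY b) false (b' - b) (sub_ne_zero.mpr (Ne.symm hne))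
    rw [hYa, add_sub_cancel] at h1
    exact h1 hbb'
  have hinj' : Function.Injective fun b => col (Y' b) := by
    intro b b' hbb'
    by_contra hne
    have h1 := hprop (Y' b) (hY' b) true (b' - b) (sub_ne_zero.mpr (Ne.symm hne))
    rw [hYa', add_sub_cancel] at h1
    exact h1 hbb'
  have := counting hDn (fun b => m (kind D b)) (μ := m 0) (fun b hb => by
    rw [(kind_eq_zero D hD).mpr hb]) (hm1 0) (hmk 0) (fun b => col (Y b)) (fun b => col (Y' b))
    hinj hinj' hYc hYc'
  omega

end

end Pool.Agent.H81.BCI
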